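import Pool.Agent.TH50.DQ.Defs
import Pool.Agent.TH844.DL.Defs

/-!
# Archimedean bound for `1, Li₁(1/Q), Li₂(1/Q)`, `|Q| ≥ 3`: definitions

Same shape as `TH844/DL/Defs.lean` (`wt`, `tm`, `lag`, `PY`, `Ph`, `GG`, `S_lagr`, `S_entry`, `S_weight` are used
unchanged), with other break points and densities: ten bricks on `[0, 11.27 n]`, `n = 10000 N`.
-/

open Polynomial Pool.Agent.H337R2 Pool.Agent.LP

namespace Pool.Agent.TH50.DQ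

noncomputable section

/-- break points (in hundredths) -/
def kk (i : ℕ) : ℕ := [0, 1, 10, 29, 65, 130, 207, 300, 466, 802, 1127].getD i 0

/-- densities (in hundredths) -/
def dd (i : ℕ) : ℕ := [1990, 335, 191, 121, 82, 55, 41, 28, 19, 8].getD i 0

/-- number of nodes of brick `i`, divided by `N` -/
def ct (i : ℕ) : ℕ := dd i * (kk (i + 1) - kk i)

/-- node `j` of brick `i` -/
def node (N i j : ℕ) : ℝ := 100 * N * kk i + 100 / dd i * ((j : ℝ) + 1 / 2)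

/-- the index set -/
def IN (N : ℕ) : Finset (Σ _ : ℕ, ℕ) := (Finset.range 10).sigma fun i => Finset.range (ct i * N)

/-- the set of the nodes -/
def YN (N : ℕ) : Finset ℝ := (IN N).image fun p => node N p.1 p.2

/-- potential of the bricks (scaled) -/
def UU (v : ℝ) : ℝ :=
  ∑ i ∈ Finset.range 10, (dd i : ℝ) / 100 * (Psi (v - kk i / 100) - Psi (v - kk (i + 1) / 100))

/-- energy of the bricks (scaled) -/
def QQ : ℝ :=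
  ∑ i ∈ Finset.range 10, ∑ j ∈ Finset.range 10, ((dd i : ℝ) / 100) * ((dd j : ℝ) / 100) *
    (TH844.DL.GG ((kk (i + 1) : ℝ) / 100 - kk j / 100) - TH844.DL.GG ((kk i : ℝ) / 100 - kk j / 100) -
      TH844.DL.GG ((kk (i + 1) : ℝ) / 100 - kk (j + 1) / 100) + TH844.DL.GG ((kk i : ℝ) / 100 - kk (j + 1) / 100))

/-- the terms of the series of the linear form: `tm` with `1 / Q` for `1 / 2` -/
def tmQ (Q : ℤ) (a b : ℕ) (α β : ℝ) (f : ℝ[X]) (s : ℕ) : ℝ :=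
  (1 / (Q : ℝ)) ^ (s + 1) * (-α * (f.eval ((s : ℝ) + 1) * TH844.DL.wt a b ((s : ℝ) + 1)) +
    β * ((derivative f).eval ((s : ℝ) + 1) * TH844.DL.wt a b ((s : ℝ) + 1) +
      f.eval ((s : ℝ) + 1) * deriv (TH844.DL.wt a b) ((s : ℝ) + 1)))

lemma tmQ_eq (Q : ℤ) (a b : ℕ) (α β : ℝ) (f : ℝ[X]) (s : ℕ) :
    tmQ Q a b α β f s = (2 / (Q : ℝ)) ^ (s + 1) * TH844.DL.tm a b α β f s := by
  unfold tmQ TH844.DL.tm
  have h : (1 / (Q : ℝ)) = (2 / (Q : ℝ)) * (1 / 2) := by ring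
  rw [h, mul_pow, mul_assoc]

/-! ## The tasks -/

/-- the linear form as a convergent series -/
def S_bridge : Prop := ∀ (Q : ℤ), 2 ≤ |Q| → ∀ (a b : ℕ), 1 ≤ a → a ≤ b → ∀ α β γ : ℚ,
  (γ : ℝ) + α * li Q 1 + β * li Q 2 = 0 →
  ∃ T : ℝ[X] →ₗ[ℝ] ℝ, (∀ i : ℕ, ((L Q a b α β γ (X ^ i) : ℚ) : ℝ) = T (X ^ i)) ∧
    ∀ f : ℝ[X], HasSum (tmQ Q a b α β f) (T f)

/-- the nodes: cardinality and range -/
def S_card : Prop := ∀ N : ℕ, 1 ≤ N → (YN N).card = 40000 * N ∧ ∀ y ∈ YN N, 0 < y ∧ y < 112700 * N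

/-- the potential -/
def S_pot : Prop := ∃ C : ℝ, 0 < C ∧ ∀ N : ℕ, 1 ≤ N → ∀ s : ℝ, 1 ≤ s →
  ∑ y ∈ YN N, Real.log (|s - y| + 1) ≤ (10000 * N) * UU (s / (10000 * N)) +
    4 * (10000 * N) * Real.log (10000 * N) + C * Real.log (10000 * N + s)

/-- the energy -/
def S_energy : Prop := ∃ C : ℝ, 0 < C ∧ ∀ N : ℕ, 1 ≤ N →
  QQ * (10000 * N) ^ 2 + 16 * (10000 * N) ^ 2 * Real.log (10000 * N) -
    C * (10000 * N) * Real.log (10000 * N) ≤ ∑ y ∈ YN N, ∑ z ∈ (YN N).erase y, Real.log |y - z|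

/-- certificate for `|Q| ≥ 3` (true maximum `-4.1317`) -/
def S_cert3 : Prop := ∀ v : ℝ, 0 ≤ v → v ≤ 24 → 2 * UU v + TH844.DL.Ph v ≤ 1.0986 * v - 4.11

/-- certificate for `|Q| ≥ 4` (true maximum `-5.1552`) -/
def S_cert4 : Prop := ∀ v : ℝ, 0 ≤ v → v ≤ 24 → 2 * UU v + TH844.DL.Ph v ≤ 1.3862 * v - 5.13

/-- tail -/
def S_tail : Prop := ∀ v : ℝ, 24 ≤ v → 2 * UU v + TH844.DL.Ph v ≤ 1.0986 * v - 4.11 - (v - 24) / 4

/-- energy constant (true value `7.8513`) -/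
def S_QQ : Prop := 7.8 ≤ QQ

/-- **the archimedean bound** (`24.1 = 4 * 4.11 + 7.8 - 0.14`, `28.2 = 4 * 5.13 + 7.8 - 0.12`) -/
def S_arch : Prop := ∀ (Q : ℤ), 3 ≤ |Q| → ∀ α β γ : ℤ, (γ : ℝ) + α * li Q 1 + β * li Q 2 = 0 →
  ∃ c : ℝ, 0 < c ∧ ∃ N0 : ℕ, ∀ N ≥ N0, ∀ m : ℕ, 4 * (10000 * N) - 1 ≤ m → m ≤ 4 * (10000 * N) + 1 →
    |((DD Q (10000 * N) (5 * (10000 * N)) m α β γ : ℚ) : ℝ)| ≤ c ^ m *
      Real.exp (4 * (10000 * (N : ℝ)) ^ 2 * Real.log (10000 * (N : ℝ)) - 24.1 * (10000 * (N : ℝ)) ^ 2) ∧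
    (4 ≤ |Q| → |((DD Q (10000 * N) (5 * (10000 * N)) m α β γ : ℚ) : ℝ)| ≤ c ^ m *
      Real.exp (4 * (10000 * (N : ℝ)) ^ 2 * Real.log (10000 * (N : ℝ)) - 28.2 * (10000 * (N : ℝ)) ^ 2))

end

end Pool.Agent.TH50.DQ
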