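import Pool.Agent.H422R2.LP.Defs

/-!
# Hankel determinants of linear forms in `1, Li₁(1/Q), Li₂(1/Q)`: definitions

`Q` is an integer, `Q ≠ 0, 1`.  With `R_f(s) = f(s) s(s+1)…(s+a-1) / ∏_{k=a}^{b} (s+k)` and a relation
`γ + α Li₁(1/Q) + β Li₂(1/Q) = 0`,
`L(f) = -α ∑_{s ≥ 1} Q^(-s) R_f(s) + β ∑_{s ≥ 1} Q^(-s) R_f'(s)`.
Final shape: `a = n`, `b = 5 n`, sizes `4n-1, 4n, 4n+1`.  The case `Q = 2` is `TH50/DL`, `Q = -1` is `H422R2/LP`.
-/

open Polynomial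

namespace Pool.Agent.TH50.DQ

open Pool.Agent.LP

noncomputable section

/-- `∑_{1 ≤ s ≤ k} Q^(-s) / s^j` -/
def Tz (Q : ℤ) (j k : ℕ) : ℚ := ∑ s ∈ Finset.Icc 1 k, (1 / (Q : ℚ)) ^ s / (s : ℚ) ^ j

/-- values `EB (X^j)` -/
def EBm (Q : ℤ) (j : ℕ) : ℚ := ∑ i ∈ Finset.range (j + 1), fd (X ^ j) i 1 / ((Q : ℚ) - 1) ^ (i + 1)

/-- `∑_{t ≥ 1} Q^(-t) q(t)` -/
def EB (Q : ℤ) : ℚ[X] →ₗ[ℚ] ℚ := Polynomial.lsum fun j => EBm Q j • LinearMap.id

lemma EB_monomial (Q : ℤ) (j : ℕ) (c : ℚ) : EB Q (monomial j c) = c * EBm Q j := by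
  unfold EB
  rw [Polynomial.lsum_apply, Polynomial.sum_monomial_index]
  · rw [LinearMap.smul_apply, LinearMap.id_apply, smul_eq_mul, mul_comm]
  · simp

/-- truncated formula as a linear map -/
def EBN (Q : ℤ) (N : ℕ) : ℚ[X] →ₗ[ℚ] ℚ where
  toFun q := ∑ i ∈ Finset.range N, fd q i 1 / ((Q : ℚ) - 1) ^ (i + 1)
  map_add' q r := by
    simp only [fd_add, add_div, Finset.sum_add_distrib]
  map_smul' c q := by
    simp only [fd_smul, RingHom.id_apply, smul_eq_mul, Finset.mul_sum, mul_div_assoc]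

lemma EBN_apply (Q : ℤ) (N : ℕ) (q : ℚ[X]) :
    EBN Q N q = ∑ i ∈ Finset.range N, fd q i 1 / ((Q : ℚ) - 1) ^ (i + 1) := rfl

lemma EBN_monomial {Q : ℤ} {N j : ℕ} (h : j < N) (c : ℚ) : EBN Q N (monomial j c) = c * EBm Q j := by
  have h1 : (monomial j c : ℚ[X]) = c • X ^ j := by
    rw [smul_eq_C_mul, C_mul_X_pow_eq_monomial]
  rw [h1, map_smul, smul_eq_mul, EBN_apply]
  unfold EBm
  congr 1
  refine (Finset.sum_subset (Finset.range_subset_range.2 (by omega)) ?_).symm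
  intro i _ hi
  rw [Finset.mem_range, not_lt] at hi
  rw [fd_of_lt (by rw [natDegree_X_pow]; omega), zero_div]

theorem EB_eq (Q : ℤ) (q : ℚ[X]) {N : ℕ} (h : q.natDegree < N) :
    EB Q q = ∑ i ∈ Finset.range N, fd q i 1 / ((Q : ℚ) - 1) ^ (i + 1) := by
  rw [← EBN_apply]
  rw [q.as_sum_range' N h, map_sum, map_sum]
  refine Finset.sum_congr rfl fun j hj => ?_
  rw [EB_monomial, EBN_monomial (Finset.mem_range.1 hj)]

/-- functional equation -/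
theorem EB_shift {Q : ℤ} (hQ : Q ≠ 1) (q : ℚ[X]) : (Q : ℚ) * EB Q q - EB Q (q.comp (X + 1)) = q.eval 1 := by
  have hQ' : ((Q : ℚ) - 1) ≠ 0 := by
    intro h
    have : (Q : ℚ) = 1 := by linarith
    exact hQ (by exact_mod_cast this)
  have hN : q.natDegree < q.natDegree + 1 := Nat.lt_succ_self _
  rw [EB_eq Q q hN, EB_eq Q (q.comp (X + 1)) (by rw [natDegree_shift]; exact hN)]
  have h1 : ∀ i, fd (q.comp (X + 1)) i 1 = fd q i 1 + fd q (i + 1) 1 := by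
    intro i
    rw [fd_shift, fd_succ]
    ring
  simp only [h1]
  have key : ∀ N : ℕ, (Q : ℚ) * ∑ i ∈ Finset.range N, fd q i 1 / ((Q : ℚ) - 1) ^ (i + 1) -
      ∑ i ∈ Finset.range N, (fd q i 1 + fd q (i + 1) 1) / ((Q : ℚ) - 1) ^ (i + 1) =
      fd q 0 1 - fd q N 1 / ((Q : ℚ) - 1) ^ N := by
    intro N
    induction N with
    | zero => simp
    | succ N ih =>
      rw [Finset.sum_range_succ, Finset.sum_range_succ]
      have h3 : (Q : ℚ) * (fd q N 1 / ((Q : ℚ) - 1) ^ (N + 1)) -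
          (fd q N 1 + fd q (N + 1) 1) / ((Q : ℚ) - 1) ^ (N + 1) =
          fd q N 1 / ((Q : ℚ) - 1) ^ N - fd q (N + 1) 1 / ((Q : ℚ) - 1) ^ (N + 1) := by
        rw [pow_succ]
        field_simp
        ring
      linear_combination ih + h3
  have h4 := key (q.natDegree + 1)
  rw [fd_of_lt hN, zero_div, sub_zero, fd_zero] at h4
  exact h4

lemma norm_pow_one {p : ℕ} [Fact p.Prime] {x : ℚ} (h : padicNorm p x = 1) (k : ℕ) : padicNorm p (x ^ k) = 1 := by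
  induction k with
  | zero => simp
  | succ k ih => rw [pow_succ, padicNorm.mul, ih, h, one_mul]

/-- primes not dividing `Q - 1`: the sum is not larger than the values -/
theorem norm_EB {p : ℕ} [Fact p.Prime] {Q : ℤ} (hp : padicNorm p ((Q : ℚ) - 1) = 1) {q : ℚ[X]} {A : ℚ} (hA : 0 ≤ A)
    (h : ∀ n : ℤ, padicNorm p (q.eval (n : ℚ)) ≤ A) : padicNorm p (EB Q q) ≤ A := by
  rw [EB_eq Q q (Nat.lt_succ_self _)]
  refine padicNorm.sum_le' (fun i _ => ?_) hA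
  rw [padicNorm.div, norm_pow_one hp, div_one]
  refine norm_fd hA fun k _ => ?_
  have := h (1 + k)
  push_cast at this
  exact this

theorem norm_EB_derivative {p : ℕ} [Fact p.Prime] {Q : ℤ} (hp : padicNorm p ((Q : ℚ) - 1) = 1) {f : ℚ[X]} {k : ℕ}
    (hd : f.natDegree < p ^ (k + 1)) {A : ℚ} (hA : 0 ≤ A)
    (h : ∀ n : ℤ, padicNorm p (f.eval (n : ℚ)) ≤ A) :
    padicNorm p (EB Q (derivative f)) ≤ p ^ k * A :=
  norm_EB hp (by positivity) fun n => norm_derivative hd hA h n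

/-- all primes: `(padicNorm (Q-1))^(-N)`, `N > deg` -/
theorem norm_EB_deg {p : ℕ} [Fact p.Prime] {Q : ℤ} (hQ : Q ≠ 1) {q : ℚ[X]} {N : ℕ} (hN : q.natDegree < N) {A : ℚ}
    (hA : 0 ≤ A) (h : ∀ n : ℤ, padicNorm p (q.eval (n : ℚ)) ≤ A) :
    padicNorm p (EB Q q) ≤ (padicNorm p ((Q : ℚ) - 1))⁻¹ ^ N * A := by
  have hQ' : ((Q : ℚ) - 1) ≠ 0 := by
    intro h
    have : (Q : ℚ) = 1 := by linarith
    exact hQ (by exact_mod_cast this)
  set x := padicNorm p ((Q : ℚ) - 1) with hx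
  have hx0 : 0 < x := lt_of_le_of_ne (padicNorm.nonneg _) (Ne.symm (padicNorm.nonzero hQ'))
  have hx1 : x ≤ 1 := by
    have := padicNorm.of_int (p := p) (Q - 1)
    push_cast at this
    exact this
  have hpow : ∀ k : ℕ, padicNorm p (((Q : ℚ) - 1) ^ k) = x ^ k := by
    intro k
    induction k with
    | zero => simp
    | succ k ih => rw [pow_succ, pow_succ, padicNorm.mul, ih]
  rw [EB_eq Q q hN]
  refine padicNorm.sum_le' (fun i hi => ?_) (by positivity)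
  rw [padicNorm.div, hpow, div_eq_mul_inv, ← inv_pow, mul_comm]
  have h1 : (1 : ℚ) ≤ x⁻¹ := (one_le_inv₀ hx0).2 hx1
  refine mul_le_mul (pow_le_pow_right₀ h1 (by rw [Finset.mem_range] at hi; omega)) ?_ (padicNorm.nonneg _)
    (by positivity)
  refine norm_fd hA fun k _ => ?_
  have := h (1 + k)
  push_cast at this
  exact this

/-- the linear form, as a function -/
def Lf (Q : ℤ) (a b : ℕ) (α β γ : ℚ) (f : ℚ[X]) : ℚ :=
  ∑ k ∈ Finset.Icc a b, (Q : ℚ) ^ k * rs a b f k * (γ + α * Tz Q 1 k + β * Tz Q 2 k) -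
    α * EB Q (pp a b f) + β * EB Q (derivative (pp a b f))

/-- the linear form `L` -/
def L (Q : ℤ) (a b : ℕ) (α β γ : ℚ) : ℚ[X] →ₗ[ℚ] ℚ where
  toFun := Lf Q a b α β γ
  map_add' f g := by
    unfold Lf
    simp only [rs_add, pp_add, map_add, mul_add, add_mul, Finset.sum_add_distrib]
    ring
  map_smul' c f := by
    unfold Lf
    simp only [rs_smul, pp_smul, map_smul, smul_eq_mul, RingHom.id_apply]
    rw [mul_add, mul_sub, Finset.mul_sum]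
    have h1 : ∑ k ∈ Finset.Icc a b, (Q : ℚ) ^ k * (c * rs a b f k) * (γ + α * Tz Q 1 k + β * Tz Q 2 k) =
        ∑ k ∈ Finset.Icc a b, c * ((Q : ℚ) ^ k * rs a b f k * (γ + α * Tz Q 1 k + β * Tz Q 2 k)) :=
      Finset.sum_congr rfl fun k _ => by ring
    rw [h1]
    ring

/-- Hankel determinant of size `m` -/
def DD (Q : ℤ) (a b m : ℕ) (α β γ : ℚ) : ℚ :=
  (Matrix.of fun i j : Fin m => L Q a b α β γ (X ^ ((i : ℕ) + (j : ℕ)))).det

/-- `Li_j(1/Q)`, for `j = 1, 2` -/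
def li (Q : ℤ) (j : ℕ) : ℝ := ∑' s : ℕ, (1 / (Q : ℝ)) ^ (s + 1) / ((s : ℝ) + 1) ^ j

end

end Pool.Agent.TH50.DQ
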