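import Pool.Agent.TH50.DQ.Tasks
import Pool.Agent.TH50.DL.TwoC

/-!
# Primes dividing `Q`: shift of the functional (port of `TH50/DL/TwoB.lean`)
-/

open Polynomial

namespace Pool.Agent.TH50.DQ.Div

open Pool.Agent.LP Pool.Agent.LP.T2 Pool.Agent.TH50.DQ
open Pool.Agent.TH50.DL.Two (rho Pn_split' prod_split EE_ne pf_zero)

noncomputable section

/-- the functional `g ↦ L(g / Pn c b)` -/
def LT (Q : ℤ) (c b : ℕ) (α β γ : ℚ) (g : ℚ[X]) : ℚ :=
  ∑ k ∈ Finset.Icc c b, (Q : ℚ) ^ k * rho c b g k * (γ + α * Tz Q 1 k + β * Tz Q 2 k) -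
    α * EB Q (g /ₘ Pn c b) + β * EB Q (derivative (g /ₘ Pn c b))

lemma L_eq_LT (Q : ℤ) (a b : ℕ) (α β γ : ℚ) (f : ℚ[X]) : L Q a b α β γ f = LT Q a b α β γ (An a * f) := rfl

lemma LT_cancel (Q : ℤ) {a c b : ℕ} (hac : a ≤ c) (hcb : c ≤ b) (α β γ : ℚ) (g : ℚ[X]) :
    LT Q a b α β γ (EE a c * g) = LT Q c b α β γ g := by
  unfold LT
  have h1 : (EE a c * g) /ₘ Pn a b = g /ₘ Pn c b := by
    rw [Pn_split' hac hcb, mul_comm (EE a c) g, mul_comm (EE a c) (Pn c b)]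
    exact divByMonic_cancel (Pn_monic _ _) (EE_monic _ _)
  rw [h1]
  congr 2
  have hsub : Finset.Icc c b ⊆ Finset.Icc a b := Finset.Icc_subset_Icc hac le_rfl
  rw [← Finset.sum_subset hsub]
  · refine Finset.sum_congr rfl fun k hk => ?_
    have h2 : rho a b (EE a c * g) k = rho c b g k := by
      unfold rho
      rw [prod_split hac hk, eval_mul]
      exact mul_div_mul_left _ _ (EE_ne (Finset.mem_Icc.1 hk).1)
    rw [h2]
  · intro k hk hk'
    rw [Finset.mem_Icc] at hk hk'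
    have h2 : rho a b (EE a c * g) k = 0 := by
      unfold rho
      rw [eval_mul, EE_eval_neg hk.1 (by omega), zero_mul, zero_div]
    rw [h2]
    ring

lemma TT_eq {Q : ℤ} (hQ : Q ≠ 0) (j k : ℕ) :
    (Q : ℚ) ^ k * Tz Q j k = ∑ u ∈ Finset.range k, (Q : ℚ) ^ u / ((k : ℚ) - u) ^ j := by
  have hQ' : (Q : ℚ) ≠ 0 := by exact_mod_cast hQ
  unfold Tz
  have h1 : Finset.Icc 1 k = Finset.Ico 1 (k + 1) := by
    ext x; simp only [Finset.mem_Icc, Finset.mem_Ico]; omega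
  rw [h1, Finset.sum_Ico_eq_sum_range, Nat.add_sub_cancel, Finset.mul_sum, ← Finset.sum_range_reflect]
  refine Finset.sum_congr rfl fun u hu => ?_
  rw [Finset.mem_range] at hu
  have h2 : 1 + (k - 1 - u) = k - u := by omega
  rw [h2, Nat.cast_sub hu.le]
  have h3 : (Q : ℚ) ^ k = Q ^ u * Q ^ (k - u) := by rw [← pow_add]; congr 1; omega
  rw [h3, one_div, inv_pow]
  have h4 : (Q : ℚ) ^ (k - u) ≠ 0 := pow_ne_zero _ hQ'
  field_simp

lemma TT_shift {Q : ℤ} (hQ : Q ≠ 0) {j k N : ℕ} (hN : N ≤ k) : (Q : ℚ) ^ k * Tz Q j k =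
    (Q : ℚ) ^ N * ((Q : ℚ) ^ (k - N) * Tz Q j (k - N)) + ∑ u ∈ Finset.range N, (Q : ℚ) ^ u / ((k : ℚ) - u) ^ j := by
  rw [TT_eq hQ, TT_eq hQ]
  have h1 : k = N + (k - N) := by omega
  conv_lhs => rw [h1, Finset.sum_range_add]
  rw [add_comm, Finset.mul_sum]
  have h2 : (N : ℚ) + ((k - N : ℕ) : ℚ) = k := by rw [Nat.cast_sub hN]; ring
  congr 1
  · refine Finset.sum_congr rfl fun u _ => ?_
    rw [pow_add]
    push_cast
    rw [h2, Nat.cast_sub hN]
    have e : (k : ℚ) - (N + u) = k - N - u := by ring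
    rw [e]
    ring
  · refine Finset.sum_congr rfl fun u _ => ?_
    push_cast
    rw [h2]

lemma EB_iter {Q : ℤ} (hQ : Q ≠ 1) (q : ℚ[X]) (N : ℕ) : EB Q q = (Q : ℚ) ^ N * EB Q (q.comp (X - C (N : ℚ))) -
    ∑ u ∈ Finset.range N, (Q : ℚ) ^ u * q.eval (-(u : ℚ)) := by
  induction N with
  | zero => simp
  | succ N ih =>
    have h1 := EB_shift hQ (q.comp (X - C ((N + 1 : ℕ) : ℚ)))
    have h2 : (q.comp (X - C ((N + 1 : ℕ) : ℚ))).comp (X + 1) = q.comp (X - C (N : ℚ)) := by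
      rw [comp_assoc]
      congr 1
      simp only [sub_comp, X_comp, C_comp]
      push_cast
      rw [C_add, C_1]
      ring
    have h3 : (q.comp (X - C ((N + 1 : ℕ) : ℚ))).eval 1 = q.eval (-(N : ℚ)) := by
      rw [eval_comp]
      congr 1
      simp
    rw [h2, h3] at h1
    rw [Finset.sum_range_succ, ih, pow_succ]
    linear_combination (-(Q : ℚ) ^ N) * h1

/-- **the shift**: double zeros at `0, -1, …, -(N-1)` give the factor `Q^N` -/
theorem LT_shift {Q : ℤ} (hQ : Q ≠ 0) (hQ1 : Q ≠ 1) {c b N : ℕ} (hN : N ≤ c) (α β γ : ℚ) {g : ℚ[X]}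
    (h0 : ∀ u < N, g.eval (-(u : ℚ)) = 0) (h1 : ∀ u < N, (derivative g).eval (-(u : ℚ)) = 0) :
    LT Q c b α β γ g = (Q : ℚ) ^ N * (∑ k ∈ Finset.Icc c b, rho c b g k *
        ((Q : ℚ) ^ (k - N) * γ + α * ((Q : ℚ) ^ (k - N) * Tz Q 1 (k - N)) + β * ((Q : ℚ) ^ (k - N) * Tz Q 2 (k - N))) -
      α * EB Q ((g /ₘ Pn c b).comp (X - C (N : ℚ))) +
      β * EB Q ((derivative (g /ₘ Pn c b)).comp (X - C (N : ℚ)))) := by
  unfold LT
  set q := g /ₘ Pn c b with hq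
  have e1 := EB_iter hQ1 q N
  have e2 := EB_iter hQ1 (derivative q) N
  have hsum : ∑ k ∈ Finset.Icc c b, (Q : ℚ) ^ k * rho c b g k * (γ + α * Tz Q 1 k + β * Tz Q 2 k) =
      (Q : ℚ) ^ N * ∑ k ∈ Finset.Icc c b, rho c b g k *
        ((Q : ℚ) ^ (k - N) * γ + α * ((Q : ℚ) ^ (k - N) * Tz Q 1 (k - N)) + β * ((Q : ℚ) ^ (k - N) * Tz Q 2 (k - N))) +
      ∑ u ∈ Finset.range N, (Q : ℚ) ^ u * (α * ∑ k ∈ Finset.Icc c b, rho c b g k / ((k : ℚ) - u) +
        β * ∑ k ∈ Finset.Icc c b, rho c b g k / ((k : ℚ) - u) ^ 2) := by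
    have hsw : ∑ u ∈ Finset.range N, (Q : ℚ) ^ u * (α * ∑ k ∈ Finset.Icc c b, rho c b g k / ((k : ℚ) - u) +
        β * ∑ k ∈ Finset.Icc c b, rho c b g k / ((k : ℚ) - u) ^ 2) =
        ∑ k ∈ Finset.Icc c b, rho c b g k * (α * ∑ u ∈ Finset.range N, (Q : ℚ) ^ u / ((k : ℚ) - u) ^ 1 +
          β * ∑ u ∈ Finset.range N, (Q : ℚ) ^ u / ((k : ℚ) - u) ^ 2) := by
      simp only [mul_add, Finset.sum_add_distrib, Finset.mul_sum]
      congr 1
      · rw [Finset.sum_comm]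
        refine Finset.sum_congr rfl fun k _ => Finset.sum_congr rfl fun u _ => ?_
        rw [pow_one]
        ring
      · rw [Finset.sum_comm]
        refine Finset.sum_congr rfl fun k _ => Finset.sum_congr rfl fun u _ => ?_
        ring
    rw [hsw, Finset.mul_sum, ← Finset.sum_add_distrib]
    refine Finset.sum_congr rfl fun k hk => ?_
    rw [Finset.mem_Icc] at hk
    have t1 := TT_shift hQ (j := 1) (show N ≤ k by omega)
    have t2 := TT_shift hQ (j := 2) (show N ≤ k by omega)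
    have t0 : (Q : ℚ) ^ k = Q ^ N * Q ^ (k - N) := by rw [← pow_add]; congr 1; omega
    linear_combination (rho c b g k * γ) * t0 + (rho c b g k * α) * t1 + (rho c b g k * β) * t2
  have hz : ∑ u ∈ Finset.range N, (Q : ℚ) ^ u * (α * ∑ k ∈ Finset.Icc c b, rho c b g k / ((k : ℚ) - u) +
        β * ∑ k ∈ Finset.Icc c b, rho c b g k / ((k : ℚ) - u) ^ 2) =
      -α * ∑ u ∈ Finset.range N, (Q : ℚ) ^ u * q.eval (-(u : ℚ)) +
        β * ∑ u ∈ Finset.range N, (Q : ℚ) ^ u * (derivative q).eval (-(u : ℚ)) := by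
    rw [Finset.mul_sum, Finset.mul_sum, ← Finset.sum_add_distrib]
    refine Finset.sum_congr rfl fun u hu => ?_
    rw [Finset.mem_range] at hu
    obtain ⟨a0, a1⟩ := pf_zero (c := c) (b := b) (show u < c by omega) (h0 u hu) (h1 u hu)
    rw [← hq] at a0 a1
    linear_combination ((Q : ℚ) ^ u * α) * a0 - ((Q : ℚ) ^ u * β) * a1
  rw [hsum, hz, e1, e2]
  ring

/-! ### norms -/

variable {p : ℕ} [Fact p.Prime]

lemma norm_pow' (x : ℚ) (i : ℕ) : padicNorm p (x ^ i) = padicNorm p x ^ i := by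
  induction i with
  | zero => simp
  | succ i ih => rw [pow_succ, pow_succ, padicNorm.mul, ih]

lemma norm_Qpow (Q : ℤ) (u : ℕ) : padicNorm p ((Q : ℚ) ^ u) ≤ 1 := by
  have := padicNorm.of_int (p := p) (Q ^ u)
  push_cast at this
  exact this

lemma TT_norm {Q : ℤ} (hQ : Q ≠ 0) {i k K : ℕ} (hk : k < p ^ (K + 1)) :
    padicNorm p ((Q : ℚ) ^ k * Tz Q i k) ≤ ((p : ℚ) ^ K) ^ i := by
  rw [TT_eq hQ]
  refine padicNorm.sum_le' (fun u hu => ?_) (by positivity)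
  rw [Finset.mem_range] at hu
  have h1 : (Q : ℚ) ^ u / ((k : ℚ) - u) ^ i = (Q : ℚ) ^ u * (((k - u : ℕ) : ℚ)⁻¹) ^ i := by
    rw [Nat.cast_sub hu.le, inv_pow, div_eq_mul_inv]
  rw [h1, padicNorm.mul]
  have h2 : padicNorm p ((Q : ℚ) ^ u) ≤ 1 := norm_Qpow Q u
  have h3 : padicNorm p ((((k - u : ℕ) : ℚ)⁻¹) ^ i) ≤ ((p : ℚ) ^ K) ^ i := by
    rw [norm_pow']
    refine pow_le_pow_left₀ (padicNorm.nonneg _) ?_ _
    exact norm_inv_nat (p := p) (j := k - u) (k := K) (by omega) (by omega)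
  calc _ ≤ 1 * ((p : ℚ) ^ K) ^ i := mul_le_mul h2 h3 (padicNorm.nonneg _) zero_le_one
    _ = _ := one_mul _

lemma one_le_pq : (1 : ℚ) ≤ p := by exact_mod_cast (Fact.out : p.Prime).one_lt.le

lemma weight_norm {Q : ℤ} (hQ : Q ≠ 0) {k K : ℕ} (hk : k < p ^ (K + 1)) (α β γ : ℤ) :
    padicNorm p ((Q : ℚ) ^ k * (γ : ℚ) + (α : ℚ) * ((Q : ℚ) ^ k * Tz Q 1 k) + (β : ℚ) * ((Q : ℚ) ^ k * Tz Q 2 k)) ≤
      (p : ℚ) ^ (2 * K) := by
  have h0 : (1 : ℚ) ≤ (p : ℚ) ^ K := one_le_pow₀ one_le_pq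
  have hT : (p : ℚ) ^ (2 * K) = (p : ℚ) ^ K * (p : ℚ) ^ K := by rw [← pow_add]; congr 1; ring
  rw [hT]
  have ha := TT_norm hQ (i := 1) hk
  have hb := TT_norm hQ (i := 2) hk
  rw [pow_one] at ha
  rw [pow_two] at hb
  have h1 : padicNorm p ((Q : ℚ) ^ k * (γ : ℚ)) ≤ (p : ℚ) ^ K * (p : ℚ) ^ K := by
    have h := padicNorm.of_int (p := p) (Q ^ k * γ)
    push_cast at h
    nlinarith
  have h2 : padicNorm p ((α : ℚ) * ((Q : ℚ) ^ k * Tz Q 1 k)) ≤ (p : ℚ) ^ K * (p : ℚ) ^ K := by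
    rw [padicNorm.mul]
    have := padicNorm.of_int (p := p) α
    have h5 := padicNorm.nonneg (p := p) ((Q : ℚ) ^ k * Tz Q 1 k)
    nlinarith [padicNorm.nonneg (p := p) (α : ℚ)]
  have h3 : padicNorm p ((β : ℚ) * ((Q : ℚ) ^ k * Tz Q 2 k)) ≤ (p : ℚ) ^ K * (p : ℚ) ^ K := by
    rw [padicNorm.mul]
    have := padicNorm.of_int (p := p) β
    have h5 := padicNorm.nonneg (p := p) ((Q : ℚ) ^ k * Tz Q 2 k)
    nlinarith [padicNorm.nonneg (p := p) (β : ℚ)]
  refine (padicNorm.nonarchimedean (p := p)).trans (max_le ?_ h3)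
  exact (padicNorm.nonarchimedean (p := p)).trans (max_le h1 h2)

/-- absolute value of the factorial -/
def Fc (p t : ℕ) : ℚ := padicNorm p ((t.factorial : ℕ) : ℚ)

lemma Fc_pos (t : ℕ) : 0 < Fc p t := by
  have : ((t.factorial : ℕ) : ℚ) ≠ 0 := by exact_mod_cast Nat.factorial_ne_zero _
  exact lt_of_le_of_ne (padicNorm.nonneg _) (Ne.symm fun h0 => this (padicNorm.zero_of_padicNorm_eq_zero h0))

lemma Fc_anti {s t : ℕ} (h : s ≤ t) : Fc p t ≤ Fc p s := by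
  have hd := Nat.factorial_dvd_factorial h
  obtain ⟨c, hc⟩ := hd
  unfold Fc
  rw [hc]
  push_cast
  rw [padicNorm.mul]
  have h1 : padicNorm p (c : ℚ) ≤ 1 := padicNorm.of_nat _
  have h2 := padicNorm.nonneg (p := p) ((s.factorial : ℕ) : ℚ)
  nlinarith

lemma prod_erase_norm' {u v k : ℕ} (h1 : u ≤ k) (h2 : k < v) :
    Fc p (v - u - 1) ≤ padicNorm p (∏ l ∈ (Finset.Ico u v).erase k, ((l : ℚ) - k)) := by
  have hs : (Finset.Ico u v).erase k = Finset.Ico u k ∪ Finset.Ico (k + 1) v := by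
    ext x
    simp only [Finset.mem_erase, Finset.mem_Ico, Finset.mem_union]
    omega
  have hd : Disjoint (Finset.Ico u k) (Finset.Ico (k + 1) v) := by
    rw [Finset.disjoint_left]
    intro x hx hx'
    rw [Finset.mem_Ico] at hx hx'
    omega
  have e1 : ∏ l ∈ Finset.Ico u k, ((l : ℚ) - k) = (-1) ^ (k - u) * (((k - u).factorial : ℕ) : ℚ) := by
    rw [Finset.prod_Ico_eq_prod_range, ← Finset.prod_range_reflect]
    have : ∀ i ∈ Finset.range (k - u), (((u + (k - u - 1 - i) : ℕ) : ℚ) - k) = (-1) * ((i + 1 : ℕ) : ℚ) := by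
      intro i hi
      rw [Finset.mem_range] at hi
      rw [show u + (k - u - 1 - i) = k - (i + 1) by omega, Nat.cast_sub (by omega)]
      ring
    rw [Finset.prod_congr rfl this, Finset.prod_mul_distrib, Finset.prod_const, Finset.card_range,
      ← Finset.prod_range_add_one_eq_factorial]
    push_cast
    rfl
  have e2 : ∏ l ∈ Finset.Ico (k + 1) v, ((l : ℚ) - k) = (((v - (k + 1)).factorial : ℕ) : ℚ) := by
    rw [Finset.prod_Ico_eq_prod_range, ← Finset.prod_range_add_one_eq_factorial]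
    push_cast
    refine Finset.prod_congr rfl fun i _ => ?_
    ring
  rw [hs, Finset.prod_union hd, e1, e2]
  have hn : padicNorm p ((-1 : ℚ) ^ (k - u)) = 1 := by
    rcases neg_one_pow_eq_or ℚ (k - u) with h | h <;> rw [h] <;> simp
  rw [padicNorm.mul, padicNorm.mul, hn, one_mul, ← padicNorm.mul]
  have hdvd : (k - u).factorial * (v - (k + 1)).factorial ∣ (v - u - 1).factorial := by
    have := Nat.factorial_mul_factorial_dvd_factorial_add (k - u) (v - (k + 1))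
    rwa [show k - u + (v - (k + 1)) = v - u - 1 by omega] at this
  have h3 := padic_int_dvd (p := p) (Int.natCast_dvd_natCast.2 hdvd)
  unfold Fc
  push_cast at h3 ⊢
  exact h3

lemma rho_norm {c b k : ℕ} (hk : k ∈ Finset.Icc c b) {g : ℚ[X]} {A : ℚ} (hA : 0 ≤ A)
    (h : ∀ x : ℤ, padicNorm p (g.eval (x : ℚ)) ≤ A) : padicNorm p (rho c b g k) ≤ A * (Fc p (b + 1 - c))⁻¹ := by
  rw [Finset.mem_Icc] at hk
  unfold rho
  rw [padicNorm.div, div_eq_mul_inv]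
  have h1 := h (-(k : ℤ))
  push_cast at h1
  have h2 := prod_erase_norm' (p := p) (u := c) (v := b + 1) (k := k) hk.1 (by omega)
  have hIcc : Finset.Ico c (b + 1) = Finset.Icc c b := by
    ext x; simp only [Finset.mem_Icc, Finset.mem_Ico]; omega
  rw [hIcc] at h2
  have h3 : (padicNorm p (∏ j ∈ (Finset.Icc c b).erase k, ((j : ℚ) - k)))⁻¹ ≤ (Fc p (b + 1 - c))⁻¹ := by
    refine inv_anti₀ (Fc_pos _) ((Fc_anti ?_).trans h2)
    omega
  exact mul_le_mul h1 h3 (inv_nonneg.2 (padicNorm.nonneg _)) hA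

theorem LT_norm {Q : ℤ} (hQ : Q ≠ 0) (hQ1 : Q ≠ 1) (hQp : padicNorm p ((Q : ℚ) - 1) = 1) {c b N K : ℕ} (hN : N ≤ c)
    (hb : b < p ^ (K + 1)) {g : ℚ[X]}
    (hd : g.natDegree < p ^ (K + 1)) {A : ℚ} (hA : 0 ≤ A) (hval : ∀ x : ℤ, padicNorm p (g.eval (x : ℚ)) ≤ A)
    (h0 : ∀ u < N, g.eval (-(u : ℚ)) = 0) (h1 : ∀ u < N, (derivative g).eval (-(u : ℚ)) = 0) (α β γ : ℤ)
    (hcb : c ≤ b) :
    padicNorm p (LT Q c b α β γ g) ≤ padicNorm p (Q : ℚ) ^ N * (A * (Fc p (b + 1 - c))⁻¹ * (p : ℚ) ^ (2 * K)) := by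
  rw [LT_shift hQ hQ1 hN _ _ _ h0 h1, padicNorm.mul, norm_pow']
  refine mul_le_mul_of_nonneg_left ?_ (pow_nonneg (padicNorm.nonneg _) _)
  set q := g /ₘ Pn c b with hq
  have hF : 0 < (Fc p (b + 1 - c))⁻¹ := inv_pos.2 (Fc_pos _)
  have hp0 : (0 : ℚ) < p := lt_of_lt_of_le one_pos one_le_pq
  set B : ℚ := A * (Fc p (b + 1 - c))⁻¹ * (p : ℚ) ^ (2 * K) with hB
  have hB0 : 0 ≤ B := by positivity
  -- values of the quotient
  have hqv : ∀ x : ℤ, padicNorm p (q.eval (x : ℚ)) ≤ A * (Fc p (b + 1 - c))⁻¹ * (p : ℚ) ^ K := by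
    intro x
    have hPG : Pn c b = GG (((1 - ((b + 1 : ℕ) : ℤ) : ℤ)) : ℚ) (b + 1 - c) := by
      rw [Pn_eq, EE_eq_GG (by omega)]
      push_cast
      rfl
    rw [hq, hPG]
    have h3 := P2_divG (p := p) (f := g) (k := K) hd (b + 1 - c) (1 - ((b + 1 : ℕ) : ℤ)) hA hval x
    refine h3.trans (le_of_eq ?_)
    unfold Fc
    ring
  have hqd : q.natDegree < p ^ (K + 1) := by
    rw [hq, natDegree_divByMonic _ (Pn_monic _ _)]
    omega
  have hqv' : ∀ x : ℤ, padicNorm p ((derivative q).eval (x : ℚ)) ≤ B := by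
    intro x
    have h3 := norm_derivative (p := p) (f := q) (k := K) hqd (A := A * (Fc p (b + 1 - c))⁻¹ * (p : ℚ) ^ K)
      (by positivity) hqv x
    refine h3.trans (le_of_eq ?_)
    rw [hB]
    ring
  have hle : A * (Fc p (b + 1 - c))⁻¹ * (p : ℚ) ^ K ≤ B := by
    rw [hB]
    refine mul_le_mul_of_nonneg_left (pow_le_pow_right₀ one_le_pq (by omega)) (by positivity)
  have hEB1 : padicNorm p (EB Q (q.comp (X - C (N : ℚ)))) ≤ B := by
    refine norm_EB hQp hB0 fun x => ?_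
    rw [eval_comp, eval_sub, eval_X, eval_C]
    have := hqv (x - N)
    push_cast at this
    exact this.trans hle
  have hEB2 : padicNorm p (EB Q ((derivative q).comp (X - C (N : ℚ)))) ≤ B := by
    refine norm_EB hQp hB0 fun x => ?_
    rw [eval_comp, eval_sub, eval_X, eval_C]
    have := hqv' (x - N)
    push_cast at this
    exact this
  have hint : ∀ (z : ℤ) (y : ℚ), padicNorm p y ≤ B → padicNorm p ((z : ℚ) * y) ≤ B := by
    intro z y hy
    rw [padicNorm.mul]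
    have := padicNorm.of_int (p := p) z
    nlinarith [padicNorm.nonneg (p := p) y, padicNorm.nonneg (p := p) (z : ℚ)]
  have hres : padicNorm p (∑ k ∈ Finset.Icc c b, rho c b g k *
        ((Q : ℚ) ^ (k - N) * (γ : ℚ) + (α : ℚ) * ((Q : ℚ) ^ (k - N) * Tz Q 1 (k - N)) +
          (β : ℚ) * ((Q : ℚ) ^ (k - N) * Tz Q 2 (k - N)))) ≤ B := by
    refine padicNorm.sum_le' (fun k hk => ?_) hB0
    rw [padicNorm.mul]
    have h3 := rho_norm hk hA hval
    have hkb := (Finset.mem_Icc.1 hk).2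
    have h4 := weight_norm (p := p) hQ (k := k - N) (K := K) (by omega) α β γ
    exact mul_le_mul h3 h4 (padicNorm.nonneg _) (by positivity)
  refine (padicNorm.nonarchimedean (p := p)).trans (max_le ?_ (hint β _ hEB2))
  rw [sub_eq_add_neg]
  refine (padicNorm.nonarchimedean (p := p)).trans (max_le hres ?_)
  rw [padicNorm.neg]
  exact hint α _ hEB1

end

end Pool.Agent.TH50.DQ.Div
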