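import Pool.Agent.TH50.DQ.DivA

/-!
# Primes dividing `Q`: the bound (port of `TH50/DL/TwoC.lean`)
-/

open Polynomial

namespace Pool.Agent.TH50.DQ.Div

open Pool.Agent.LP Pool.Agent.LP.T2 Pool.Agent.TH50.DQ
open Pool.Agent.TH50.DL.Two (NN bP bP_monic bP_natDegree der_zero NN_mono sum_NN)

noncomputable section

variable {p : ℕ} [Fact p.Prime]

/-! ### Legendre's formula -/

lemma one_lt_pR : (1 : ℝ) < p := by exact_mod_cast (Fact.out : p.Prime).one_lt

lemma Fc_real (t : ℕ) : ((Fc p t : ℚ) : ℝ) = Real.exp (-(padicValNat p t.factorial : ℝ) * Real.log p) := by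
  unfold Fc
  have h0 : ((t.factorial : ℕ) : ℚ) ≠ 0 := by exact_mod_cast Nat.factorial_ne_zero _
  rw [padicNorm.eq_zpow_of_nonzero h0, padicValRat.of_nat]
  have hp : (0 : ℝ) < p := lt_trans one_pos one_lt_pR
  rw [mul_comm, Real.exp_mul, Real.exp_log hp, Rat.cast_zpow, Rat.cast_natCast, ← Real.rpow_intCast, Int.cast_neg,
    Int.cast_natCast]

lemma legendre (t : ℕ) : ((p : ℝ) - 1) * padicValNat p t.factorial ≤ t := by
  have h := sub_one_mul_padicValNat_factorial (p := p) t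
  have hp : 1 < p := (Fact.out : p.Prime).one_lt
  have h1 : (p - 1) * padicValNat p t.factorial ≤ t := by rw [h]; exact Nat.sub_le _ _
  have h2 : (((p - 1 : ℕ) : ℝ)) * padicValNat p t.factorial ≤ t := by exact_mod_cast h1
  rwa [Nat.cast_sub hp.le, Nat.cast_one] at h2

lemma legendre' {t K : ℕ} (ht : t < p ^ (K + 1)) :
    (t : ℝ) ≤ ((p : ℝ) - 1) * (padicValNat p t.factorial + (K + 1)) := by
  have h := sub_one_mul_padicValNat_factorial (p := p) t
  have hp : 1 < p := (Fact.out : p.Prime).one_lt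
  have hlen : (p.digits t).length ≤ K + 1 := (Nat.digits_length_le_iff hp t).2 ht
  have hsum : (p.digits t).sum ≤ (p - 1) * (K + 1) := by
    have h1 : (p.digits t).sum ≤ (p.digits t).length • (p - 1) := by
      refine List.sum_le_card_nsmul _ _ fun x hx => ?_
      have := Nat.digits_lt_base hp hx
      omega
    rw [smul_eq_mul, mul_comm] at h1
    exact h1.trans (Nat.mul_le_mul_left _ hlen)
  have h2 : t ≤ (p - 1) * padicValNat p t.factorial + (p - 1) * (K + 1) := by omega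
  have h3 : (t : ℝ) ≤ ((p - 1 : ℕ) : ℝ) * padicValNat p t.factorial + ((p - 1 : ℕ) : ℝ) * (K + 1) := by
    exact_mod_cast h2
  rw [Nat.cast_sub hp.le, Nat.cast_one] at h3
  linarith

/-- `λ = log p / (p - 1)` -/
def lam (p : ℕ) : ℝ := Real.log p / ((p : ℝ) - 1)

lemma lam_pos : 0 < lam p := by
  unfold lam
  have := one_lt_pR (p := p)
  exact div_pos (Real.log_pos this) (by linarith)

lemma lam_mul : lam p * ((p : ℝ) - 1) = Real.log p := by
  unfold lam
  have := one_lt_pR (p := p)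
  have h : (p : ℝ) - 1 ≠ 0 := by linarith
  field_simp

lemma logp_pos : 0 < Real.log p := Real.log_pos one_lt_pR

lemma Fc_le {t K : ℕ} (ht : t < p ^ (K + 1)) :
    ((Fc p t : ℚ) : ℝ) ≤ Real.exp (-(lam p * t) + (K + 1) * Real.log p) := by
  rw [Fc_real, Real.exp_le_exp]
  have h1 := mul_le_mul_of_nonneg_left (legendre' ht) (lam_pos (p := p)).le
  rw [← mul_assoc, lam_mul] at h1
  linarith

lemma Fc_inv_le (t : ℕ) : (((Fc p t)⁻¹ : ℚ) : ℝ) ≤ Real.exp (lam p * t) := by
  push_cast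
  rw [Fc_real, ← Real.exp_neg, Real.exp_le_exp]
  have h1 := mul_le_mul_of_nonneg_left (legendre (p := p) t) (lam_pos (p := p)).le
  rw [← mul_assoc, lam_mul] at h1
  linarith

lemma EE_val (u v : ℕ) (x : ℤ) : padicNorm p ((EE u v).eval (x : ℚ)) ≤ Fc p (v - u) := EE_norm u v x

lemma lin_val (a k : ℕ) (x : ℤ) : padicNorm p (((X + C (a : ℚ)) ^ k : ℚ[X]).eval (x : ℚ)) ≤ 1 := by
  rw [eval_pow, eval_add, eval_X, eval_C, norm_pow']
  have := padicNorm.of_int (p := p) (x + a)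
  push_cast at this
  exact pow_le_one₀ (padicNorm.nonneg _) this

/-- bound for the values of `bP n j` -/
def Vb (p n j : ℕ) : ℚ := Fc p (min j n) * Fc p ((j - n) / 3) ^ 3

lemma Vb_nonneg (n j : ℕ) : 0 ≤ Vb p n j := by
  unfold Vb
  have h1 := Fc_pos (p := p) (min j n)
  have h2 := Fc_pos (p := p) ((j - n) / 3)
  positivity

lemma bP_val (n i : ℕ) (x : ℤ) : padicNorm p ((bP n i).eval (x : ℚ)) ≤ Vb p n i := by
  unfold bP Vb
  rw [eval_mul, eval_mul, eval_pow, padicNorm.mul, padicNorm.mul, norm_pow']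
  have h1 := EE_val (p := p) 0 (min i n) x
  have h2 := EE_val (p := p) n (n + (i - n) / 3) x
  have h3 := lin_val (p := p) (n + (i - n) / 3) ((i - n) % 3) x
  rw [Nat.sub_zero] at h1
  rw [Nat.add_sub_cancel_left] at h2
  have h4 : padicNorm p ((EE n (n + (i - n) / 3)).eval (x : ℚ)) ^ 3 ≤ Fc p ((i - n) / 3) ^ 3 :=
    pow_le_pow_left₀ (padicNorm.nonneg _) h2 _
  have p1 := Fc_pos (p := p) (min i n)
  have p2 := Fc_pos (p := p) ((i - n) / 3)
  calc _ ≤ (Fc p (min i n) * Fc p ((i - n) / 3) ^ 3) * 1 :=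
        mul_le_mul (mul_le_mul h1 h4 (pow_nonneg (padicNorm.nonneg _) _) p1.le) h3 (padicNorm.nonneg _) (by positivity)
    _ = _ := mul_one _

lemma Vb_le {n j K : ℕ} (hn : n < p ^ (K + 1)) (hj : j < p ^ (K + 1)) :
    ((Vb p n j : ℚ) : ℝ) ≤ Real.exp (-(lam p * j) + 2 * lam p + 4 * ((K + 1) * Real.log p)) := by
  unfold Vb
  push_cast
  have h1 := Fc_le (p := p) (t := min j n) (K := K) (by omega)
  have h2 := Fc_le (p := p) (t := (j - n) / 3) (K := K) (by omega)
  have p1 := Fc_pos (p := p) (min j n)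
  have p2 := Fc_pos (p := p) ((j - n) / 3)
  have p2' : (0 : ℝ) ≤ ((Fc p ((j - n) / 3) : ℚ) : ℝ) := by exact_mod_cast p2.le
  have h3 := pow_le_pow_left₀ p2' h2 3
  rw [← Real.exp_nat_mul] at h3
  refine (mul_le_mul h1 h3 (by positivity) (Real.exp_pos _).le).trans ?_
  rw [← Real.exp_add, Real.exp_le_exp]
  have h4 : (j : ℝ) ≤ ((min j n : ℕ) : ℝ) + 3 * (((j - n) / 3 : ℕ) : ℝ) + 2 := by
    exact_mod_cast (by omega : j ≤ min j n + 3 * ((j - n) / 3) + 2)
  have h5 := mul_le_mul_of_nonneg_left h4 (lam_pos (p := p)).le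
  have h6 : ((3 : ℕ) : ℝ) = 3 := by norm_num
  rw [h6]
  linarith

/-- `κ = v_p(Q) log p` -/
def kap (p : ℕ) (Q : ℤ) : ℝ := (padicValInt p Q : ℝ) * Real.log p

lemma kap_nonneg (Q : ℤ) : 0 ≤ kap p Q := by
  unfold kap
  have := logp_pos (p := p)
  positivity

lemma norm_Q {Q : ℤ} (hQ : Q ≠ 0) : ((padicNorm p (Q : ℚ) : ℚ) : ℝ) = Real.exp (-kap p Q) := by
  have h0 : (Q : ℚ) ≠ 0 := by exact_mod_cast hQ
  rw [padicNorm.eq_zpow_of_nonzero h0, padicValRat.of_int]
  have hp : (0 : ℝ) < p := lt_trans one_pos one_lt_pR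
  unfold kap
  rw [← neg_mul, mul_comm, Real.exp_mul, Real.exp_log hp]
  push_cast
  rw [← Real.rpow_intCast]
  push_cast
  rfl

lemma exp_pow (x : ℝ) (N : ℕ) : Real.exp x ^ N = Real.exp (N * x) := (Real.exp_nat_mul x N).symm

/-- entries, `j ≤ i` -/
lemma entry_ge {Q : ℤ} (hQ : Q ≠ 0) (hQ1 : Q ≠ 1) (hQp : padicNorm p ((Q : ℚ) - 1) = 1) {n i j K : ℕ} (hn : 1 ≤ n)
    (hi : i ≤ 4 * n) (hij : j ≤ i) (hK : 13 * n < p ^ (K + 1)) (α β γ : ℤ) :
    ((padicNorm p (L Q n (5 * n) α β γ (bP n i * bP n j)) : ℚ) : ℝ) ≤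
      Real.exp (-(kap p Q * NN n i) + lam p * (3 * n - i - j + 5) + (8 * K + 6) * Real.log p) := by
  have hl := logp_pos (p := p)
  have hlam := lam_pos (p := p)
  have hjV := Vb_le (p := p) (n := n) (j := j) (K := K) (by omega) (by omega)
  have hV0 := Vb_nonneg (p := p) n j
  have hp0 : (0 : ℚ) < p := lt_of_lt_of_le one_pos one_le_pq
  have hKp : (((p : ℚ) ^ (2 * K) : ℚ) : ℝ) = Real.exp (2 * K * Real.log p) := by
    push_cast
    rw [show (2 * (K : ℝ) * Real.log p) = ((2 * K : ℕ) : ℝ) * Real.log p by push_cast; ring,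
      ← exp_pow, Real.exp_log (lt_trans one_pos one_lt_pR)]
  rw [L_eq_LT, An_eq]
  by_cases hc : i ≤ n
  · -- all nodes simple
    have hg0 : EE 0 n * (bP n i * bP n j) = EE 0 n * (EE 0 i * (bP n j)) := by
      have : bP n i = EE 0 i := by
        unfold bP
        have e1 : min i n = i := by omega
        have e2 : i - n = 0 := by omega
        rw [e1, e2]
        unfold EE
        simp
      rw [this]
    rw [hg0]
    have hd : (EE 0 n * (EE 0 i * (bP n j))).natDegree < p ^ (K + 1) := by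
      rw [Monic.natDegree_mul (EE_monic _ _) ((EE_monic _ _).mul (bP_monic _ _)),
        Monic.natDegree_mul (EE_monic _ _) (bP_monic _ _), EE_natDegree, EE_natDegree, bP_natDegree]
      omega
    have hv : ∀ x : ℤ, padicNorm p ((EE 0 n * (EE 0 i * (bP n j))).eval (x : ℚ)) ≤
        Fc p n * (Fc p i * Vb p n j) := by
      intro x
      rw [eval_mul, eval_mul, padicNorm.mul, padicNorm.mul]
      have a1 := EE_val (p := p) 0 n x
      have a2 := EE_val (p := p) 0 i x
      have a3 := bP_val (p := p) n j x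
      rw [Nat.sub_zero] at a1 a2
      exact mul_le_mul a1 (mul_le_mul a2 a3 (padicNorm.nonneg _) (Fc_pos _).le)
        (mul_nonneg (padicNorm.nonneg _) (padicNorm.nonneg _)) (Fc_pos _).le
    have hA0 : 0 ≤ Fc p n * (Fc p i * Vb p n j) := mul_nonneg (Fc_pos _).le (mul_nonneg (Fc_pos _).le hV0)
    have key := LT_norm (p := p) hQ hQ1 hQp (c := n) (b := 5 * n) (N := i) (K := K) hc (by omega) hd hA0 hv
      (fun u hu => by
        rw [eval_mul, EE_eval_neg (Nat.zero_le _) (by omega), zero_mul])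
      (fun u hu => by
        refine der_zero (EE_eval_neg (Nat.zero_le _) (by omega)) ?_
        rw [eval_mul, EE_eval_neg (Nat.zero_le _) hu, zero_mul]) α β γ (by omega)
    have keyR : ((padicNorm p (LT Q n (5 * n) α β γ (EE 0 n * (EE 0 i * bP n j))) : ℚ) : ℝ) ≤
        ((padicNorm p (Q : ℚ) ^ i * (Fc p n * (Fc p i * Vb p n j) * (Fc p (5 * n + 1 - n))⁻¹ * (p : ℚ) ^ (2 * K)) : ℚ) : ℝ) := by
      exact_mod_cast key
    refine keyR.trans ?_
    rw [Rat.cast_mul, Rat.cast_pow, norm_Q hQ, Rat.cast_mul, Rat.cast_mul, Rat.cast_mul, Rat.cast_mul, hKp]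
    have b1 := Fc_le (p := p) (t := n) (K := K) (by omega)
    have b2 := Fc_le (p := p) (t := i) (K := K) (by omega)
    have b3 := Fc_inv_le (p := p) (5 * n + 1 - n)
    have q1 : (0 : ℝ) ≤ ((Fc p i : ℚ) : ℝ) := by exact_mod_cast (Fc_pos (p := p) i).le
    have q2 : (0 : ℝ) ≤ ((Vb p n j : ℚ) : ℝ) := by exact_mod_cast hV0
    have q3 : (0 : ℝ) ≤ (((Fc p (5 * n + 1 - n))⁻¹ : ℚ) : ℝ) := by
      exact_mod_cast (inv_pos.2 (Fc_pos (p := p) (5 * n + 1 - n))).le
    have c1 := mul_le_mul b1 (mul_le_mul b2 hjV q2 (Real.exp_pos _).le) (mul_nonneg q1 q2) (Real.exp_pos _).le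
    have c2 := mul_le_mul c1 b3 q3 (by positivity)
    have c3 := mul_le_mul_of_nonneg_right c2 (Real.exp_pos (2 * K * Real.log p)).le
    have c4 := mul_le_mul_of_nonneg_left c3 (pow_nonneg (Real.exp_pos (-kap p Q)).le i)
    refine c4.trans ?_
    rw [exp_pow, ← Real.exp_add, ← Real.exp_add, ← Real.exp_add, ← Real.exp_add, ← Real.exp_add, Real.exp_le_exp]
    have hNN : NN n i = i := by unfold NN; omega
    rw [hNN]
    have e5 : ((5 * n + 1 - n : ℕ) : ℝ) = 4 * n + 1 := by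
      have : 5 * n + 1 - n = 4 * n + 1 := by omega
      rw [this]; push_cast; ring
    rw [e5]
    nlinarith [mul_pos hlam hlam]
  · push Not at hc
    obtain ⟨N, hN⟩ : ∃ N, N = n + (i - n) / 3 := ⟨_, rfl⟩
    have hg0 : EE 0 n * (bP n i * bP n j) =
        EE n N * (EE 0 N * (EE 0 N * ((X + C (N : ℚ)) ^ ((i - n) % 3) * bP n j))) := by
      have : bP n i = EE 0 n * EE n N ^ 3 * (X + C (N : ℚ)) ^ ((i - n) % 3) := by
        unfold bP
        have e1 : min i n = n := by omega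
        rw [e1, ← hN]
      rw [this]
      have e2 : EE 0 N = EE 0 n * EE n N := (EE_mul (Nat.zero_le _) (by omega)).symm
      rw [e2]
      ring
    rw [hg0, LT_cancel Q (show n ≤ N by omega) (show N ≤ 5 * n by omega)]
    have hlin : ((X + C (N : ℚ)) ^ ((i - n) % 3) : ℚ[X]).Monic := (monic_X_add_C _).pow _
    have hlin_d : ((X + C (N : ℚ)) ^ ((i - n) % 3) : ℚ[X]).natDegree = (i - n) % 3 := by
      rw [(monic_X_add_C _).natDegree_pow, natDegree_X_add_C, mul_one]
    have hd : (EE 0 N * (EE 0 N * ((X + C (N : ℚ)) ^ ((i - n) % 3) * bP n j))).natDegree < p ^ (K + 1) := by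
      rw [Monic.natDegree_mul (EE_monic _ _) ((EE_monic _ _).mul (hlin.mul (bP_monic _ _))),
        Monic.natDegree_mul (EE_monic _ _) (hlin.mul (bP_monic _ _)),
        Monic.natDegree_mul hlin (bP_monic _ _), EE_natDegree, bP_natDegree, hlin_d]
      omega
    have hv : ∀ x : ℤ, padicNorm p ((EE 0 N * (EE 0 N * ((X + C (N : ℚ)) ^ ((i - n) % 3) * bP n j))).eval (x : ℚ)) ≤
        Fc p N * (Fc p N * (1 * Vb p n j)) := by
      intro x
      rw [eval_mul, eval_mul, eval_mul, padicNorm.mul, padicNorm.mul, padicNorm.mul]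
      have a1 := EE_val (p := p) 0 N x
      have a3 := bP_val (p := p) n j x
      have a4 := lin_val (p := p) N ((i - n) % 3) x
      rw [Nat.sub_zero] at a1
      have p1 := padicNorm.nonneg (p := p) ((EE 0 N).eval (x : ℚ))
      have p2 := padicNorm.nonneg (p := p) ((bP n j).eval (x : ℚ))
      have p3 := padicNorm.nonneg (p := p) (((X + C (N : ℚ)) ^ ((i - n) % 3) : ℚ[X]).eval (x : ℚ))
      have p4 := (Fc_pos (p := p) N).le
      exact mul_le_mul a1 (mul_le_mul a1 (mul_le_mul a4 a3 p2 zero_le_one) (mul_nonneg p3 p2) p4)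
        (mul_nonneg p1 (mul_nonneg p3 p2)) p4
    have hA0 : 0 ≤ Fc p N * (Fc p N * (1 * Vb p n j)) :=
      mul_nonneg (Fc_pos _).le (mul_nonneg (Fc_pos _).le (by linarith))
    have key := LT_norm (p := p) hQ hQ1 hQp (c := N) (b := 5 * n) (N := N) (K := K) le_rfl (by omega) hd hA0 hv
      (fun u hu => by
        rw [eval_mul, EE_eval_neg (Nat.zero_le _) hu, zero_mul])
      (fun u hu => by
        refine der_zero (EE_eval_neg (Nat.zero_le _) hu) ?_
        rw [eval_mul, EE_eval_neg (Nat.zero_le _) hu, zero_mul]) α β γ (by omega)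
    have keyR : ((padicNorm p (LT Q N (5 * n) α β γ (EE 0 N * (EE 0 N * ((X + C (N : ℚ)) ^ ((i - n) % 3) * bP n j)))) : ℚ) : ℝ) ≤
        ((padicNorm p (Q : ℚ) ^ N * (Fc p N * (Fc p N * (1 * Vb p n j)) * (Fc p (5 * n + 1 - N))⁻¹ * (p : ℚ) ^ (2 * K)) : ℚ) : ℝ) := by
      exact_mod_cast key
    refine keyR.trans ?_
    rw [one_mul, Rat.cast_mul, Rat.cast_pow, norm_Q hQ, Rat.cast_mul, Rat.cast_mul, Rat.cast_mul, Rat.cast_mul, hKp]
    have b1 := Fc_le (p := p) (t := N) (K := K) (by omega)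
    have b3 := Fc_inv_le (p := p) (5 * n + 1 - N)
    have q1 : (0 : ℝ) ≤ ((Fc p N : ℚ) : ℝ) := by exact_mod_cast (Fc_pos (p := p) N).le
    have q2 : (0 : ℝ) ≤ ((Vb p n j : ℚ) : ℝ) := by exact_mod_cast hV0
    have q3 : (0 : ℝ) ≤ (((Fc p (5 * n + 1 - N))⁻¹ : ℚ) : ℝ) := by
      exact_mod_cast (inv_pos.2 (Fc_pos (p := p) (5 * n + 1 - N))).le
    have c1 := mul_le_mul b1 (mul_le_mul b1 hjV q2 (Real.exp_pos _).le) (mul_nonneg q1 q2) (Real.exp_pos _).le
    have c2 := mul_le_mul c1 b3 q3 (by positivity)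
    have c3 := mul_le_mul_of_nonneg_right c2 (Real.exp_pos (2 * K * Real.log p)).le
    have c4 := mul_le_mul_of_nonneg_left c3 (pow_nonneg (Real.exp_pos (-kap p Q)).le N)
    refine c4.trans ?_
    rw [exp_pow, ← Real.exp_add, ← Real.exp_add, ← Real.exp_add, ← Real.exp_add, ← Real.exp_add, Real.exp_le_exp]
    have hNN : NN n i = N := by unfold NN; omega
    rw [hNN]
    have e5 : ((5 * n + 1 - N : ℕ) : ℝ) = 5 * n + 1 - N := by
      rw [Nat.cast_sub (by omega)]; push_cast; ring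
    rw [e5]
    have h3N : 2 * (n : ℝ) + i ≤ 3 * N + 2 := by exact_mod_cast (by omega : 2 * n + i ≤ 3 * N + 2)
    have h4N := mul_le_mul_of_nonneg_left h3N hlam.le
    nlinarith

/-- all entries, in product form -/
lemma entry_all {Q : ℤ} (hQ : Q ≠ 0) (hQ1 : Q ≠ 1) (hQp : padicNorm p ((Q : ℚ) - 1) = 1) {n i j K : ℕ} (hn : 1 ≤ n)
    (hi : i ≤ 4 * n) (hj : j ≤ 4 * n) (hK : 13 * n < p ^ (K + 1)) (α β γ : ℤ) :
    ((padicNorm p (L Q n (5 * n) α β γ (bP n i * bP n j)) : ℚ) : ℝ) ≤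
      Real.exp (-(kap p Q * NN n i / 2) + lam p * (3 * n - i + 5) + (8 * K + 6) * Real.log p) *
        Real.exp (-(kap p Q * NN n j / 2) - lam p * j) := by
  rw [← Real.exp_add]
  have hk := kap_nonneg (p := p) Q
  rcases le_total j i with h | h
  · refine (entry_ge hQ hQ1 hQp hn hi h hK α β γ).trans (Real.exp_le_exp.2 ?_)
    have h1 : (NN n j : ℝ) ≤ NN n i := by exact_mod_cast NN_mono (n := n) h
    have h2 := mul_le_mul_of_nonneg_left h1 hk
    linarith
  · rw [mul_comm (bP n i) (bP n j)]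
    refine (entry_ge hQ hQ1 hQp hn hj h hK α β γ).trans (Real.exp_le_exp.2 ?_)
    have h1 : (NN n i : ℝ) ≤ NN n j := by exact_mod_cast NN_mono (n := n) h
    have h2 := mul_le_mul_of_nonneg_left h1 hk
    linarith

/-- Leibniz bound with real numbers -/
theorem leibnizR (N : ℕ) (M : Matrix (Fin N) (Fin N) ℚ) (r c : ℕ → ℝ)
    (hr : ∀ i, 0 ≤ r i) (hc : ∀ i, 0 ≤ c i) (h : ∀ i j : Fin N, ((padicNorm p (M i j) : ℚ) : ℝ) ≤ r i * c j) :
    ((padicNorm p M.det : ℚ) : ℝ) ≤ (∏ i ∈ Finset.range N, r i) * ∏ j ∈ Finset.range N, c j := by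
  classical
  rw [Matrix.det_apply]
  obtain ⟨σ0, _, hσ0⟩ := Finset.exists_max_image (Finset.univ : Finset (Equiv.Perm (Fin N)))
    (fun σ => ∏ i, padicNorm p (M (σ i) i)) ⟨1, Finset.mem_univ _⟩
  have hle : padicNorm p (∑ σ : Equiv.Perm (Fin N), Equiv.Perm.sign σ • ∏ i, M (σ i) i) ≤
      ∏ i, padicNorm p (M (σ0 i) i) := by
    refine padicNorm.sum_le' (fun σ _ => ?_) (Finset.prod_nonneg fun i _ => padicNorm.nonneg _)
    have hs : padicNorm p (Equiv.Perm.sign σ • ∏ i, M (σ i) i) = ∏ i, padicNorm p (M (σ i) i) := by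
      have h1 : padicNorm p (∏ i, M (σ i) i) = ∏ i, padicNorm p (M (σ i) i) := by
        refine Finset.induction_on (Finset.univ : Finset (Fin N)) ?_ ?_
        · simp
        · intro a s ha ih
          rw [Finset.prod_insert ha, Finset.prod_insert ha, padicNorm.mul, ih]
      rcases Int.units_eq_one_or (Equiv.Perm.sign σ) with hσ | hσ
      · rw [hσ, one_smul, h1]
      · rw [hσ, Units.neg_smul, one_smul, padicNorm.neg, h1]
    rw [hs]
    exact hσ0 σ (Finset.mem_univ _)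
  have hleR : ((padicNorm p (∑ σ : Equiv.Perm (Fin N), Equiv.Perm.sign σ • ∏ i, M (σ i) i) : ℚ) : ℝ) ≤
      ((∏ i, padicNorm p (M (σ0 i) i) : ℚ) : ℝ) := by exact_mod_cast hle
  refine hleR.trans ?_
  push_cast
  calc ∏ i, ((padicNorm p (M (σ0 i) i) : ℚ) : ℝ) ≤ ∏ i : Fin N, (r (σ0 i) * c i) :=
        Finset.prod_le_prod (fun i _ => by exact_mod_cast padicNorm.nonneg _) (fun i _ => h (σ0 i) i)
    _ = (∏ i : Fin N, r (σ0 i)) * ∏ i : Fin N, c i := Finset.prod_mul_distrib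
    _ = (∏ i : Fin N, r i) * ∏ i : Fin N, c i := by
        congr 1
        exact Equiv.prod_comp σ0 (fun i : Fin N => r i)
    _ = _ := by rw [Finset.prod_range, Finset.prod_range]

theorem div_aux {Q : ℤ} (hQ : Q ≠ 0) (hQ1 : Q ≠ 1) (hQp : padicNorm p ((Q : ℚ) - 1) = 1) {n m K : ℕ} (hn : 1 ≤ n)
    (hm1 : 4 * n - 1 ≤ m) (hm : m ≤ 4 * n + 1) (hK : 13 * n < p ^ (K + 1)) (α β γ : ℤ) :
    ((padicNorm p (DD Q n (5 * n) m α β γ) : ℚ) : ℝ) ≤
      Real.exp (-(4 * lam p + 5 * kap p Q) * (n : ℝ) ^ 2 + (5 * kap p Q + 40 * lam p) * n +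
        (4 * n + 1) * ((8 * K + 6) * Real.log p)) := by
  unfold DD
  rw [← P2_det (L Q n (5 * n) α β γ) m (bP n) (bP n) (fun i _ => ⟨bP_monic _ _, bP_natDegree _ _⟩)
    (fun i _ => ⟨bP_monic _ _, bP_natDegree _ _⟩)]
  refine (leibnizR (p := p) m _
    (fun i => Real.exp (-(kap p Q * NN n i / 2) + lam p * (3 * n - i + 5) + (8 * K + 6) * Real.log p))
    (fun j => Real.exp (-(kap p Q * NN n j / 2) - lam p * j)) (fun _ => (Real.exp_pos _).le)
    (fun _ => (Real.exp_pos _).le) (fun i j => ?_)).trans ?_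
  · rw [Matrix.of_apply]
    exact entry_all hQ hQ1 hQp hn (by omega) (by omega) hK α β γ
  · rw [← Real.exp_sum, ← Real.exp_sum, ← Real.exp_add, Real.exp_le_exp, ← Finset.sum_add_distrib]
    have h1 : ∀ i ∈ Finset.range m,
        (-(kap p Q * NN n i / 2) + lam p * (3 * n - i + 5) + (8 * K + 6) * Real.log p +
          (-(kap p Q * NN n i / 2) - lam p * i)) =
        -kap p Q * (NN n i : ℝ) + (lam p * (3 * n + 5) + (8 * K + 6) * Real.log p) - 2 * lam p * (i : ℝ) := by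
      intro i _
      ring
    rw [Finset.sum_congr rfl h1, Finset.sum_sub_distrib, Finset.sum_add_distrib, ← Finset.mul_sum,
      ← Finset.mul_sum, Finset.sum_const, Finset.card_range, nsmul_eq_mul]
    have h2 : ∑ i ∈ Finset.range m, (i : ℝ) = (m : ℝ) * (m - 1) / 2 := by
      have : ∀ M : ℕ, ∑ i ∈ Finset.range M, (i : ℝ) = (M : ℝ) * (M - 1) / 2 := by
        intro M
        induction M with
        | zero => simp
        | succ M ih => rw [Finset.sum_range_succ, ih]; push_cast; ring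
      exact this m
    have h3 : 5 * (n : ℝ) ^ 2 ≤ ∑ i ∈ Finset.range m, (NN n i : ℝ) + 5 * n := by
      exact_mod_cast sum_NN hn hm1
    rw [h2]
    have hk := kap_nonneg (p := p) Q
    have hlam := lam_pos (p := p)
    have hl := logp_pos (p := p)
    have hn' : (1 : ℝ) ≤ n := by exact_mod_cast hn
    have h4 := mul_le_mul_of_nonneg_left h3 hk
    have hmR : (m : ℝ) ≤ 4 * n + 1 := by exact_mod_cast hm
    have h5 : (m : ℝ) * ((8 * K + 6) * Real.log p) ≤ (4 * n + 1) * ((8 * K + 6) * Real.log p) :=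
      mul_le_mul_of_nonneg_right hmR (by positivity)
    have h6 : (m : ℝ) * (3 * n + 5) - 2 * ((m : ℝ) * (m - 1) / 2) ≤ -4 * (n : ℝ) ^ 2 + 40 * n := by
      have hcases : (m : ℝ) = 4 * n - 1 ∨ (m : ℝ) = 4 * n ∨ (m : ℝ) = 4 * n + 1 := by
        have : m = 4 * n - 1 ∨ m = 4 * n ∨ m = 4 * n + 1 := by omega
        rcases this with h | h | h
        · left; rw [h, Nat.cast_sub (by omega)]; push_cast; ring
        · right; left; rw [h]; push_cast; ring
        · right; right; rw [h]; push_cast; ring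
      rcases hcases with h | h | h <;> rw [h] <;> nlinarith
    have h7 := mul_le_mul_of_nonneg_left h6 hlam.le
    nlinarith

end

/-- **primes dividing `Q`** -/
theorem A_div : S_div := by
  intro Q hQ hQ1 p hp hpQ
  have : Fact p.Prime := ⟨hp⟩
  have hQp : padicNorm p ((Q : ℚ) - 1) = 1 := by
    have h1 : ¬ (p : ℤ) ∣ Q - 1 := by
      intro h
      have h2 := dvd_sub hpQ h
      have e : Q - (Q - 1) = 1 := by ring
      rw [e] at h2
      have := Int.eq_one_of_dvd_one (by positivity) h2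
      have h3 := hp.one_lt
      omega
    have h2 := (padicNorm.int_eq_one_iff (p := p) (Q - 1)).2 h1
    push_cast at h2
    exact h2
  have hl := logp_pos (p := p)
  have hlam := lam_pos (p := p)
  have hk := kap_nonneg (p := p) Q
  have hl2 : 0 < Real.log 2 := Real.log_pos (by norm_num)
  refine ⟨(5 * kap p Q + 40 * lam p + 30 * Real.log p) / Real.log 2 + 200, by positivity, ?_⟩
  intro n hn m hm1 hm2 α β γ hD
  set K := Nat.log p (13 * n) with hKdef
  have hK1 : 13 * n < p ^ (K + 1) := Nat.lt_pow_succ_log_self hp.one_lt _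
  have h := div_aux (p := p) hQ hQ1 hQp (by omega : 1 ≤ n) hm1 hm2 hK1 α β γ
  have hpos : 0 < ((padicNorm p (DD Q n (5 * n) m α β γ) : ℚ) : ℝ) := by
    have h1 : 0 < padicNorm p (DD Q n (5 * n) m α β γ) :=
      lt_of_le_of_ne (padicNorm.nonneg _) (Ne.symm (padicNorm.nonzero hD))
    exact_mod_cast h1
  have h1 := Real.log_le_log hpos h
  rw [Real.log_exp] at h1
  refine h1.trans ?_
  have hn2 : (2 : ℝ) ≤ n := by exact_mod_cast hn
  have hLn : Real.log 2 ≤ Real.log n := Real.log_le_log (by norm_num) hn2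
  have hKl : (K : ℝ) * Real.log p ≤ 5 * Real.log n := by
    have h6 : p ^ K ≤ 13 * n := Nat.pow_log_le_self p (by omega)
    have h7 : (p : ℝ) ^ K ≤ 13 * (n : ℝ) := by exact_mod_cast h6
    have h8 := Real.log_le_log (by have := hp.pos; positivity) h7
    rw [Real.log_pow, Real.log_mul (by norm_num) (by linarith)] at h8
    have h9 : Real.log 13 ≤ 4 * Real.log 2 := by
      rw [show (4 : ℝ) * Real.log 2 = Real.log (2 ^ 4) by rw [Real.log_pow]; norm_num]
      exact Real.log_le_log (by norm_num) (by norm_num)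
    linarith
  have e1 : -(4 / ((p : ℝ) - 1) + 5 * padicValInt p Q) * Real.log p * (n : ℝ) ^ 2 =
      -(4 * lam p + 5 * kap p Q) * (n : ℝ) ^ 2 := by
    unfold lam kap
    ring
  rw [e1]
  have h2 : (4 * (n : ℝ) + 1) * ((8 * K + 6) * Real.log p) ≤ 5 * n * (40 * Real.log n + 6 * Real.log p) := by
    have h3 : (8 * (K : ℝ) + 6) * Real.log p ≤ 40 * Real.log n + 6 * Real.log p := by nlinarith
    have h4 : 0 ≤ (8 * (K : ℝ) + 6) * Real.log p := by positivity
    nlinarith
  have h5 : (5 * kap p Q + 40 * lam p + 30 * Real.log p) * n ≤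
      (5 * kap p Q + 40 * lam p + 30 * Real.log p) / Real.log 2 * n * Real.log n := by
    have h6 : (5 * kap p Q + 40 * lam p + 30 * Real.log p) / Real.log 2 * n * Real.log n =
        (5 * kap p Q + 40 * lam p + 30 * Real.log p) * n * (Real.log n / Real.log 2) := by
      field_simp
    rw [h6]
    have h7 : 1 ≤ Real.log n / Real.log 2 := (one_le_div hl2).2 hLn
    have h8 : 0 ≤ (5 * kap p Q + 40 * lam p + 30 * Real.log p) * n := by positivity
    nlinarith
  nlinarith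

end Pool.Agent.TH50.DQ.Div
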