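import Pool.Agent.TH50.DQ.ArchDefs
import Pool.Agent.TH620.DL.Entry
import Pool.Agent.H422R2.LP.PTwoA

/-!
# The archimedean bound for large `|Q|`: one entry

The basis of polynomials has the roots `1, 1, 2, 2, 3, 3, …`.
-/

open Polynomial Filter Finset

open Pool.Agent.TH844.DL (wt)
open Pool.Agent.TH844.DL.Ent (wt_deriv wt_pos)

namespace Pool.Agent.TH50.DQ.Lrg

noncomputable section

/-- the basis -/
def bL (i : ℕ) : ℚ[X] := ∏ j ∈ range i, (X - C (((j / 2 : ℕ) : ℚ) + 1))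

/-- the basis, real -/
def bR (i : ℕ) : ℝ[X] := ∏ j ∈ range i, (X - C (((j / 2 : ℕ) : ℝ) + 1))

lemma bL_monic (i : ℕ) : (bL i).Monic := monic_prod_of_monic _ _ fun _ _ => monic_X_sub_C _

lemma bL_natDegree (i : ℕ) : (bL i).natDegree = i := by
  unfold bL
  rw [natDegree_prod_of_monic _ _ (fun _ _ => monic_X_sub_C _)]
  simp only [natDegree_X_sub_C, sum_const, card_range, smul_eq_mul, mul_one]

lemma bL_map (i : ℕ) : (bL i).map (algebraMap ℚ ℝ) = bR i := by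
  unfold bL bR
  rw [Polynomial.map_prod]
  refine prod_congr rfl fun j _ => ?_
  rw [Polynomial.map_sub, map_X, map_C]
  simp

/-- majorant of the values -/
def H (i s : ℕ) : ℝ := ∏ j ∈ range i, ((s : ℝ) + 1 - ((j / 2 : ℕ) : ℝ))

lemma H_succ (i s : ℕ) : H (i + 1) s = H i s * ((s : ℝ) + 1 - ((i / 2 : ℕ) : ℝ)) := prod_range_succ _ _

lemma bR_succ (i : ℕ) : bR (i + 1) = bR i * (X - C (((i / 2 : ℕ) : ℝ) + 1)) := prod_range_succ _ _

lemma bR_bound {i s : ℕ} (h : i / 2 ≤ s) : 1 ≤ H i s ∧ |(bR i).eval ((s : ℝ) + 1)| ≤ H i s ∧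
    |(derivative (bR i)).eval ((s : ℝ) + 1)| ≤ i * H i s := by
  induction i with
  | zero => simp [H, bR]
  | succ i ih =>
    obtain ⟨h1, h2, h3⟩ := ih (by omega)
    have hi : i / 2 ≤ s := by omega
    have hiR : ((i / 2 : ℕ) : ℝ) ≤ s := by exact_mod_cast hi
    obtain ⟨y, hy⟩ : ∃ y : ℝ, y = (s : ℝ) - ((i / 2 : ℕ) : ℝ) := ⟨_, rfl⟩
    have hy0 : 0 ≤ y := by rw [hy]; linarith
    have e1 : (s : ℝ) + 1 - ((i / 2 : ℕ) : ℝ) = y + 1 := by rw [hy]; ring
    have e2 : (s : ℝ) + 1 - (((i / 2 : ℕ) : ℝ) + 1) = y := by rw [hy]; ring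
    rw [H_succ, bR_succ, e1]
    refine ⟨by nlinarith, ?_, ?_⟩
    · rw [eval_mul, eval_sub, eval_X, eval_C, e2, abs_mul, abs_of_nonneg hy0]
      have := abs_nonneg ((bR i).eval ((s : ℝ) + 1))
      nlinarith
    · rw [derivative_mul, derivative_sub, derivative_X, derivative_C, sub_zero, mul_one, eval_add, eval_mul,
        eval_sub, eval_X, eval_C, e2]
      refine (abs_add_le _ _).trans ?_
      rw [abs_mul, abs_of_nonneg hy0]
      push_cast
      have h4 : |(derivative (bR i)).eval ((s : ℝ) + 1)| * y ≤ (i * H i s) * y := mul_le_mul_of_nonneg_right h3 hy0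
      have h5 : (0 : ℝ) ≤ i := Nat.cast_nonneg i
      nlinarith [mul_nonneg h5 (by linarith : 0 ≤ H i s), mul_nonneg hy0 (by linarith : 0 ≤ H i s)]

lemma sq_dvd {i s : ℕ} (h : s + 1 ≤ i / 2) : (X - C ((s : ℝ) + 1)) ^ 2 ∣ bR i := by
  have h1 : bR (2 * (s + 1)) ∣ bR i := by
    unfold bR
    exact prod_dvd_prod_of_subset _ _ _ (range_subset_range.2 (by omega))
  refine dvd_trans ?_ h1
  have h2 : 2 * (s + 1) = 2 * s + 1 + 1 := by ring
  rw [h2, bR_succ, bR_succ]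
  have h3 : (2 * s + 1) / 2 = s := by omega
  have h4 : (2 * s) / 2 = s := by omega
  rw [h3, h4, mul_assoc, ← sq]
  exact dvd_mul_left _ _

lemma vanish {F : ℝ[X]} {t : ℝ} (h : (X - C t) ^ 2 ∣ F) : F.eval t = 0 ∧ (derivative F).eval t = 0 := by
  obtain ⟨R, rfl⟩ := h
  constructor
  · simp
  · rw [derivative_mul, derivative_pow]
    simp

lemma H_even (k s : ℕ) (h : k ≤ s + 1) : H (2 * k) s = ((s + 1).descFactorial k : ℝ) ^ 2 := by
  induction k with
  | zero => simp [H]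
  | succ k ih =>
    have h2 : 2 * (k + 1) = 2 * k + 1 + 1 := by ring
    have h3 : (2 * k + 1) / 2 = k := by omega
    have h4 : (2 * k) / 2 = k := by omega
    rw [h2, H_succ, H_succ, h3, h4, ih (by omega), Nat.descFactorial_succ]
    have h5 : ((s + 1 - k : ℕ) : ℝ) = (s : ℝ) + 1 - k := by
      rw [Nat.cast_sub (by omega)]
      push_cast
      ring
    push_cast [h5]
    ring

lemma H_le {i s : ℕ} (h : i / 2 ≤ s) : H i s ≤ (s + 1) * ((i / 2).factorial : ℝ) ^ 2 * 4 ^ (s + 1) := by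
  obtain ⟨k, hk⟩ : ∃ k, k = i / 2 := ⟨_, rfl⟩
  have hev : H (2 * k) s ≤ ((i / 2).factorial : ℝ) ^ 2 * 4 ^ (s + 1) := by
    rw [H_even k s (by omega), ← hk, Nat.descFactorial_eq_factorial_mul_choose]
    push_cast
    have h1 : ((s + 1).choose k : ℝ) ≤ 2 ^ (s + 1) := by
      have := Nat.choose_le_two_pow (s + 1) k
      exact_mod_cast this
    have h2 : (4 : ℝ) ^ (s + 1) = (2 ^ (s + 1)) ^ 2 := by
      rw [← pow_mul, mul_comm (s + 1) 2, pow_mul]
      norm_num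
    rw [h2, ← mul_pow]
    exact pow_le_pow_left₀ (by positivity) (mul_le_mul_of_nonneg_left h1 (by positivity)) 2
  have hpos : 0 ≤ ((i / 2).factorial : ℝ) ^ 2 * 4 ^ (s + 1) := by positivity
  rcases Nat.even_or_odd' i with ⟨c, hc | hc⟩
  · have h1 : i = 2 * k := by omega
    have h2 : H i s = H (2 * k) s := by rw [← h1]
    rw [h2, mul_assoc]
    refine hev.trans ?_
    have : (0 : ℝ) ≤ s := Nat.cast_nonneg s
    nlinarith
  · have h1 : i = 2 * k + 1 := by omega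
    have h2 : H i s = H (2 * k + 1) s := by rw [← h1]
    have h3 : (2 * k) / 2 = k := by omega
    rw [h2, H_succ, h3, mul_assoc, mul_comm]
    have hk0 : (0 : ℝ) ≤ k := Nat.cast_nonneg k
    have hks : (k : ℝ) ≤ s := by
      have : k ≤ s := by omega
      exact_mod_cast this
    have hH0 : 0 ≤ H (2 * k) s := by rw [H_even k s (by omega)]; positivity
    refine mul_le_mul (by linarith) hev hH0 (by linarith)

/-- the weight -/
lemma wt_le {n : ℕ} {x : ℝ} (hx : 1 ≤ x) :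
    wt n (5 * n) x ≤ ((2 * n).factorial : ℝ) / ((5 * n).factorial : ℝ) := by
  have hstep : ∀ m : ℕ, ((2 * n + m).factorial : ℝ) ≤
      ((2 * n).factorial : ℝ) * ∏ k ∈ Icc (2 * n) (2 * n + m), (x + (k : ℝ)) := by
    intro m
    induction m with
    | zero =>
      rw [add_zero, Icc_self, prod_singleton]
      have h0 : (0 : ℝ) < ((2 * n).factorial : ℝ) := by positivity
      have h1 : 1 ≤ x + ((2 * n : ℕ) : ℝ) := by
        have : (0 : ℝ) ≤ ((2 * n : ℕ) : ℝ) := Nat.cast_nonneg _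
        linarith
      nlinarith
    | succ m ih =>
      rw [← add_assoc, prod_Icc_succ_top (by omega), Nat.factorial_succ, Nat.cast_mul, mul_comm, ← mul_assoc]
      refine mul_le_mul ih ?_ (by positivity) (mul_nonneg (by positivity) (prod_nonneg fun k _ => by positivity))
      linarith
  have h3 := hstep (3 * n)
  have h5 : 2 * n + 3 * n = 5 * n := by ring
  rw [h5] at h3
  have hsplit : ∏ k ∈ Icc n (5 * n), (x + (k : ℝ)) =
      (∏ k ∈ Ico n (2 * n), (x + (k : ℝ))) * ∏ k ∈ Icc (2 * n) (5 * n), (x + (k : ℝ)) := by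
    have e1 : Icc n (5 * n) = Ico n (5 * n + 1) := by ext k; simp only [mem_Icc, mem_Ico]; omega
    have e2 : Icc (2 * n) (5 * n) = Ico (2 * n) (5 * n + 1) := by ext k; simp only [mem_Icc, mem_Ico]; omega
    rw [e1, e2, prod_Ico_consecutive _ (by omega) (by omega)]
  have hN : ∏ i ∈ range n, (x + (i : ℝ)) ≤ ∏ k ∈ Ico n (2 * n), (x + (k : ℝ)) := by
    rw [prod_Ico_eq_prod_range]
    have e3 : 2 * n - n = n := by omega
    rw [e3]
    refine prod_le_prod (fun i _ => by positivity) fun i _ => ?_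
    push_cast
    have : (0 : ℝ) ≤ n := Nat.cast_nonneg n
    linarith
  unfold wt
  rw [hsplit]
  obtain ⟨N, hN'⟩ : ∃ N, N = ∏ i ∈ range n, (x + (i : ℝ)) := ⟨_, rfl⟩
  obtain ⟨A, hA⟩ : ∃ A, A = ∏ k ∈ Ico n (2 * n), (x + (k : ℝ)) := ⟨_, rfl⟩
  obtain ⟨B, hB⟩ : ∃ B, B = ∏ k ∈ Icc (2 * n) (5 * n), (x + (k : ℝ)) := ⟨_, rfl⟩
  rw [← hN', ← hA] at hN
  rw [← hB] at h3
  rw [← hN', ← hA, ← hB]
  have hA0 : 0 < A := by rw [hA]; exact prod_pos fun k _ => by positivity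
  have hB0 : 0 < B := by rw [hB]; exact prod_pos fun k _ => by positivity
  have hN0 : 0 < N := by rw [hN']; exact prod_pos fun k _ => by positivity
  have hf : (0 : ℝ) < ((5 * n).factorial : ℝ) := by positivity
  rw [div_le_div_iff₀ (mul_pos hA0 hB0) hf]
  calc N * ((5 * n).factorial : ℝ) ≤ A * (((2 * n).factorial : ℝ) * B) :=
        mul_le_mul hN h3 hf.le hA0.le
    _ = _ := by ring

/-- one term of the series, `k ≤ s` -/
lemma term_le {Q : ℤ} (hQ : Q ≠ 0) {n i j s : ℕ} (hn : 1 ≤ n) (hi : i ≤ 4 * n) (hj : j ≤ 4 * n) (his : i / 2 ≤ s)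
    (hjs : j / 2 ≤ s) (α β : ℝ) :
    |tmQ Q n (5 * n) α β (bR i * bR j) s| ≤ ((|α| + |β|) * (14 * n)) *
      (((2 * n).factorial : ℝ) / ((5 * n).factorial : ℝ)) *
      (((i / 2).factorial : ℝ) ^ 2 * ((j / 2).factorial : ℝ) ^ 2) * (((s : ℝ) + 1) ^ 2 * (16 / |(Q : ℝ)|) ^ (s + 1)) := by
  obtain ⟨a1, a2, a3⟩ := bR_bound his
  obtain ⟨b1, b2, b3⟩ := bR_bound hjs
  have hx1 : (1 : ℝ) ≤ (s : ℝ) + 1 := by
    have : (0 : ℝ) ≤ s := Nat.cast_nonneg s
    linarith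
  have hw := wt_pos n (5 * n) hx1
  have hw' := wt_deriv n (5 * n) (by omega) hx1
  have hwl := wt_le (n := n) hx1
  have hHi := H_le his
  have hHj := H_le hjs
  have hn1 : (1 : ℝ) ≤ n := by exact_mod_cast hn
  have hiR : (i : ℝ) ≤ 4 * n := by exact_mod_cast hi
  have hjR : (j : ℝ) ≤ 4 * n := by exact_mod_cast hj
  obtain ⟨x, hx⟩ : ∃ x : ℝ, x = (s : ℝ) + 1 := ⟨_, rfl⟩
  have hx0 : 0 < x := by rw [hx]; linarith
  have hQ0 : 0 < |(Q : ℝ)| := abs_pos.2 (by exact_mod_cast hQ)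
  have eF : |(bR i * bR j).eval x| ≤ H i s * H j s := by
    rw [eval_mul, abs_mul, hx]
    exact mul_le_mul a2 b2 (abs_nonneg _) (by linarith)
  have eF' : |(derivative (bR i * bR j)).eval x| ≤ (8 * n) * (H i s * H j s) := by
    rw [derivative_mul, eval_add, eval_mul, eval_mul, hx]
    refine (abs_add_le _ _).trans ?_
    rw [abs_mul, abs_mul]
    have c1 : |(derivative (bR i)).eval ((s : ℝ) + 1)| * |(bR j).eval ((s : ℝ) + 1)| ≤ (i * H i s) * H j s :=
      mul_le_mul a3 b2 (abs_nonneg _) (by positivity)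
    have c2 : |(bR i).eval ((s : ℝ) + 1)| * |(derivative (bR j)).eval ((s : ℝ) + 1)| ≤ H i s * (j * H j s) :=
      mul_le_mul a2 b3 (abs_nonneg _) (by linarith)
    have c3 : (i : ℝ) * (H i s * H j s) ≤ (4 * n) * (H i s * H j s) :=
      mul_le_mul_of_nonneg_right hiR (by nlinarith)
    have c4 : (j : ℝ) * (H i s * H j s) ≤ (4 * n) * (H i s * H j s) :=
      mul_le_mul_of_nonneg_right hjR (by nlinarith)
    nlinarith
  have hHH : 0 ≤ H i s * H j s := by nlinarith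
  unfold tmQ
  rw [← hx] at hw hw' hwl ⊢
  obtain ⟨w, hww⟩ : ∃ w, w = wt n (5 * n) x := ⟨_, rfl⟩
  obtain ⟨w', hww'⟩ : ∃ w', w' = deriv (wt n (5 * n)) x := ⟨_, rfl⟩
  rw [← hww] at hw hw' hwl ⊢
  rw [← hww'] at hw' ⊢
  rw [abs_mul, abs_pow, abs_div, abs_one]
  have hin : |(-α * ((bR i * bR j).eval x * w) + β * ((derivative (bR i * bR j)).eval x * w +
      (bR i * bR j).eval x * w'))| ≤ ((|α| + |β|) * (14 * n)) * (w * (H i s * H j s)) := by
    have d1 : |-α * ((bR i * bR j).eval x * w)| ≤ |α| * (w * (H i s * H j s)) := by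
      rw [abs_mul, abs_neg, abs_mul, abs_of_pos hw]
      refine mul_le_mul_of_nonneg_left ?_ (abs_nonneg _)
      rw [mul_comm]
      exact mul_le_mul_of_nonneg_left eF hw.le
    have d2 : |(derivative (bR i * bR j)).eval x * w + (bR i * bR j).eval x * w'| ≤
        (13 * n + 1) * (w * (H i s * H j s)) := by
      refine (abs_add_le _ _).trans ?_
      rw [abs_mul, abs_mul, abs_of_pos hw]
      have g1 : |(derivative (bR i * bR j)).eval x| * w ≤ ((8 * n) * (H i s * H j s)) * w :=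
        mul_le_mul_of_nonneg_right eF' hw.le
      have g2 : |(bR i * bR j).eval x| * |w'| ≤ (H i s * H j s) * ((((5 * n : ℕ) : ℝ) + 1) * w) :=
        mul_le_mul eF hw' (abs_nonneg _) hHH
      push_cast at g2
      nlinarith
    refine (abs_add_le _ _).trans ?_
    rw [abs_mul β]
    have hp : 0 ≤ w * (H i s * H j s) := mul_nonneg hw.le hHH
    have d3 := mul_le_mul_of_nonneg_left d2 (abs_nonneg β)
    have hα := abs_nonneg α
    have hβ := abs_nonneg β
    have d4 : |α| * (w * (H i s * H j s)) ≤ |α| * (14 * n) * (w * (H i s * H j s)) := by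
      refine mul_le_mul_of_nonneg_right ?_ hp
      nlinarith
    have d5 : |β| * ((13 * n + 1) * (w * (H i s * H j s))) ≤ |β| * (14 * n) * (w * (H i s * H j s)) := by
      rw [← mul_assoc]
      refine mul_le_mul_of_nonneg_right ?_ hp
      nlinarith
    linarith
  refine (mul_le_mul_of_nonneg_left hin (by positivity)).trans ?_
  have hHH2 : H i s * H j s ≤ (x ^ 2 * 16 ^ (s + 1)) *
      (((i / 2).factorial : ℝ) ^ 2 * ((j / 2).factorial : ℝ) ^ 2) := by
    rw [← hx] at hHi hHj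
    refine (mul_le_mul hHi hHj (by linarith) (by positivity)).trans (le_of_eq ?_)
    have : (16 : ℝ) ^ (s + 1) = 4 ^ (s + 1) * 4 ^ (s + 1) := by
      rw [← mul_pow]; norm_num
    rw [this]
    ring
  have hwH := mul_le_mul hwl hHH2 hHH (by positivity)
  have hA : 0 ≤ (1 / |(Q : ℝ)|) ^ (s + 1) * ((|α| + |β|) * (14 * n)) := by positivity
  have := mul_le_mul_of_nonneg_left hwH hA
  calc (1 / |(Q : ℝ)|) ^ (s + 1) * ((|α| + |β|) * (14 * n) * (w * (H i s * H j s)))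
      = (1 / |(Q : ℝ)|) ^ (s + 1) * ((|α| + |β|) * (14 * n)) * (w * (H i s * H j s)) := by ring
    _ ≤ _ := this
    _ = _ := by
      have e : (16 / |(Q : ℝ)|) ^ (s + 1) = (1 / |(Q : ℝ)|) ^ (s + 1) * 16 ^ (s + 1) := by
        rw [← mul_pow]
        congr 1
        ring
      rw [e]
      ring

/-- the entries -/
theorem entry_le {Q : ℤ} (hQ : 31 ≤ |Q|) {n i j : ℕ} (hn : 1 ≤ n) (hi : i ≤ 4 * n) (hj : j ≤ 4 * n) (α β : ℝ)
    {T : ℝ[X] →ₗ[ℝ] ℝ} (hT : ∀ f : ℝ[X], HasSum (tmQ Q n (5 * n) α β f) (T f)) :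
    |T (bR i * bR j)| ≤ ((|α| + |β|) * (14 * n)) * (((2 * n).factorial : ℝ) / ((5 * n).factorial : ℝ)) *
      (((i / 2).factorial : ℝ) ^ 2 * ((j / 2).factorial : ℝ) ^ 2) * (9 * (n : ℝ) ^ 2) *
      (16 / |(Q : ℝ)|) ^ (max (i / 2) (j / 2)) * ∑' v : ℕ, ((v : ℝ) + 1) ^ 2 * (16 / 31) ^ v := by
  have hQR : (31 : ℝ) ≤ |(Q : ℝ)| := by
    rw [← Int.cast_abs]
    exact_mod_cast hQ
  have hQ0 : Q ≠ 0 := by
    intro h; rw [h] at hQ; norm_num at hQ
  obtain ⟨k, hk⟩ : ∃ k, k = max (i / 2) (j / 2) := ⟨_, rfl⟩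
  rw [← hk]
  have hki : i / 2 ≤ k := by rw [hk]; exact le_max_left _ _
  have hkj : j / 2 ≤ k := by rw [hk]; exact le_max_right _ _
  have hkn : k ≤ 2 * n := by rw [hk]; exact max_le (by omega) (by omega)
  have hsum := hT (bR i * bR j)
  have hzero : ∀ s ∈ range k, tmQ Q n (5 * n) α β (bR i * bR j) s = 0 := by
    intro s hs
    rw [mem_range] at hs
    have hd : (X - C ((s : ℝ) + 1)) ^ 2 ∣ bR i * bR j := by
      rcases le_total (i / 2) (j / 2) with h | h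
      · have : s + 1 ≤ j / 2 := by rw [hk, max_eq_right h] at hs; omega
        exact (sq_dvd this).mul_left _
      · have : s + 1 ≤ i / 2 := by rw [hk, max_eq_left h] at hs; omega
        exact (sq_dvd this).mul_right _
    obtain ⟨v1, v2⟩ := vanish hd
    unfold tmQ
    rw [v1, v2]
    ring
  have h1 := (hasSum_nat_add_iff' k).2 hsum
  rw [sum_eq_zero hzero, sub_zero] at h1
  have hsm : Summable fun v : ℕ => ((v : ℝ) + 1) ^ 2 * (16 / 31 : ℝ) ^ v := by
    have h2 := summable_pow_mul_geometric_of_norm_lt_one (R := ℝ) 2 (r := 16 / 31) (by norm_num)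
    have h3 := summable_pow_mul_geometric_of_norm_lt_one (R := ℝ) 1 (r := 16 / 31) (by norm_num)
    have h4 := summable_pow_mul_geometric_of_norm_lt_one (R := ℝ) 0 (r := 16 / 31) (by norm_num)
    have h5 := (h2.add (h3.mul_left 2)).add h4
    refine h5.congr fun v => ?_
    ring
  obtain ⟨A, hA⟩ : ∃ A, A = ((|α| + |β|) * (14 * n)) * (((2 * n).factorial : ℝ) / ((5 * n).factorial : ℝ)) *
      (((i / 2).factorial : ℝ) ^ 2 * ((j / 2).factorial : ℝ) ^ 2) := ⟨_, rfl⟩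
  have hA0 : 0 ≤ A := by rw [hA]; positivity
  rw [← hA]
  obtain ⟨ρ, hρ⟩ : ∃ ρ, ρ = 16 / |(Q : ℝ)| := ⟨_, rfl⟩
  have hρ0 : 0 < ρ := by rw [hρ]; positivity
  have hρ1 : ρ ≤ 16 / 31 := by
    rw [hρ]
    exact div_le_div_of_nonneg_left (by norm_num) (by norm_num) hQR
  have hterm : ∀ v : ℕ, ‖tmQ Q n (5 * n) α β (bR i * bR j) (v + k)‖ ≤
      (A * (9 * (n : ℝ) ^ 2) * ρ ^ k) * (((v : ℝ) + 1) ^ 2 * (16 / 31 : ℝ) ^ v) := by
    intro v
    rw [Real.norm_eq_abs]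
    have h2 := term_le hQ0 hn hi hj (s := v + k) (by omega) (by omega) α β
    rw [← hA, ← hρ] at h2
    refine h2.trans ?_
    have h3 : (((v + k : ℕ) : ℝ) + 1) ^ 2 ≤ (9 * (n : ℝ) ^ 2) * ((v : ℝ) + 1) ^ 2 := by
      have e1 : ((v + k : ℕ) : ℝ) + 1 ≤ (3 * n) * ((v : ℝ) + 1) := by
        have h4 : (k : ℝ) ≤ 2 * n := by exact_mod_cast hkn
        have h5 : (1 : ℝ) ≤ n := by exact_mod_cast hn
        have h6 : (0 : ℝ) ≤ v := Nat.cast_nonneg v
        push_cast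
        nlinarith
      calc (((v + k : ℕ) : ℝ) + 1) ^ 2 ≤ ((3 * n) * ((v : ℝ) + 1)) ^ 2 := pow_le_pow_left₀ (by positivity) e1 2
        _ = _ := by ring
    have h4 : ρ ^ (v + k + 1) ≤ ρ ^ k * (16 / 31 : ℝ) ^ v := by
      rw [pow_succ, pow_add]
      have e1 : ρ ^ v ≤ (16 / 31 : ℝ) ^ v := pow_le_pow_left₀ hρ0.le hρ1 v
      have e2 : 0 < ρ ^ k := pow_pos hρ0 k
      have e3 : 0 < ρ ^ v := pow_pos hρ0 v
      have e4 : ρ ≤ 1 := by linarith [hρ1, (by norm_num : (16 / 31 : ℝ) ≤ 1)]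
      calc ρ ^ v * ρ ^ k * ρ ≤ ρ ^ v * ρ ^ k * 1 := mul_le_mul_of_nonneg_left e4 (by positivity)
        _ = ρ ^ k * ρ ^ v := by ring
        _ ≤ _ := mul_le_mul_of_nonneg_left e1 e2.le
    have h5 := mul_le_mul h3 h4 (by positivity) (by positivity)
    have h6 := mul_le_mul_of_nonneg_left h5 hA0
    refine h6.trans (le_of_eq ?_)
    ring
  have hb := tsum_of_norm_bounded ((hsm.hasSum).mul_left (A * (9 * (n : ℝ) ^ 2) * ρ ^ k)) hterm
  rw [h1.tsum_eq, Real.norm_eq_abs] at hb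
  rw [← hρ]
  exact hb

end

end Pool.Agent.TH50.DQ.Lrg
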