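import Pool.Agent.TH50.DQ.LargeA
import Pool.Agent.TH643.DQ.Fac
import Pool.Agent.TH986.DQ.Bridge

/-!
# The archimedean bound for large `|Q|`: the determinant
-/

open Polynomial Filter Finset

namespace Pool.Agent.TH50.DQ.Lrg

noncomputable section

/-- Leibniz bound -/
theorem leib (N : ℕ) (M : Matrix (Fin N) (Fin N) ℝ) (r c : ℕ → ℝ)
    (h : ∀ i j : Fin N, |M i j| ≤ r i * c j) :
    |M.det| ≤ N.factorial * ((∏ i ∈ range N, r i) * ∏ j ∈ range N, c j) := by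
  rw [Matrix.det_apply]
  refine (abs_sum_le_sum_abs _ _).trans ?_
  have h1 : ∀ σ ∈ (univ : Finset (Equiv.Perm (Fin N))), |Equiv.Perm.sign σ • ∏ i, M (σ i) i| ≤
      (∏ i ∈ range N, r i) * ∏ j ∈ range N, c j := by
    intro σ _
    have h2 : |Equiv.Perm.sign σ • ∏ i, M (σ i) i| = ∏ i, |M (σ i) i| := by
      rcases Int.units_eq_one_or (Equiv.Perm.sign σ) with hσ | hσ
      · rw [hσ, one_smul, abs_prod]
      · rw [hσ, Units.neg_smul, one_smul, abs_neg, abs_prod]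
    rw [h2]
    calc ∏ i, |M (σ i) i| ≤ ∏ i : Fin N, (r (σ i) * c i) :=
          prod_le_prod (fun i _ => abs_nonneg _) (fun i _ => h (σ i) i)
      _ = (∏ i : Fin N, r (σ i)) * ∏ i : Fin N, c i := prod_mul_distrib
      _ = (∏ i : Fin N, r i) * ∏ i : Fin N, c i := by
          congr 1
          exact Equiv.prod_comp σ (fun i : Fin N => r i)
      _ = _ := by rw [prod_range, prod_range]
  refine (sum_le_sum h1).trans (le_of_eq ?_)
  rw [sum_const, card_univ, Fintype.card_perm, Fintype.card_fin, nsmul_eq_mul]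

lemma T_map {Q : ℤ} {a b : ℕ} {α β γ : ℚ} {T : ℝ[X] →ₗ[ℝ] ℝ}
    (h : ∀ i : ℕ, ((L Q a b α β γ (X ^ i) : ℚ) : ℝ) = T (X ^ i)) (f : ℚ[X]) :
    ((L Q a b α β γ f : ℚ) : ℝ) = T (f.map (algebraMap ℚ ℝ)) := by
  induction f using Polynomial.induction_on' with
  | add p q hp hq =>
    rw [map_add, Polynomial.map_add, map_add, ← hp, ← hq]
    push_cast
    ring
  | monomial n c =>
    rw [Polynomial.map_monomial, ← smul_X_eq_monomial, ← smul_X_eq_monomial, map_smul, map_smul, ← h n]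
    simp

/-- the determinant in the new basis -/
lemma DD_real {Q : ℤ} {a b : ℕ} {α β γ : ℚ} {T : ℝ[X] →ₗ[ℝ] ℝ}
    (h : ∀ i : ℕ, ((L Q a b α β γ (X ^ i) : ℚ) : ℝ) = T (X ^ i)) (m : ℕ) :
    ((DD Q a b m α β γ : ℚ) : ℝ) = (Matrix.of fun i j : Fin m => T (bR i * bR j)).det := by
  unfold DD
  rw [← Pool.Agent.LP.T2.P2_det (L Q a b α β γ) m bL bL (fun i _ => ⟨bL_monic _, bL_natDegree _⟩)
    (fun i _ => ⟨bL_monic _, bL_natDegree _⟩)]
  have e0 : ∀ M : Matrix (Fin m) (Fin m) ℚ, ((M.det : ℚ) : ℝ) = ((algebraMap ℚ ℝ).mapMatrix M).det := by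
    intro M
    rw [← RingHom.map_det]
    rfl
  rw [e0]
  congr 1
  ext i j
  simp only [RingHom.mapMatrix_apply, Matrix.map_apply, Matrix.of_apply]
  have h1 := T_map h (bL i * bL j)
  rw [Polynomial.map_mul, bL_map, bL_map] at h1
  exact h1

lemma sum_half {n m : ℕ} (hn : 1 ≤ n) (hm : 4 * n - 1 ≤ m) :
    4 * (n : ℝ) ^ 2 - 6 * n ≤ ∑ i ∈ range m, ((i / 2 : ℕ) : ℝ) := by
  have h1 : ∀ N : ℕ, ∑ i ∈ range (2 * N), ((i / 2 : ℕ) : ℝ) = (N : ℝ) * (N - 1) := by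
    intro N
    induction N with
    | zero => simp
    | succ N ih =>
      have e : 2 * (N + 1) = 2 * N + 1 + 1 := by ring
      rw [e, sum_range_succ, sum_range_succ, ih]
      have e1 : (2 * N + 1) / 2 = N := by omega
      have e2 : 2 * N / 2 = N := by omega
      rw [e1, e2]
      push_cast
      ring
  have h2 : ∑ i ∈ range (2 * (2 * n - 1)), ((i / 2 : ℕ) : ℝ) ≤ ∑ i ∈ range m, ((i / 2 : ℕ) : ℝ) :=
    sum_le_sum_of_subset_of_nonneg (range_subset_range.2 (by omega)) fun i _ _ => Nat.cast_nonneg _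
  rw [h1] at h2
  have h3 : ((2 * n - 1 : ℕ) : ℝ) = 2 * n - 1 := by
    rw [Nat.cast_sub (by omega)]
    push_cast
    ring
  rw [h3] at h2
  nlinarith

lemma nlogn (K ε : ℝ) (hε : 0 < ε) : ∀ᶠ n : ℕ in atTop, K * (n * Real.log n) ≤ ε * (n : ℝ) ^ 2 := by
  have h := (Real.isLittleO_log_id_atTop).comp_tendsto (tendsto_natCast_atTop_atTop (R := ℝ))
  have h1 := h.def (show 0 < ε / (|K| + 1) by positivity)
  filter_upwards [h1, eventually_ge_atTop 1] with n h2 h3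
  have hn : (1 : ℝ) ≤ n := by exact_mod_cast h3
  simp only [Function.comp_apply, id, Real.norm_eq_abs] at h2
  rw [abs_of_nonneg (Real.log_nonneg hn), abs_of_nonneg (by linarith : (0 : ℝ) ≤ n)] at h2
  have hl := Real.log_nonneg hn
  have h4 : K * (n * Real.log n) ≤ (|K| + 1) * (n * Real.log n) :=
    mul_le_mul_of_nonneg_right (by linarith [le_abs_self K]) (by positivity)
  have h5 : (|K| + 1) * (n * Real.log n) ≤ (|K| + 1) * (n * (ε / (|K| + 1) * n)) := by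
    apply mul_le_mul_of_nonneg_left _ (by positivity)
    exact mul_le_mul_of_nonneg_left h2 (by linarith)
  have h6 : (|K| + 1) * (n * (ε / (|K| + 1) * n)) = ε * (n : ℝ) ^ 2 := by
    field_simp
  linarith

/-- **the archimedean bound for `|Q| ≥ 31`** -/
theorem archL {Q : ℤ} (hQ : 31 ≤ |Q|) {α β γ : ℤ} (hr : (γ : ℝ) + α * li Q 1 + β * li Q 2 = 0) :
    ∃ c : ℝ, 0 < c ∧ ∀ᶠ n : ℕ in atTop, ∀ m : ℕ, 4 * n - 1 ≤ m → m ≤ 4 * n + 1 →
      |((DD Q n (5 * n) m α β γ : ℚ) : ℝ)| ≤ c ^ m *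
        Real.exp (4 * (n : ℝ) ^ 2 * Real.log n - (4 * Real.log |(Q : ℝ)| + 16.3) * (n : ℝ) ^ 2) := by
  have hQR : (31 : ℝ) ≤ |(Q : ℝ)| := by
    rw [← Int.cast_abs]
    exact_mod_cast hQ
  obtain ⟨S0, hS0⟩ : ∃ S0 : ℝ, S0 = ∑' v : ℕ, ((v : ℝ) + 1) ^ 2 * (16 / 31) ^ v := ⟨_, rfl⟩
  have hS0' : 0 ≤ S0 := by rw [hS0]; exact tsum_nonneg fun v => by positivity
  obtain ⟨C, hC, hfac⟩ := A_fac
  obtain ⟨c, hc⟩ : ∃ c : ℝ, c = (|(α : ℝ)| + |(β : ℝ)| + 1) * 126 * (S0 + 1) := ⟨_, rfl⟩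
  have hc0 : 0 < c := by rw [hc]; positivity
  obtain ⟨ℓ, hℓ⟩ : ∃ ℓ : ℝ, ℓ = Real.log |(Q : ℝ)| := ⟨_, rfl⟩
  have hl16 : Real.log 16 ≤ 2.77258873 := by
    have h2 := Real.log_two_lt_d9
    have : (16 : ℝ) = 2 ^ 4 := by norm_num
    rw [this, Real.log_pow]
    push_cast
    linarith
  have hl31 : Real.log 16 ≤ ℓ := by
    rw [hℓ]
    exact Real.log_le_log (by norm_num) (by linarith)
  have hℓ0 : 0 ≤ ℓ := le_trans (Real.log_nonneg (by norm_num)) hl31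
  have hρ : Real.log (16 / |(Q : ℝ)|) = Real.log 16 - ℓ := by
    rw [hℓ, Real.log_div (by norm_num) (by positivity)]
  refine ⟨c, hc0, ?_⟩
  rw [← hℓ]
  filter_upwards [nlogn (30 + C + 6 * ℓ) 0.1 (by norm_num), eventually_ge_atTop 5] with n hsmall hn5 m hm1 hm2
  have hn1 : 1 ≤ n := by omega
  obtain ⟨T, hTL, hTs⟩ := A_bridge Q (by omega) n (5 * n) hn1 (by omega) α β γ (by push_cast; exact hr)
  rw [DD_real hTL]
  have hnR : (5 : ℝ) ≤ n := by exact_mod_cast hn5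
  have hn0 : (0 : ℝ) < n := by linarith
  have hL1 : 1 ≤ Real.log n := by
    rw [Real.le_log_iff_exp_le hn0]
    linarith [Real.exp_one_lt_d9]
  obtain ⟨LW, hLW⟩ : ∃ LW : ℝ, LW = Real.log ((2 * n).factorial : ℝ) - Real.log ((5 * n).factorial : ℝ) := ⟨_, rfl⟩
  have hW : ((2 * n).factorial : ℝ) / ((5 * n).factorial : ℝ) = Real.exp LW := by
    rw [hLW, Real.exp_sub, Real.exp_log (by positivity), Real.exp_log (by positivity)]
  obtain ⟨lf, hlf⟩ : ∃ lf : ℕ → ℝ, lf = fun i => Real.log ((i / 2).factorial : ℝ) := ⟨_, rfl⟩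
  have hlf' : ∀ i, ((i / 2).factorial : ℝ) ^ 2 = Real.exp (2 * lf i) := by
    intro i
    rw [hlf]
    have : (2 : ℝ) * Real.log ((i / 2).factorial : ℝ) = ((2 : ℕ) : ℝ) * Real.log ((i / 2).factorial : ℝ) := by norm_num
    simp only
    rw [this, Real.exp_nat_mul, Real.exp_log (by positivity)]
  have h3n : (n : ℝ) ^ 3 = Real.exp (3 * Real.log n) := by
    have : (3 : ℝ) * Real.log n = ((3 : ℕ) : ℝ) * Real.log n := by norm_num
    rw [this, Real.exp_nat_mul, Real.exp_log hn0]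
  have hentry : ∀ i j : Fin m, |(Matrix.of fun i j : Fin m => T (bR i * bR j)) i j| ≤
      (c * Real.exp (3 * Real.log n + LW + 2 * lf i + (((i : ℕ) / 2 : ℕ) : ℝ) * ((Real.log 16 - ℓ) / 2))) *
      Real.exp (2 * lf j + (((j : ℕ) / 2 : ℕ) : ℝ) * ((Real.log 16 - ℓ) / 2)) := by
    intro i j
    rw [Matrix.of_apply]
    have hi : (i : ℕ) ≤ 4 * n := by omega
    have hj : (j : ℕ) ≤ 4 * n := by omega
    have h1 := entry_le hQ hn1 hi hj ((α : ℚ) : ℝ) ((β : ℚ) : ℝ) hTs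
    rw [← hS0, hW, hlf', hlf'] at h1
    refine h1.trans ?_
    have hmax : (16 / |(Q : ℝ)|) ^ (max ((i : ℕ) / 2) ((j : ℕ) / 2)) ≤
        Real.exp ((((i : ℕ) / 2 : ℕ) : ℝ) * ((Real.log 16 - ℓ) / 2) +
          (((j : ℕ) / 2 : ℕ) : ℝ) * ((Real.log 16 - ℓ) / 2)) := by
      have h16 : 0 < 16 / |(Q : ℝ)| := by positivity
      rw [← Real.exp_log h16, ← Real.exp_nat_mul, hρ, Real.exp_le_exp]
      have h2 : ((((i : ℕ) / 2 : ℕ) : ℝ) + (((j : ℕ) / 2 : ℕ) : ℝ)) ≤ 2 * ((max ((i : ℕ) / 2) ((j : ℕ) / 2) : ℕ) : ℝ) := by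
        have := le_max_left ((i : ℕ) / 2) ((j : ℕ) / 2)
        have := le_max_right ((i : ℕ) / 2) ((j : ℕ) / 2)
        have : (i : ℕ) / 2 + (j : ℕ) / 2 ≤ 2 * max ((i : ℕ) / 2) ((j : ℕ) / 2) := by omega
        exact_mod_cast this
      nlinarith
    have hpoly : ((|((α : ℚ) : ℝ)| + |((β : ℚ) : ℝ)|) * (14 * n)) * (9 * (n : ℝ) ^ 2) * S0 ≤
        c * Real.exp (3 * Real.log n) := by
      rw [← h3n, hc]
      push_cast
      have ha := abs_nonneg (α : ℝ)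
      have hb := abs_nonneg (β : ℝ)
      have h3 : (|(α : ℝ)| + |(β : ℝ)|) * S0 ≤ (|(α : ℝ)| + |(β : ℝ)| + 1) * (S0 + 1) := by nlinarith
      have h4 : 0 ≤ 126 * (n : ℝ) ^ 3 := by positivity
      have h5 := mul_le_mul_of_nonneg_left h3 h4
      calc _ = 126 * (n : ℝ) ^ 3 * ((|(α : ℝ)| + |(β : ℝ)|) * S0) := by ring
        _ ≤ _ := h5
        _ = _ := by ring
    have hA0 : 0 ≤ ((|((α : ℚ) : ℝ)| + |((β : ℚ) : ℝ)|) * (14 * n)) * (9 * (n : ℝ) ^ 2) * S0 := by positivity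
    have h6 := mul_le_mul hpoly hmax (by positivity) (by positivity)
    have h7 := mul_le_mul_of_nonneg_left h6 (Real.exp_pos (LW + 2 * lf i + 2 * lf j)).le
    have e1 : Real.exp (LW + 2 * lf i + 2 * lf j) = Real.exp LW * (Real.exp (2 * lf i) * Real.exp (2 * lf j)) := by
      rw [← Real.exp_add, ← Real.exp_add]; congr 1; ring
    calc _ = Real.exp (LW + 2 * lf i + 2 * lf j) *
          (((|((α : ℚ) : ℝ)| + |((β : ℚ) : ℝ)|) * (14 * n)) * (9 * (n : ℝ) ^ 2) * S0 *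
            (16 / |(Q : ℝ)|) ^ (max ((i : ℕ) / 2) ((j : ℕ) / 2))) := by rw [e1]; ring
      _ ≤ _ := h7
      _ = c * (Real.exp (LW + 2 * lf i + 2 * lf j) * (Real.exp (3 * Real.log n) *
          Real.exp ((((i : ℕ) / 2 : ℕ) : ℝ) * ((Real.log 16 - ℓ) / 2) +
            (((j : ℕ) / 2 : ℕ) : ℝ) * ((Real.log 16 - ℓ) / 2)))) := by ring
      _ = _ := by
        rw [← Real.exp_add, ← Real.exp_add, mul_assoc, ← Real.exp_add]
        congr 2
        ring
  have hdet := leib m _ (fun i => c * Real.exp (3 * Real.log n + LW + 2 * lf i +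
    ((i / 2 : ℕ) : ℝ) * ((Real.log 16 - ℓ) / 2))) (fun j => Real.exp (2 * lf j + ((j / 2 : ℕ) : ℝ) *
    ((Real.log 16 - ℓ) / 2))) hentry
  refine hdet.trans ?_
  rw [prod_mul_distrib, prod_const, card_range, ← Real.exp_sum, ← Real.exp_sum]
  have hmn : (m : ℝ) ≤ 4 * n + 1 := by exact_mod_cast hm2
  have hm0 : (0 : ℝ) < m := by
    have : 0 < m := by omega
    exact_mod_cast this
  have hmf : (m.factorial : ℝ) ≤ Real.exp (m * Real.log m) := by
    rw [mul_comm, Real.exp_mul, Real.exp_log hm0, Real.rpow_natCast]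
    exact_mod_cast Nat.factorial_le_pow m
  have hcm : 0 < c ^ m := pow_pos hc0 m
  rw [mul_assoc (c ^ m), ← Real.exp_add]
  obtain ⟨E, hE⟩ : ∃ E : ℝ, E = ∑ i ∈ range m, (3 * Real.log n + LW + 2 * lf i +
    ((i / 2 : ℕ) : ℝ) * ((Real.log 16 - ℓ) / 2)) + ∑ j ∈ range m, (2 * lf j + ((j / 2 : ℕ) : ℝ) *
    ((Real.log 16 - ℓ) / 2)) := ⟨_, rfl⟩
  rw [← hE]
  have hEval : E = m * (3 * Real.log n) + (∑ i ∈ range m, 4 * lf i + m * LW) +
      (Real.log 16 - ℓ) * ∑ i ∈ range m, ((i / 2 : ℕ) : ℝ) := by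
    rw [hE, ← sum_add_distrib]
    have : ∀ i ∈ range m, (3 * Real.log n + LW + 2 * lf i + ((i / 2 : ℕ) : ℝ) * ((Real.log 16 - ℓ) / 2) +
        (2 * lf i + ((i / 2 : ℕ) : ℝ) * ((Real.log 16 - ℓ) / 2))) =
        (3 * Real.log n + LW) + 4 * lf i + (Real.log 16 - ℓ) * ((i / 2 : ℕ) : ℝ) := by
      intro i _
      ring
    have e3 : ∑ i ∈ range m, (Real.log 16 - ℓ) * ((i / 2 : ℕ) : ℝ) = (Real.log 16 - ℓ) *
        ∑ i ∈ range m, ((i / 2 : ℕ) : ℝ) := (mul_sum _ _ _).symm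
    rw [sum_congr rfl this, sum_add_distrib, sum_add_distrib, sum_const, card_range, nsmul_eq_mul, e3]
    ring
  have hf := hfac n (by omega) m hm1 hm2
  have hf' : ∑ i ∈ range m, 4 * lf i + m * LW ≤ 4 * (n : ℝ) ^ 2 * Real.log n - 27.5 * (n : ℝ) ^ 2 +
      C * n * Real.log n := by
    rw [hlf, hLW]
    exact hf
  have hs := mul_le_mul_of_nonpos_left (sum_half hn1 hm1) (by linarith : Real.log 16 - ℓ ≤ 0)
  have hlogm : Real.log m ≤ 2 * Real.log n := by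
    rw [two_mul, ← Real.log_mul hn0.ne' hn0.ne']
    apply Real.log_le_log hm0
    nlinarith
  have b1 : (m : ℝ) * Real.log m ≤ 10 * (n * Real.log n) := by
    have h9 : (m : ℝ) ≤ 5 * n := by linarith
    calc (m : ℝ) * Real.log m ≤ m * (2 * Real.log n) := mul_le_mul_of_nonneg_left hlogm hm0.le
      _ ≤ (5 * n) * (2 * Real.log n) := mul_le_mul_of_nonneg_right h9 (by linarith)
      _ = 10 * (n * Real.log n) := by ring
  have b2 : (m : ℝ) * (3 * Real.log n) ≤ 15 * (n * Real.log n) := by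
    have h9 : (m : ℝ) ≤ 5 * n := by linarith
    calc (m : ℝ) * (3 * Real.log n) ≤ (5 * n) * (3 * Real.log n) := mul_le_mul_of_nonneg_right h9 (by linarith)
      _ = 15 * (n * Real.log n) := by ring
  have b3 : (ℓ - Real.log 16) * (6 * n) ≤ 6 * ℓ * (n * Real.log n) := by
    have h16 : 0 ≤ Real.log 16 := Real.log_nonneg (by norm_num)
    have e1 : (ℓ - Real.log 16) * (6 * n) ≤ ℓ * (6 * n) := mul_le_mul_of_nonneg_right (by linarith) (by positivity)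
    have e2 : ℓ * (6 * n) * 1 ≤ ℓ * (6 * n) * Real.log n := mul_le_mul_of_nonneg_left hL1 (by positivity)
    linarith
  have b4 : Real.log 16 * (4 * (n : ℝ) ^ 2) ≤ 2.77258873 * (4 * (n : ℝ) ^ 2) :=
    mul_le_mul_of_nonneg_right hl16 (by positivity)
  calc (m.factorial : ℝ) * (c ^ m * Real.exp E) = c ^ m * ((m.factorial : ℝ) * Real.exp E) := by ring
    _ ≤ c ^ m * (Real.exp (m * Real.log m) * Real.exp E) :=
        mul_le_mul_of_nonneg_left (mul_le_mul_of_nonneg_right hmf (Real.exp_pos _).le) hcm.le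
    _ = c ^ m * Real.exp (m * Real.log m + E) := by rw [Real.exp_add]
    _ ≤ _ := by
        refine mul_le_mul_of_nonneg_left (Real.exp_le_exp.2 ?_) hcm.le
        rw [hEval]
        have g1 : (Real.log 16 - ℓ) * ∑ i ∈ range m, ((i / 2 : ℕ) : ℝ) ≤
            Real.log 16 * (4 * (n : ℝ) ^ 2) - 4 * ℓ * (n : ℝ) ^ 2 + (ℓ - Real.log 16) * (6 * n) := by
          refine hs.trans (le_of_eq ?_)
          ring
        have g2 : (30 + C + 6 * ℓ) * (n * Real.log n) = 30 * (n * Real.log n) + C * n * Real.log n +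
            6 * ℓ * (n * Real.log n) := by ring
        have g3 : (4 * ℓ + 16.3) * (n : ℝ) ^ 2 = 4 * ℓ * (n : ℝ) ^ 2 + 16.3 * (n : ℝ) ^ 2 := by ring
        have g4 : 0 ≤ (n : ℝ) ^ 2 := sq_nonneg _
        have g5 : 0 ≤ n * Real.log n := by positivity
        rw [g3]
        rw [g2] at hsmall
        linarith

end

end Pool.Agent.TH50.DQ.Lrg
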