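import Mathlib

/-!
# `1, Li₁(1/Q), Li₂(1/Q)` for large `|Q|`: the factorials
-/

namespace Pool.Agent.TH50.DQ

/-- logarithms of the factorials (the true constant is `16 log 2 - 24 + 4 (2 log 2 - 5 log 5 + 3) = -27.553…`) -/
def S_fac : Prop := ∃ C : ℝ, 0 < C ∧ ∀ n : ℕ, 2 ≤ n → ∀ m : ℕ, 4 * n - 1 ≤ m → m ≤ 4 * n + 1 →
  ∑ i ∈ Finset.range m, 4 * Real.log ((i / 2).factorial : ℝ) +
    m * (Real.log ((2 * n).factorial : ℝ) - Real.log ((5 * n).factorial : ℝ)) ≤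
    4 * (n : ℝ) ^ 2 * Real.log n - 27.5 * (n : ℝ) ^ 2 + C * n * Real.log n

end Pool.Agent.TH50.DQ
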