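import Pool.Agent.TH50.DQ.Defs
import Pool.Agent.H757R2.LP.A4

/-!
# Archimedean bound for `1, Li₁(1/Q), Li₂(1/Q)`, `Q ≤ -2`: the linear form as an integral

`∑_{s ≥ 1} (-1)^(s-1) F(s) = ∫ F(1/2 + iy) κ(y) dy`, `κ(y) = 1 / (2 cosh π y)`, with `F(s) = e^{ws} R_f(s)`,
`w = -log |Q|`, so that `(-1)^s e^{ws} = Q^(-s)`.
-/

open Polynomial MeasureTheory Filter

namespace Pool.Agent.TH50.DQ

open Pool.Agent.LP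

noncomputable section

/-- `-log |Q|` -/
def wQ (Q : ℤ) : ℝ := -Real.log |(Q : ℝ)|

/-- kernel on the line `Re s = 1/2` -/
def kerQ (Q : ℤ) (α β : ℝ) (y : ℝ) : ℂ :=
  Complex.exp (wQ Q * zl y) * (((α + β * wQ Q : ℝ) : ℂ) * (H757R2.LP.kap y : ℂ) +
    (β : ℂ) * (-Complex.I * (H757R2.LP.kap' y : ℂ)))

/-- weight of `L` on the line -/
def GwQ (Q : ℤ) (a b : ℕ) (α β : ℝ) (y : ℝ) : ℂ := aeval (zl y) (An a) / aeval (zl y) (Pn a b) * kerQ Q α β y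

/-! ## The tasks -/

/-- the linear form is an integral -/
def S_line : Prop := ∀ (Q : ℤ), Q ≤ -2 → ∀ (a b : ℕ), 1 ≤ a → a ≤ b → ∀ α β γ : ℚ,
  (γ : ℝ) + α * li Q 1 + β * li Q 2 = 0 → ∀ f : ℚ[X],
  Integrable (fun y : ℝ => aeval (zl y) f * GwQ Q a b α β y) ∧
    ((L Q a b α β γ f : ℚ) : ℂ) = ∫ y : ℝ, aeval (zl y) f * GwQ Q a b α β y

/-- the archimedean bound for `Q ≤ -2` -/
def S_archN : Prop := ∀ (Q : ℤ), Q ≤ -2 → ∀ α β γ : ℤ, (γ : ℝ) + α * li Q 1 + β * li Q 2 = 0 →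
  ∃ c : ℝ, 0 < c ∧ ∀ᶠ n : ℕ in atTop, ∀ m : ℕ, 4 * n - 1 ≤ m → m ≤ 4 * n + 1 →
    |((DD Q n (5 * n) m α β γ : ℚ) : ℝ)| ≤ c ^ m * Real.exp (4 * (n : ℝ) ^ 2 * Real.log n - 28.4 * (n : ℝ) ^ 2)

end

end Pool.Agent.TH50.DQ
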