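import Pool.Agent.TH50.DQ.Final
import Pool.Agent.TH50.DQ.LargeB
import Pool.Agent.TH986.DQ.Bridge
import Pool.Agent.TH111.DQ.Arch
import Pool.Agent.TH91.DQ.Cert
import Pool.Agent.TH91.DQ.Tail
import Pool.Agent.TH75.DQ.Line
import Pool.Agent.TH169.DQ.ArchN
import Pool.Agent.H340R2.LW

/-!
# Linear independence of `1, log(1 - 1/Q), Li₂(1/Q)`
-/

open Filter Topology

namespace Pool.Agent.TH50.DQ

noncomputable section

theorem archB_three {Q : ℤ} (hQ : 3 ≤ |Q|) {α β γ : ℤ} (h : (γ : ℝ) + α * li Q 1 + β * li Q 2 = 0) :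
    ArchB Q 24.1 α β γ := by
  obtain ⟨c, hc, N0, hN⟩ := arch_of A_bridge A_cert3 A_cert4 A_tail A_QQ Q hQ α β γ h
  refine ⟨c, hc, ?_⟩
  rw [frequently_atTop]
  intro a
  obtain ⟨N, hN1⟩ : ∃ N : ℕ, N = max N0 a := ⟨_, rfl⟩
  refine ⟨10000 * N, by omega, ?_⟩
  intro m hm1 hm2
  have h1 := (hN N (by omega) m hm1 hm2).1
  push_cast
  exact h1

theorem archB_four {Q : ℤ} (hQ : 4 ≤ |Q|) {α β γ : ℤ} (h : (γ : ℝ) + α * li Q 1 + β * li Q 2 = 0) :
    ArchB Q 28.2 α β γ := by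
  obtain ⟨c, hc, N0, hN⟩ := arch_of A_bridge A_cert3 A_cert4 A_tail A_QQ Q (by omega) α β γ h
  refine ⟨c, hc, ?_⟩
  rw [frequently_atTop]
  intro a
  obtain ⟨N, hN1⟩ : ∃ N : ℕ, N = max N0 a := ⟨_, rfl⟩
  refine ⟨10000 * N, by omega, ?_⟩
  intro m hm1 hm2
  have h1 := (hN N (by omega) m hm1 hm2).2 hQ
  push_cast
  exact h1

theorem archB_neg {Q : ℤ} (hQ : Q ≤ -2) {α β γ : ℤ} (h : (γ : ℝ) + α * li Q 1 + β * li Q 2 = 0) :
    ArchB Q 28.4 α β γ := by
  obtain ⟨c, hc, hN⟩ := archN_of A_line Q hQ α β γ h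
  exact ⟨c, hc, hN.frequently⟩

/-- numerical condition -/
lemma cond {Q : ℤ} (hQ : Q ≠ 0) (hQ1 : Q ≠ 1) {K B : ℝ} (hK : 0 < K)
    (h1 : (|((Q - 1 : ℤ) : ℝ)|) ^ 25 ≤ K * (|(Q : ℝ)|) ^ 20) (h2 : Real.log K ≤ 4 * (B - 23.81)) :
    23.78 - 5 * Real.log |(Q : ℝ)| + 25 / 4 * Real.log |((Q - 1 : ℤ) : ℝ)| + 0.03 ≤ B := by
  have ha : 0 < |(Q : ℝ)| := abs_pos.2 (by exact_mod_cast hQ)
  have hb : 0 < |((Q - 1 : ℤ) : ℝ)| := abs_pos.2 (by
    have : Q - 1 ≠ 0 := by omega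
    exact_mod_cast this)
  have h3 := Real.log_le_log (by positivity) h1
  rw [Real.log_pow, Real.log_mul hK.ne' (by positivity), Real.log_pow] at h3
  push_cast at h3 ⊢
  linarith

lemma log_K1 : Real.log 30000000 ≤ 4 * (28.2 - 23.81) := by
  have h2 := Real.log_two_lt_d9
  have h : (30000000 : ℝ) ≤ 2 ^ 25 := by norm_num
  have h1 := Real.log_le_log (by norm_num) h
  rw [Real.log_pow] at h1
  push_cast at h1
  norm_num at h1 ⊢
  linarith

lemma log_K2 : Real.log 90000000 ≤ 4 * (28.4 - 23.81) := by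
  have h2 := Real.log_two_lt_d9
  have h : (90000000 : ℝ) ^ 25 ≤ 2 ^ 220 * (2 ^ 220 * 2 ^ 221) := by norm_num
  have h1 := Real.log_le_log (by positivity) h
  rw [Real.log_pow, Real.log_mul (by positivity) (by positivity), Real.log_mul (by positivity) (by positivity),
    Real.log_pow, Real.log_pow] at h1
  push_cast at h1
  norm_num at h1 ⊢
  linarith

/-- no rational relation, small `|Q|` -/
theorem no_rel_small {Q : ℤ} (hQ : (3 ≤ Q ∧ Q ≤ 30) ∨ (-30 ≤ Q ∧ Q ≤ -2)) {α β γ : ℤ}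
    (h : (γ : ℝ) + α * li Q 1 + β * li Q 2 = 0) : α = 0 ∧ β = 0 := by
  have hQ0 : Q ≠ 0 := by omega
  have hQ1 : Q ≠ 1 := by omega
  rcases hQ with ⟨ha, hb⟩ | ⟨ha, hb⟩
  · rcases eq_or_lt_of_le ha with h3 | h3
    · subst h3
      refine no_relation hQ0 hQ1 (B := 24.1) (cond hQ0 hQ1 (K := 1) one_pos ?_ ?_) (archB_three (by norm_num) h)
      · norm_num
      · rw [Real.log_one]; norm_num
    · refine no_relation hQ0 hQ1 (B := 28.2) (cond hQ0 hQ1 (K := 30000000) (by norm_num) ?_ log_K1)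
        (archB_four (by rw [abs_of_nonneg (by omega)]; omega) h)
      interval_cases Q <;> norm_num
  · refine no_relation hQ0 hQ1 (B := 28.4) (cond hQ0 hQ1 (K := 90000000) (by norm_num) ?_ log_K2)
      (archB_neg hb h)
    interval_cases Q <;> norm_num [abs_of_nonneg, abs_of_nonpos]

/-- no rational relation, large `|Q|` -/
theorem no_rel_large {Q : ℤ} (hQ : 31 ≤ |Q|) {α β γ : ℤ}
    (h : (γ : ℝ) + α * li Q 1 + β * li Q 2 = 0) : α = 0 ∧ β = 0 := by
  have hQR : (31 : ℝ) ≤ |(Q : ℝ)| := by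
    rw [← Int.cast_abs]
    exact_mod_cast hQ
  have hQ0 : Q ≠ 0 := by
    intro h0; rw [h0] at hQ; norm_num at hQ
  have hQ1 : Q ≠ 1 := by
    intro h0; rw [h0] at hQ; norm_num at hQ
  obtain ⟨c, hc, hN⟩ := Lrg.archL hQ h
  refine no_relation hQ0 hQ1 (B := 4 * Real.log |(Q : ℝ)| + 16.3) ?_ ⟨c, hc, hN.frequently⟩
  have h3 : 3 ≤ Real.log |(Q : ℝ)| := by
    rw [Real.le_log_iff_exp_le (by linarith)]
    have e1 : Real.exp 3 = Real.exp 1 ^ 3 := by
      rw [← Real.exp_nat_mul]; norm_num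
    have e2 : Real.exp 1 ^ 3 ≤ 2.7182818286 ^ 3 :=
      pow_le_pow_left₀ (Real.exp_pos _).le Real.exp_one_lt_d9.le 3
    rw [e1]
    refine e2.trans (le_trans (by norm_num) hQR)
  have h4 : Real.log |((Q - 1 : ℤ) : ℝ)| ≤ Real.log |(Q : ℝ)| + 1 / 31 := by
    have h5 : |((Q - 1 : ℤ) : ℝ)| ≤ |(Q : ℝ)| * (32 / 31) := by
      push_cast
      have := abs_sub (Q : ℝ) 1
      rw [abs_one] at this
      linarith
    have h6 : 0 < |((Q - 1 : ℤ) : ℝ)| := abs_pos.2 (by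
      have : Q - 1 ≠ 0 := by omega
      exact_mod_cast this)
    have h7 := Real.log_le_log h6 h5
    rw [Real.log_mul (by linarith) (by norm_num)] at h7
    have h8 := Real.log_le_sub_one_of_pos (show (0 : ℝ) < 32 / 31 by norm_num)
    linarith
  linarith

/-- **no rational relation** -/
theorem no_rel {Q : ℤ} (hQ : 3 ≤ Q ∨ Q ≤ -2) {α β γ : ℤ}
    (h : (γ : ℝ) + α * li Q 1 + β * li Q 2 = 0) : α = 0 ∧ β = 0 := by
  by_cases h1 : 31 ≤ |Q|
  · exact no_rel_large h1 h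
  · refine no_rel_small ?_ h
    rw [not_le, abs_lt] at h1
    omega

/-- `Li₁(1/Q)` -/
lemma li_one {Q : ℤ} (hQ : 2 ≤ |Q|) : li Q 1 = -Real.log (1 - 1 / (Q : ℝ)) := by
  have h1 : |1 / (Q : ℝ)| < 1 := by
    have : (2 : ℝ) ≤ |(Q : ℝ)| := by
      rw [← Int.cast_abs]
      exact_mod_cast hQ
    rw [abs_div, abs_one, div_lt_one (by linarith)]
    linarith
  have h2 := Real.hasSum_pow_div_log_of_abs_lt_one h1
  unfold li
  rw [← h2.tsum_eq]
  refine tsum_congr fun s => ?_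
  rw [pow_one]

/-- no relation with rational coefficients -/
theorem indep_rat {Q : ℤ} (hQ : 3 ≤ Q ∨ Q ≤ -2) {x y z : ℚ}
    (h : (x : ℝ) + y * Real.log (1 - 1 / (Q : ℝ)) + z * li Q 2 = 0) : x = 0 ∧ y = 0 ∧ z = 0 := by
  have hQ2 : 2 ≤ |Q| := by
    rcases hQ with h | h
    · rw [abs_of_nonneg (by omega)]; omega
    · rw [abs_of_nonpos (by omega)]; omega
  set N : ℤ := x.den * y.den * z.den with hN
  have hN0 : N ≠ 0 := by
    rw [hN]
    have h1 := x.den_nz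
    have h2 := y.den_nz
    have h3 := z.den_nz
    positivity
  have hx : ((x.num * (y.den * z.den) : ℤ) : ℚ) = N * x := by
    rw [hN]; push_cast
    have : (x.num : ℚ) = x * x.den := (Rat.mul_den_eq_num x).symm
    rw [this]; ring
  have hy : ((y.num * (x.den * z.den) : ℤ) : ℚ) = N * y := by
    rw [hN]; push_cast
    have : (y.num : ℚ) = y * y.den := (Rat.mul_den_eq_num y).symm
    rw [this]; ring
  have hz : ((z.num * (x.den * y.den) : ℤ) : ℚ) = N * z := by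
    rw [hN]; push_cast
    have : (z.num : ℚ) = z * z.den := (Rat.mul_den_eq_num z).symm
    rw [this]; ring
  have hxR : ((x.num * (y.den * z.den) : ℤ) : ℝ) = N * x := by exact_mod_cast congrArg (fun q : ℚ => (q : ℝ)) hx
  have hyR : ((-(y.num * (x.den * z.den)) : ℤ) : ℝ) = -(N * y) := by
    push_cast
    have := congrArg (fun q : ℚ => (q : ℝ)) hy
    push_cast at this
    linarith
  have hzR : ((z.num * (x.den * y.den) : ℤ) : ℝ) = N * z := by exact_mod_cast congrArg (fun q : ℚ => (q : ℝ)) hz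
  have hrel : ((x.num * (y.den * z.den) : ℤ) : ℝ) + ((-(y.num * (x.den * z.den)) : ℤ) : ℝ) * li Q 1 +
      ((z.num * (x.den * y.den) : ℤ) : ℝ) * li Q 2 = 0 := by
    rw [hxR, hyR, hzR, li_one hQ2]
    linear_combination (N : ℝ) * h
  obtain ⟨h1, h2⟩ := no_rel hQ hrel
  have hy0 : y = 0 := by
    have h1' : y.num * (x.den * z.den) = 0 := by omega
    rw [h1'] at hy
    have : (N : ℚ) * y = 0 := by rw [← hy]; norm_num
    rcases mul_eq_zero.1 this with h' | h'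
    · exact absurd (by exact_mod_cast h') hN0
    · exact h'
  have hz0 : z = 0 := by
    rw [h2] at hz
    have : (N : ℚ) * z = 0 := by rw [← hz]; norm_num
    rcases mul_eq_zero.1 this with h' | h'
    · exact absurd (by exact_mod_cast h') hN0
    · exact h'
  refine ⟨?_, hy0, hz0⟩
  rw [hy0, hz0] at h
  have : (x : ℝ) = 0 := by simpa using h
  exact_mod_cast this

/-- `log |Q|` is not rational -/
lemma log_irr {Q : ℤ} (hQ : 2 ≤ |Q|) {d e : ℚ} (h : (d : ℝ) + e * Real.log |(Q : ℝ)| = 0) : d = 0 ∧ e = 0 := by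
  have hQR : (2 : ℝ) ≤ |(Q : ℝ)| := by
    rw [← Int.cast_abs]
    exact_mod_cast hQ
  have hl : 0 < Real.log |(Q : ℝ)| := Real.log_pos (by linarith)
  by_cases he : e = 0
  · refine ⟨?_, he⟩
    rw [he] at h
    have : (d : ℝ) = 0 := by simpa using h
    exact_mod_cast this
  · exfalso
    have h1 : Real.log |(Q : ℝ)| = ((-d / e : ℚ) : ℝ) := by
      have he' : (e : ℝ) ≠ 0 := by exact_mod_cast he
      push_cast
      field_simp
      linarith
    have h2 : ((-d / e : ℚ) : ℂ) ≠ 0 := by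
      intro h0
      have h3 : ((-d / e : ℚ) : ℝ) = 0 := by exact_mod_cast h0
      rw [h3] at h1
      linarith
    have h4 := Pool.Agent.H340R2.LW.transcendental_cexp ((-d / e : ℚ) : ℂ) (isAlgebraic_algebraMap (-d / e : ℚ)) h2
    have h5 : Complex.exp ((-d / e : ℚ) : ℂ) = ((|Q| : ℤ) : ℂ) := by
      have e1 : ((-d / e : ℚ) : ℂ) = ((Real.log |(Q : ℝ)| : ℝ) : ℂ) := by
        rw [h1]; push_cast; rfl
      rw [e1, ← Complex.ofReal_exp, Real.exp_log (by linarith), ← Int.cast_abs, Complex.ofReal_intCast]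
    rw [h5] at h4
    exact h4 (isAlgebraic_intCast _)

end

end Pool.Agent.TH50.DQ
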