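import Pool.Agent.TH986.DQ.Bridge

/-!
# Linear independence measure for `1, Li₁(1/Q), Li₂(1/Q)`: the series for an approximate relation
-/

open Polynomial Finset

namespace Pool.Agent.TH50.DQ.Mea

open Pool.Agent.LP
open Pool.Agent.TH844.DL.BridgeAux (hsc R R_eval pf_real pf_deriv TL TL_monomial)
open Pool.Agent.TH50.DQ.BrQ

noncomputable section

/-- weights of the residues -/
def wk (a b k : ℕ) : ℝ := (∏ i ∈ range a, ((i : ℝ) - k)) / ∏ j ∈ (Icc a b).erase k, ((j : ℝ) - k)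

/-- the coefficient of the relation, as a functional -/
def U (Q : ℤ) (a b : ℕ) : ℝ[X] →ₗ[ℝ] ℝ := ∑ k ∈ Icc a b, ((Q : ℝ) ^ k * wk a b k) • Polynomial.leval (-(k : ℝ))

lemma U_apply (Q : ℤ) (a b : ℕ) (F : ℝ[X]) : U Q a b F = ∑ k ∈ Icc a b, (Q : ℝ) ^ k * wk a b k * F.eval (-(k : ℝ)) := by
  unfold U
  rw [LinearMap.sum_apply]
  refine sum_congr rfl fun k _ => ?_
  rw [LinearMap.smul_apply, smul_eq_mul]
  rfl

lemma rs_real (a b : ℕ) (q : ℚ[X]) (k : ℕ) : ((rs a b q k : ℚ) : ℝ) = wk a b k * (R q).eval (-(k : ℝ)) := by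
  unfold rs wk An
  rw [eval_mul, eval_prod]
  have h1 := R_eval q (-(k : ℚ))
  push_cast at h1 ⊢
  rw [h1]
  have h2 : ∏ i ∈ range a, (((eval (-(k : ℚ)) (X + C (i : ℚ)) : ℚ)) : ℝ) = ∏ i ∈ range a, ((i : ℝ) - k) := by
    refine prod_congr rfl fun i _ => ?_
    rw [eval_add, eval_X, eval_C]
    push_cast
    ring
  rw [h2]
  ring

/-- the defect of the relation -/
def del (Q : ℤ) (α β γ : ℝ) : ℝ := γ + α * li Q 1 + β * li Q 2

theorem tm_sum' {Q : ℤ} (hQ : 2 ≤ |Q|) (a b : ℕ) (α β γ : ℚ) (q : ℚ[X]) :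
    HasSum (tmQ Q a b α β (R q)) (((L Q a b α β γ q : ℚ) : ℝ) - del Q α β γ * U Q a b (R q)) := by
  have hE1 := (EB_sum hQ (pp a b q)).mul_left (-(α : ℝ))
  have hE2 := (EB_sum hQ (derivative (pp a b q))).mul_left (β : ℝ)
  have hL : HasSum (fun s : ℕ => ∑ k ∈ Finset.Icc a b, -(α : ℝ) * ((rs a b q k : ℚ) : ℝ) *
      ((1 / (Q : ℝ)) ^ (s + 1) * (1 / (((s : ℝ) + 1) + k) ^ 1)))
      (∑ k ∈ Finset.Icc a b, -(α : ℝ) * ((rs a b q k : ℚ) : ℝ) *
        ((Q : ℝ) ^ k * (li Q 1 - ((Tz Q 1 k : ℚ) : ℝ)))) :=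
    hasSum_sum fun k _ => (li_sum hQ 1 k).mul_left _
  have hD : HasSum (fun s : ℕ => ∑ k ∈ Finset.Icc a b, -(β : ℝ) * ((rs a b q k : ℚ) : ℝ) *
      ((1 / (Q : ℝ)) ^ (s + 1) * (1 / (((s : ℝ) + 1) + k) ^ 2)))
      (∑ k ∈ Finset.Icc a b, -(β : ℝ) * ((rs a b q k : ℚ) : ℝ) *
        ((Q : ℝ) ^ k * (li Q 2 - ((Tz Q 2 k : ℚ) : ℝ)))) :=
    hasSum_sum fun k _ => (li_sum hQ 2 k).mul_left _
  have hall := (hE1.add hE2).add (hL.add hD)
  have hval : -(α : ℝ) * ((EB Q (pp a b q) : ℚ) : ℝ) +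
      β * ((EB Q (derivative (pp a b q)) : ℚ) : ℝ) +
      (∑ k ∈ Finset.Icc a b, -(α : ℝ) * ((rs a b q k : ℚ) : ℝ) *
        ((Q : ℝ) ^ k * (li Q 1 - ((Tz Q 1 k : ℚ) : ℝ))) +
      ∑ k ∈ Finset.Icc a b, -(β : ℝ) * ((rs a b q k : ℚ) : ℝ) *
        ((Q : ℝ) ^ k * (li Q 2 - ((Tz Q 2 k : ℚ) : ℝ)))) =
      ((L Q a b α β γ q : ℚ) : ℝ) - del Q α β γ * U Q a b (R q) := by
    have h1 : L Q a b α β γ q = Lf Q a b α β γ q := rfl
    rw [h1, U_apply]
    unfold Lf del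
    push_cast
    rw [← Finset.sum_add_distrib]
    have h2 : ∑ k ∈ Finset.Icc a b, (-(α : ℝ) * ((rs a b q k : ℚ) : ℝ) *
        ((Q : ℝ) ^ k * (li Q 1 - ((Tz Q 1 k : ℚ) : ℝ))) + -(β : ℝ) * ((rs a b q k : ℚ) : ℝ) *
        ((Q : ℝ) ^ k * (li Q 2 - ((Tz Q 2 k : ℚ) : ℝ)))) =
        ∑ k ∈ Finset.Icc a b, (Q : ℝ) ^ k * ((rs a b q k : ℚ) : ℝ) *
          (γ + α * ((Tz Q 1 k : ℚ) : ℝ) + β * ((Tz Q 2 k : ℚ) : ℝ)) -
        ((γ : ℝ) + α * li Q 1 + β * li Q 2) * ∑ k ∈ Finset.Icc a b, (Q : ℝ) ^ k * wk a b k *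
          (R q).eval (-(k : ℝ)) := by
      rw [Finset.mul_sum, ← Finset.sum_sub_distrib]
      refine Finset.sum_congr rfl fun k _ => ?_
      rw [rs_real]
      ring
    rw [h2]
    ring
  rw [hval] at hall
  refine hsc (fun s => ?_) hall
  unfold tmQ
  have hx : (0 : ℝ) < (s : ℝ) + 1 := by positivity
  rw [pf_real a b q hx, pf_deriv a b q hx]
  have h5 : ∀ p : ℚ[X], ((p.eval ((s : ℚ) + 1) : ℚ) : ℝ) = (R p).eval ((s : ℝ) + 1) := by
    intro p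
    have h6 := R_eval p ((s : ℚ) + 1)
    rw [← h6]
    push_cast
    rfl
  rw [h5, h5]
  have h6 : ∑ k ∈ Finset.Icc a b, -(α : ℝ) * ((rs a b q k : ℚ) : ℝ) *
      ((1 / (Q : ℝ)) ^ (s + 1) * (1 / (((s : ℝ) + 1) + k) ^ 1)) =
      -(α : ℝ) * (1 / (Q : ℝ)) ^ (s + 1) *
        ∑ k ∈ Finset.Icc a b, ((rs a b q k : ℚ) : ℝ) * (1 / (((s : ℝ) + 1) + k)) := by
    rw [Finset.mul_sum]
    refine Finset.sum_congr rfl fun k _ => ?_
    rw [pow_one]
    ring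
  have h7 : ∑ k ∈ Finset.Icc a b, -(β : ℝ) * ((rs a b q k : ℚ) : ℝ) *
      ((1 / (Q : ℝ)) ^ (s + 1) * (1 / (((s : ℝ) + 1) + k) ^ 2)) =
      -(β : ℝ) * (1 / (Q : ℝ)) ^ (s + 1) *
        ∑ k ∈ Finset.Icc a b, ((rs a b q k : ℚ) : ℝ) * (1 / (((s : ℝ) + 1) + k) ^ 2) := by
    rw [Finset.mul_sum]
    refine Finset.sum_congr rfl fun k _ => ?_
    ring
  rw [h6, h7]
  ring

/-- the linear form is a convergent series, up to the defect -/
theorem bridge {Q : ℤ} (hQ : 2 ≤ |Q|) (a b : ℕ) (α β γ : ℚ) :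
    ∃ T : ℝ[X] →ₗ[ℝ] ℝ,
      (∀ i : ℕ, ((L Q a b α β γ (X ^ i) : ℚ) : ℝ) = (T + del Q α β γ • U Q a b) (X ^ i)) ∧
      ∀ f : ℝ[X], HasSum (tmQ Q a b α β f) (T f) := by
  obtain ⟨v, hv⟩ : ∃ v : ℕ → ℝ, v = fun i => ((L Q a b α β γ (X ^ i) : ℚ) : ℝ) - del Q α β γ * U Q a b (X ^ i) :=
    ⟨_, rfl⟩
  refine ⟨TL v, fun i => ?_, fun f => ?_⟩
  · have h := TL_monomial v i 1
    rw [one_mul, Polynomial.monomial_one_right_eq_X_pow] at h
    rw [LinearMap.add_apply, LinearMap.smul_apply, smul_eq_mul, h, hv]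
    ring
  · induction f using Polynomial.induction_on' with
    | add f g hf hg =>
      rw [map_add]
      exact hsc (tm_add Q a b α β f g) (hf.add hg)
    | monomial i c =>
      rw [TL_monomial]
      have h0 : R (X ^ i) = X ^ i := by
        unfold R
        rw [Polynomial.map_pow, map_X]
      have h1 : (monomial i c : ℝ[X]) = c • R (X ^ i) := by
        rw [h0, smul_eq_C_mul, C_mul_X_pow_eq_monomial]
      rw [h1]
      have h2 := tm_sum' hQ a b α β γ (X ^ i)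
      have h3 : ((L Q a b α β γ (X ^ i) : ℚ) : ℝ) - del Q α β γ * U Q a b (R (X ^ i)) = v i := by
        rw [hv, h0]
      rw [h3] at h2
      exact hsc (tm_smul Q a b α β c _) (h2.mul_left c)

/-! ### bounds of the weights -/

lemma prod_erase {n k : ℕ} (h1 : n ≤ k) (h2 : k ≤ 5 * n) :
    ∏ j ∈ (Icc n (5 * n)).erase k, |((j : ℝ) - k)| = ((k - n).factorial : ℝ) * ((5 * n - k).factorial : ℝ) := by
  have hsplit : (Icc n (5 * n)).erase k = Ico n k ∪ Ioc k (5 * n) := by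
    ext j
    simp only [mem_erase, mem_Icc, mem_union, mem_Ico, mem_Ioc]
    omega
  have hdisj : Disjoint (Ico n k) (Ioc k (5 * n)) := by
    rw [disjoint_left]
    intro j hj1 hj2
    rw [mem_Ico] at hj1
    rw [mem_Ioc] at hj2
    omega
  rw [hsplit, prod_union hdisj]
  have hlow : ∀ d : ℕ, ∀ k : ℕ, ∏ j ∈ Ico k (k + d), |((j : ℝ) - ((k + d : ℕ) : ℝ))| = (d.factorial : ℝ) := by
    intro d k
    rw [prod_Ico_eq_prod_range, Nat.add_sub_cancel_left, ← Nat.descFactorial_self d,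
      Nat.descFactorial_eq_prod_range]
    push_cast
    refine prod_congr rfl fun i hi => ?_
    rw [mem_range] at hi
    rw [Nat.cast_sub hi.le]
    have e2 : ((k : ℝ) + i - ((k : ℝ) + d)) = -((d : ℝ) - i) := by ring
    have e3 : (i : ℝ) ≤ d := by exact_mod_cast hi.le
    rw [e2, abs_neg, abs_of_nonneg (by linarith)]
  have hhigh : ∀ d : ℕ, ∏ j ∈ Ioc k (k + d), |((j : ℝ) - (k : ℝ))| = (d.factorial : ℝ) := by
    intro d
    have e0 : Ioc k (k + d) = Ico (k + 1) (k + 1 + d) := by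
      ext j
      simp only [mem_Ioc, mem_Ico]
      omega
    rw [e0, prod_Ico_eq_prod_range, Nat.add_sub_cancel_left, ← prod_range_add_one_eq_factorial]
    push_cast
    refine prod_congr rfl fun i _ => ?_
    have e2 : ((k : ℝ) + 1 + i - (k : ℝ)) = (i : ℝ) + 1 := by ring
    rw [e2, abs_of_nonneg (by positivity)]
  have h3 := hlow (k - n) n
  rw [Nat.add_sub_cancel' h1] at h3
  have h4 := hhigh (5 * n - k)
  rw [Nat.add_sub_cancel' h2] at h4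
  rw [h3, h4]

lemma wk_le {n k : ℕ} (h1 : n ≤ k) (h2 : k ≤ 5 * n) :
    |wk n (5 * n) k| ≤ 2 ^ (9 * n) * ((n.factorial : ℝ) / ((4 * n).factorial : ℝ)) := by
  unfold wk
  rw [abs_div, abs_prod, abs_prod, prod_erase h1 h2]
  have hnum : ∏ i ∈ range n, |((i : ℝ) - k)| = (k.descFactorial n : ℝ) := by
    rw [Nat.descFactorial_eq_prod_range]
    push_cast
    refine prod_congr rfl fun i hi => ?_
    rw [mem_range] at hi
    rw [Nat.cast_sub (by omega), abs_sub_comm, abs_of_nonneg]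
    have : (i : ℝ) ≤ k := by exact_mod_cast (by omega : i ≤ k)
    linarith
  rw [hnum, Nat.descFactorial_eq_factorial_mul_choose]
  have hc1 : ((k.choose n : ℕ) : ℝ) ≤ 2 ^ (5 * n) := by
    have e1 : k.choose n ≤ 2 ^ k := Nat.choose_le_two_pow k n
    have e2 : (2 : ℕ) ^ k ≤ 2 ^ (5 * n) := Nat.pow_le_pow_right (by norm_num) h2
    exact_mod_cast e1.trans e2
  have hc2 : ((4 * n).factorial : ℝ) ≤ 2 ^ (4 * n) * (((k - n).factorial : ℝ) * ((5 * n - k).factorial : ℝ)) := by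
    have e1 := Nat.choose_mul_factorial_mul_factorial (n := 4 * n) (k := k - n) (by omega)
    have e2 : 4 * n - (k - n) = 5 * n - k := by omega
    rw [e2] at e1
    have e3 : (4 * n).choose (k - n) ≤ 2 ^ (4 * n) := Nat.choose_le_two_pow _ _
    have e4 : (4 * n).factorial ≤ 2 ^ (4 * n) * ((k - n).factorial * (5 * n - k).factorial) := by
      rw [← e1, mul_assoc]
      exact Nat.mul_le_mul_right _ e3
    exact_mod_cast e4
  have hp : (0 : ℝ) < ((k - n).factorial : ℝ) * ((5 * n - k).factorial : ℝ) := by positivity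
  have hq : (0 : ℝ) < ((4 * n).factorial : ℝ) := by positivity
  rw [div_le_iff₀ hp]
  push_cast
  have e5 : (2 : ℝ) ^ (9 * n) = 2 ^ (5 * n) * 2 ^ (4 * n) := by rw [← pow_add]; congr 1; ring
  rw [e5]
  have h6 : (n.factorial : ℝ) * (k.choose n : ℝ) ≤ (n.factorial : ℝ) * 2 ^ (5 * n) :=
    mul_le_mul_of_nonneg_left hc1 (by positivity)
  refine h6.trans ?_
  rw [show (2 : ℝ) ^ (5 * n) * 2 ^ (4 * n) * ((n.factorial : ℝ) / ((4 * n).factorial : ℝ)) *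
      (((k - n).factorial : ℝ) * ((5 * n - k).factorial : ℝ)) =
      ((n.factorial : ℝ) * 2 ^ (5 * n)) * ((2 ^ (4 * n) * (((k - n).factorial : ℝ) * ((5 * n - k).factorial : ℝ))) /
        ((4 * n).factorial : ℝ)) by ring]
  refine le_mul_of_one_le_right (by positivity) ?_
  rw [one_le_div hq]
  exact hc2

/-- bound of the coefficient functional -/
theorem U_le {Q : ℤ} (hQ : 1 ≤ |(Q : ℝ)|) {n : ℕ} {F : ℝ[X]} {A : ℝ}
    (hF : ∀ k : ℕ, n ≤ k → k ≤ 5 * n → |F.eval (-(k : ℝ))| ≤ A) :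
    |U Q n (5 * n) F| ≤ (4 * n + 1) * (|(Q : ℝ)| ^ (5 * n) *
      (2 ^ (9 * n) * ((n.factorial : ℝ) / ((4 * n).factorial : ℝ))) * A) := by
  rw [U_apply]
  refine (abs_sum_le_sum_abs _ _).trans ?_
  have hterm : ∀ k ∈ Icc n (5 * n), |(Q : ℝ) ^ k * wk n (5 * n) k * F.eval (-(k : ℝ))| ≤
      |(Q : ℝ)| ^ (5 * n) * (2 ^ (9 * n) * ((n.factorial : ℝ) / ((4 * n).factorial : ℝ))) * A := by
    intro k hk
    rw [mem_Icc] at hk
    rw [abs_mul, abs_mul, abs_pow]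
    refine mul_le_mul (mul_le_mul (pow_le_pow_right₀ hQ hk.2) (wk_le hk.1 hk.2) (abs_nonneg _) (by positivity))
      (hF k hk.1 hk.2) (abs_nonneg _) (by positivity)
  refine (sum_le_sum hterm).trans (le_of_eq ?_)
  rw [sum_const, Nat.card_Icc, nsmul_eq_mul]
  have : 5 * n + 1 - n = 4 * n + 1 := by omega
  rw [this]
  push_cast
  ring

end

end Pool.Agent.TH50.DQ.Mea
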