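import Pool.Agent.TH50.DQ.MeasA
import Pool.Agent.TH50.DQ.LargeB

/-!
# Linear independence measure, large `|Q|`
-/

open Polynomial Filter Finset

open Pool.Agent.TH844.DL (wt)
open Pool.Agent.TH844.DL.Ent (wt_deriv wt_pos)

namespace Pool.Agent.TH50.DQ.Mea

open Pool.Agent.TH50.DQ.Lrg

noncomputable section

/-- the entries -/
theorem entry_le20 {Q : ℤ} (hQ : 20 ≤ |Q|) {n i j : ℕ} (hn : 1 ≤ n) (hi : i ≤ 4 * n) (hj : j ≤ 4 * n) (α β : ℝ)
    {T : ℝ[X] →ₗ[ℝ] ℝ} (hT : ∀ f : ℝ[X], HasSum (tmQ Q n (5 * n) α β f) (T f)) :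
    |T (bR i * bR j)| ≤ ((|α| + |β|) * (14 * n)) * (((2 * n).factorial : ℝ) / ((5 * n).factorial : ℝ)) *
      (((i / 2).factorial : ℝ) ^ 2 * ((j / 2).factorial : ℝ) ^ 2) * (9 * (n : ℝ) ^ 2) *
      (16 / |(Q : ℝ)|) ^ (max (i / 2) (j / 2)) * ∑' v : ℕ, ((v : ℝ) + 1) ^ 2 * (16 / 20) ^ v := by
  have hQR : (20 : ℝ) ≤ |(Q : ℝ)| := by
    rw [← Int.cast_abs]
    exact_mod_cast hQ
  have hQ0 : Q ≠ 0 := by
    intro h; rw [h] at hQ; norm_num at hQ
  obtain ⟨k, hk⟩ : ∃ k, k = max (i / 2) (j / 2) := ⟨_, rfl⟩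
  rw [← hk]
  have hki : i / 2 ≤ k := by rw [hk]; exact le_max_left _ _
  have hkj : j / 2 ≤ k := by rw [hk]; exact le_max_right _ _
  have hkn : k ≤ 2 * n := by rw [hk]; exact max_le (by omega) (by omega)
  have hsum := hT (bR i * bR j)
  have hzero : ∀ s ∈ range k, tmQ Q n (5 * n) α β (bR i * bR j) s = 0 := by
    intro s hs
    rw [mem_range] at hs
    have hd : (X - C ((s : ℝ) + 1)) ^ 2 ∣ bR i * bR j := by
      rcases le_total (i / 2) (j / 2) with h | h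
      · have : s + 1 ≤ j / 2 := by rw [hk, max_eq_right h] at hs; omega
        exact (sq_dvd this).mul_left _
      · have : s + 1 ≤ i / 2 := by rw [hk, max_eq_left h] at hs; omega
        exact (sq_dvd this).mul_right _
    obtain ⟨v1, v2⟩ := vanish hd
    unfold tmQ
    rw [v1, v2]
    ring
  have h1 := (hasSum_nat_add_iff' k).2 hsum
  rw [sum_eq_zero hzero, sub_zero] at h1
  have hsm : Summable fun v : ℕ => ((v : ℝ) + 1) ^ 2 * (16 / 20 : ℝ) ^ v := by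
    have h2 := summable_pow_mul_geometric_of_norm_lt_one (R := ℝ) 2 (r := 16 / 20) (by norm_num)
    have h3 := summable_pow_mul_geometric_of_norm_lt_one (R := ℝ) 1 (r := 16 / 20) (by norm_num)
    have h4 := summable_pow_mul_geometric_of_norm_lt_one (R := ℝ) 0 (r := 16 / 20) (by norm_num)
    have h5 := (h2.add (h3.mul_left 2)).add h4
    refine h5.congr fun v => ?_
    ring
  obtain ⟨A, hA⟩ : ∃ A, A = ((|α| + |β|) * (14 * n)) * (((2 * n).factorial : ℝ) / ((5 * n).factorial : ℝ)) *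
      (((i / 2).factorial : ℝ) ^ 2 * ((j / 2).factorial : ℝ) ^ 2) := ⟨_, rfl⟩
  have hA0 : 0 ≤ A := by rw [hA]; positivity
  rw [← hA]
  obtain ⟨ρ, hρ⟩ : ∃ ρ, ρ = 16 / |(Q : ℝ)| := ⟨_, rfl⟩
  have hρ0 : 0 < ρ := by rw [hρ]; positivity
  have hρ1 : ρ ≤ 16 / 20 := by
    rw [hρ]
    exact div_le_div_of_nonneg_left (by norm_num) (by norm_num) hQR
  have hterm : ∀ v : ℕ, ‖tmQ Q n (5 * n) α β (bR i * bR j) (v + k)‖ ≤
      (A * (9 * (n : ℝ) ^ 2) * ρ ^ k) * (((v : ℝ) + 1) ^ 2 * (16 / 20 : ℝ) ^ v) := by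
    intro v
    rw [Real.norm_eq_abs]
    have h2 := term_le hQ0 hn hi hj (s := v + k) (by omega) (by omega) α β
    rw [← hA, ← hρ] at h2
    refine h2.trans ?_
    have h3 : (((v + k : ℕ) : ℝ) + 1) ^ 2 ≤ (9 * (n : ℝ) ^ 2) * ((v : ℝ) + 1) ^ 2 := by
      have e1 : ((v + k : ℕ) : ℝ) + 1 ≤ (3 * n) * ((v : ℝ) + 1) := by
        have h4 : (k : ℝ) ≤ 2 * n := by exact_mod_cast hkn
        have h5 : (1 : ℝ) ≤ n := by exact_mod_cast hn
        have h6 : (0 : ℝ) ≤ v := Nat.cast_nonneg v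
        push_cast
        nlinarith
      calc (((v + k : ℕ) : ℝ) + 1) ^ 2 ≤ ((3 * n) * ((v : ℝ) + 1)) ^ 2 := pow_le_pow_left₀ (by positivity) e1 2
        _ = _ := by ring
    have h4 : ρ ^ (v + k + 1) ≤ ρ ^ k * (16 / 20 : ℝ) ^ v := by
      rw [pow_succ, pow_add]
      have e1 : ρ ^ v ≤ (16 / 20 : ℝ) ^ v := pow_le_pow_left₀ hρ0.le hρ1 v
      have e2 : 0 < ρ ^ k := pow_pos hρ0 k
      have e3 : 0 < ρ ^ v := pow_pos hρ0 v
      have e4 : ρ ≤ 1 := by linarith [hρ1, (by norm_num : (16 / 20 : ℝ) ≤ 1)]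
      calc ρ ^ v * ρ ^ k * ρ ≤ ρ ^ v * ρ ^ k * 1 := mul_le_mul_of_nonneg_left e4 (by positivity)
        _ = ρ ^ k * ρ ^ v := by ring
        _ ≤ _ := mul_le_mul_of_nonneg_left e1 e2.le
    have h5 := mul_le_mul h3 h4 (by positivity) (by positivity)
    have h6 := mul_le_mul_of_nonneg_left h5 hA0
    refine h6.trans (le_of_eq ?_)
    ring
  have hb := tsum_of_norm_bounded ((hsm.hasSum).mul_left (A * (9 * (n : ℝ) ^ 2) * ρ ^ k)) hterm
  rw [h1.tsum_eq, Real.norm_eq_abs] at hb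
  rw [← hρ]
  exact hb


/-- values of the basis at the poles -/
lemma bR_even (t k : ℕ) : ∏ j ∈ range (2 * t), ((k : ℝ) + (((j / 2 : ℕ) : ℝ) + 1)) =
    ((t.factorial : ℝ) * ((k + t).choose t : ℝ)) ^ 2 := by
  induction t with
  | zero => simp
  | succ t ih =>
    have h2 : 2 * (t + 1) = 2 * t + 1 + 1 := by ring
    have h3 : (2 * t + 1) / 2 = t := by omega
    have h4 : (2 * t) / 2 = t := by omega
    rw [h2, prod_range_succ, prod_range_succ, h3, h4, ih]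
    have h5 : (((t + 1).factorial : ℝ) * ((k + (t + 1)).choose (t + 1) : ℝ)) =
        ((t.factorial : ℝ) * ((k + t).choose t : ℝ)) * ((k : ℝ) + (t + 1)) := by
      have h6 : (k + t + 1) * (k + t).choose t = (k + t + 1).choose (t + 1) * (t + 1) :=
        Nat.add_one_mul_choose_eq (k + t) t
      have h7 : ((k : ℝ) + t + 1) * ((k + t).choose t : ℝ) = ((k + t + 1).choose (t + 1) : ℝ) * ((t : ℝ) + 1) := by
        exact_mod_cast h6
      rw [Nat.factorial_succ, ← add_assoc]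
      push_cast
      linear_combination -(t.factorial : ℝ) * h7
    rw [h5]
    ring

lemma two_pow_ge (n c : ℕ) (_ : 1 ≤ c) : c * n + 1 ≤ 2 ^ (c * n) := by
  have := Nat.lt_two_pow_self (n := c * n)
  omega

lemma bR_pole {n i k : ℕ} (_ : 1 ≤ n) (hi : i ≤ 4 * n) (hk : k ≤ 5 * n) :
    |(bR i).eval (-(k : ℝ))| ≤ ((i / 2).factorial : ℝ) ^ 2 * 2 ^ (21 * n) := by
  have h0 : |(bR i).eval (-(k : ℝ))| = ∏ j ∈ range i, ((k : ℝ) + (((j / 2 : ℕ) : ℝ) + 1)) := by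
    unfold bR
    rw [eval_prod, abs_prod]
    refine prod_congr rfl fun j _ => ?_
    rw [eval_sub, eval_X, eval_C]
    have : -(k : ℝ) - (((j / 2 : ℕ) : ℝ) + 1) = -((k : ℝ) + (((j / 2 : ℕ) : ℝ) + 1)) := by ring
    rw [this, abs_neg, abs_of_nonneg (by positivity)]
  rw [h0]
  have hch : ((k + i / 2).choose (i / 2) : ℝ) ≤ 2 ^ (7 * n) := by
    have e1 : (k + i / 2).choose (i / 2) ≤ 2 ^ (k + i / 2) := Nat.choose_le_two_pow _ _
    have e2 : (2 : ℕ) ^ (k + i / 2) ≤ 2 ^ (7 * n) := Nat.pow_le_pow_right (by norm_num) (by omega)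
    exact_mod_cast e1.trans e2
  have hev : ∏ j ∈ range (2 * (i / 2)), ((k : ℝ) + (((j / 2 : ℕ) : ℝ) + 1)) ≤
      ((i / 2).factorial : ℝ) ^ 2 * 2 ^ (14 * n) := by
    rw [bR_even, mul_pow]
    refine mul_le_mul_of_nonneg_left ?_ (by positivity)
    have : (2 : ℝ) ^ (14 * n) = (2 ^ (7 * n)) ^ 2 := by rw [← pow_mul]; congr 1; ring
    rw [this]
    exact pow_le_pow_left₀ (by positivity) hch 2
  have hpow : (2 : ℝ) ^ (21 * n) = 2 ^ (14 * n) * 2 ^ (7 * n) := by rw [← pow_add]; congr 1; ring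
  rcases Nat.even_or_odd' i with ⟨c, hc | hc⟩
  · have h1 : i = 2 * (i / 2) := by omega
    rw [← h1] at hev
    refine hev.trans ?_
    rw [hpow, ← mul_assoc]
    exact le_mul_of_one_le_right (by positivity) (one_le_pow₀ (by norm_num))
  · have h1 : i = 2 * (i / 2) + 1 := by omega
    have h2 : range i = range (2 * (i / 2) + 1) := by rw [← h1]
    rw [h2, prod_range_succ, hpow, ← mul_assoc]
    have h3 : (2 * (i / 2)) / 2 = i / 2 := by omega
    rw [h3]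
    refine mul_le_mul hev ?_ (by positivity) (by positivity)
    have h4 : k + (i / 2 + 1) ≤ 2 ^ (7 * n) := by
      have := two_pow_ge n 7 (by norm_num)
      omega
    exact_mod_cast h4

lemma fac_ratio (n : ℕ) : (n.factorial : ℝ) / ((4 * n).factorial : ℝ) ≤
    2 ^ (5 * n) * (((2 * n).factorial : ℝ) / ((5 * n).factorial : ℝ)) := by
  have h1 : (5 * n).choose n * n.factorial * (4 * n).factorial = (5 * n).factorial := by
    have := Nat.choose_mul_factorial_mul_factorial (n := 5 * n) (k := n) (by omega)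
    have e : 5 * n - n = 4 * n := by omega
    rwa [e] at this
  have h2 : n.factorial * n.factorial ≤ (2 * n).factorial := by
    have := Nat.factorial_mul_factorial_dvd_factorial_add n n
    have e : n + n = 2 * n := by ring
    rw [e] at this
    exact Nat.le_of_dvd (Nat.factorial_pos _) this
  have h3 : (5 * n).choose n ≤ 2 ^ (5 * n) := Nat.choose_le_two_pow _ _
  have h4 : n.factorial * (5 * n).factorial ≤ 2 ^ (5 * n) * (2 * n).factorial * (4 * n).factorial := by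
    rw [← h1]
    calc n.factorial * ((5 * n).choose n * n.factorial * (4 * n).factorial) =
        (5 * n).choose n * (n.factorial * n.factorial) * (4 * n).factorial := by ring
      _ ≤ 2 ^ (5 * n) * (2 * n).factorial * (4 * n).factorial :=
        Nat.mul_le_mul_right _ (Nat.mul_le_mul h3 h2)
  have h5 : (n.factorial : ℝ) * ((5 * n).factorial : ℝ) ≤
      2 ^ (5 * n) * ((2 * n).factorial : ℝ) * ((4 * n).factorial : ℝ) := by exact_mod_cast h4
  have p4 : (0 : ℝ) < ((4 * n).factorial : ℝ) := by positivity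
  have p5 : (0 : ℝ) < ((5 * n).factorial : ℝ) := by positivity
  rw [mul_div_assoc', div_le_div_iff₀ p4 p5]
  exact h5

/-- the coefficient functional at the basis -/
lemma U_basis {Q : ℤ} (hQ : 1 ≤ |(Q : ℝ)|) {n i j : ℕ} (hn : 1 ≤ n) (hi : i ≤ 4 * n) (hj : j ≤ 4 * n) :
    |U Q n (5 * n) (bR i * bR j)| ≤ |(Q : ℝ)| ^ (5 * n) * 2 ^ (60 * n) *
      (((2 * n).factorial : ℝ) / ((5 * n).factorial : ℝ)) *
      (((i / 2).factorial : ℝ) ^ 2 * ((j / 2).factorial : ℝ) ^ 2) := by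
  have h1 := U_le hQ (n := n) (F := bR i * bR j)
    (A := (((i / 2).factorial : ℝ) ^ 2 * 2 ^ (21 * n)) * (((j / 2).factorial : ℝ) ^ 2 * 2 ^ (21 * n)))
    (fun k _ hk => by
      rw [eval_mul, abs_mul]
      exact mul_le_mul (bR_pole hn hi hk) (bR_pole hn hj hk) (abs_nonneg _) (by positivity))
  refine h1.trans ?_
  have h2 : (4 * (n : ℝ) + 1) ≤ 2 ^ (4 * n) := by
    exact_mod_cast two_pow_ge n 4 (by norm_num)
  have h3 := fac_ratio n
  obtain ⟨f, hf⟩ : ∃ f, f = (((i / 2).factorial : ℝ) ^ 2 * ((j / 2).factorial : ℝ) ^ 2) := ⟨_, rfl⟩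
  obtain ⟨w, hw⟩ : ∃ w, w = ((2 * n).factorial : ℝ) / ((5 * n).factorial : ℝ) := ⟨_, rfl⟩
  obtain ⟨g, hg⟩ : ∃ g, g = (n.factorial : ℝ) / ((4 * n).factorial : ℝ) := ⟨_, rfl⟩
  have hf0 : 0 ≤ f := by rw [hf]; positivity
  have hw0 : 0 ≤ w := by rw [hw]; positivity
  have hg0 : 0 ≤ g := by rw [hg]; positivity
  rw [← hw, ← hg] at h3
  rw [← hf, ← hw, ← hg]
  have e60 : (2 : ℝ) ^ (60 * n) = 2 ^ (4 * n) * (2 ^ (9 * n) * 2 ^ (5 * n)) * (2 ^ (21 * n) * 2 ^ (21 * n)) := by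
    rw [← pow_add, ← pow_add, ← pow_add, ← pow_add]; congr 1; ring
  have hq : 0 ≤ |(Q : ℝ)| ^ (5 * n) := by positivity
  calc (4 * (n : ℝ) + 1) * (|(Q : ℝ)| ^ (5 * n) * (2 ^ (9 * n) * g) *
        (((i / 2).factorial : ℝ) ^ 2 * 2 ^ (21 * n) * (((j / 2).factorial : ℝ) ^ 2 * 2 ^ (21 * n))))
      = (4 * (n : ℝ) + 1) * (|(Q : ℝ)| ^ (5 * n) * (2 ^ (9 * n) * g) * (f * (2 ^ (21 * n) * 2 ^ (21 * n)))) := by
        rw [hf]; ring
    _ ≤ 2 ^ (4 * n) * (|(Q : ℝ)| ^ (5 * n) * (2 ^ (9 * n) * (2 ^ (5 * n) * w)) *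
        (f * (2 ^ (21 * n) * 2 ^ (21 * n)))) := by
        refine mul_le_mul h2 ?_ (by positivity) (by positivity)
        refine mul_le_mul_of_nonneg_right ?_ (by positivity)
        refine mul_le_mul_of_nonneg_left ?_ hq
        exact mul_le_mul_of_nonneg_left h3 (by positivity)
    _ = _ := by rw [e60]; ring


end

end Pool.Agent.TH50.DQ.Mea
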