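import Pool.Agent.TH50.DQ.MeasB

/-!
# Linear independence measure, large `|Q|`: the determinant
-/

open Polynomial Filter Finset

namespace Pool.Agent.TH50.DQ.Mea

open Pool.Agent.TH50.DQ.Lrg

noncomputable section

/-- **the archimedean bound for approximate relations, `|Q| ≥ 20`** -/
theorem archM_large {Q : ℤ} (hQ : 20 ≤ |Q|) :
    ∃ K : ℝ, 1 ≤ K ∧ ∀ᶠ n : ℕ in atTop, ∀ m : ℕ, 4 * n - 1 ≤ m → m ≤ 4 * n + 1 → ∀ α β γ : ℤ,
      |del Q α β γ| ≤ Real.exp (-((7 * Real.log |(Q : ℝ)| + 60) * n)) →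
      |((DD Q n (5 * n) m α β γ : ℚ) : ℝ)| ≤ (K * (|(α : ℝ)| + |(β : ℝ)| + 1)) ^ m *
        Real.exp (4 * (n : ℝ) ^ 2 * Real.log n - (4 * Real.log |(Q : ℝ)| + 16.3) * (n : ℝ) ^ 2) := by
  have hQR : (20 : ℝ) ≤ |(Q : ℝ)| := by
    rw [← Int.cast_abs]
    exact_mod_cast hQ
  obtain ⟨S0, hS0⟩ : ∃ S0 : ℝ, S0 = ∑' v : ℕ, ((v : ℝ) + 1) ^ 2 * (16 / 20) ^ v := ⟨_, rfl⟩
  have hS0' : 0 ≤ S0 := by rw [hS0]; exact tsum_nonneg fun v => by positivity
  obtain ⟨C, hC, hfac⟩ := A_fac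
  obtain ⟨ℓ, hℓ⟩ : ∃ ℓ : ℝ, ℓ = Real.log |(Q : ℝ)| := ⟨_, rfl⟩
  have hl16 : Real.log 16 ≤ 2.77258873 := by
    have h2 := Real.log_two_lt_d9
    have : (16 : ℝ) = 2 ^ 4 := by norm_num
    rw [this, Real.log_pow]
    push_cast
    linarith
  have hl31 : Real.log 16 ≤ ℓ := by
    rw [hℓ]
    exact Real.log_le_log (by norm_num) (by linarith)
  have hl16' : 0 ≤ Real.log 16 := Real.log_nonneg (by norm_num)
  have hℓ0 : 0 ≤ ℓ := le_trans hl16' hl31
  have hρ : Real.log (16 / |(Q : ℝ)|) = Real.log 16 - ℓ := by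
    rw [hℓ, Real.log_div (by norm_num) (by positivity)]
  refine ⟨252 * (S0 + 1), by nlinarith, ?_⟩
  rw [← hℓ]
  filter_upwards [nlogn (30 + C + 6 * ℓ) 0.1 (by norm_num), eventually_ge_atTop 5] with n hsmall hn5 m hm1 hm2
    α β γ hdel
  obtain ⟨c, hc⟩ : ∃ c : ℝ, c = (|(α : ℝ)| + |(β : ℝ)| + 1) * 126 * (S0 + 1) := ⟨_, rfl⟩
  have hc0 : 0 < c := by rw [hc]; positivity
  have hc1 : 1 ≤ c := by
    rw [hc]
    have ha := abs_nonneg (α : ℝ)
    have hb := abs_nonneg (β : ℝ)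
    nlinarith
  have hK : 252 * (S0 + 1) * (|(α : ℝ)| + |(β : ℝ)| + 1) = 2 * c := by rw [hc]; ring
  rw [hK]
  have hn1 : 1 ≤ n := by omega
  obtain ⟨T, hTL, hTs⟩ := bridge (by omega : 2 ≤ |Q|) n (5 * n) α β γ
  rw [DD_real hTL]
  have hnR : (5 : ℝ) ≤ n := by exact_mod_cast hn5
  have hn0 : (0 : ℝ) < n := by linarith
  have hL1 : 1 ≤ Real.log n := by
    rw [Real.le_log_iff_exp_le hn0]
    linarith [Real.exp_one_lt_d9]
  obtain ⟨LW, hLW⟩ : ∃ LW : ℝ, LW = Real.log ((2 * n).factorial : ℝ) - Real.log ((5 * n).factorial : ℝ) := ⟨_, rfl⟩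
  have hW : ((2 * n).factorial : ℝ) / ((5 * n).factorial : ℝ) = Real.exp LW := by
    rw [hLW, Real.exp_sub, Real.exp_log (by positivity), Real.exp_log (by positivity)]
  obtain ⟨lf, hlf⟩ : ∃ lf : ℕ → ℝ, lf = fun i => Real.log ((i / 2).factorial : ℝ) := ⟨_, rfl⟩
  have hlf' : ∀ i, ((i / 2).factorial : ℝ) ^ 2 = Real.exp (2 * lf i) := by
    intro i
    rw [hlf]
    have : (2 : ℝ) * Real.log ((i / 2).factorial : ℝ) = ((2 : ℕ) : ℝ) * Real.log ((i / 2).factorial : ℝ) := by norm_num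
    simp only
    rw [this, Real.exp_nat_mul, Real.exp_log (by positivity)]
  have h3n : (n : ℝ) ^ 3 = Real.exp (3 * Real.log n) := by
    have : (3 : ℝ) * Real.log n = ((3 : ℕ) : ℝ) * Real.log n := by norm_num
    rw [this, Real.exp_nat_mul, Real.exp_log hn0]
  have hentry : ∀ i j : Fin m, |(Matrix.of fun i j : Fin m => (T + del Q (α : ℚ) (β : ℚ) (γ : ℚ) •
      U Q n (5 * n)) (bR i * bR j)) i j| ≤
      (2 * c * Real.exp (3 * Real.log n + LW + 2 * lf i + (((i : ℕ) / 2 : ℕ) : ℝ) * ((Real.log 16 - ℓ) / 2))) *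
      Real.exp (2 * lf j + (((j : ℕ) / 2 : ℕ) : ℝ) * ((Real.log 16 - ℓ) / 2)) := by
    intro i j
    rw [Matrix.of_apply]
    have hi : (i : ℕ) ≤ 4 * n := by omega
    have hj : (j : ℕ) ≤ 4 * n := by omega
    have hT1 : |T (bR i * bR j)| ≤ (c * Real.exp (3 * Real.log n + LW + 2 * lf i +
        (((i : ℕ) / 2 : ℕ) : ℝ) * ((Real.log 16 - ℓ) / 2))) *
        Real.exp (2 * lf j + (((j : ℕ) / 2 : ℕ) : ℝ) * ((Real.log 16 - ℓ) / 2)) := by
      have h1 := entry_le20 hQ hn1 hi hj ((α : ℚ) : ℝ) ((β : ℚ) : ℝ) hTs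
      rw [← hS0, hW, hlf', hlf'] at h1
      refine h1.trans ?_
      have hmax : (16 / |(Q : ℝ)|) ^ (max ((i : ℕ) / 2) ((j : ℕ) / 2)) ≤
          Real.exp ((((i : ℕ) / 2 : ℕ) : ℝ) * ((Real.log 16 - ℓ) / 2) +
            (((j : ℕ) / 2 : ℕ) : ℝ) * ((Real.log 16 - ℓ) / 2)) := by
        have h16 : 0 < 16 / |(Q : ℝ)| := by positivity
        rw [← Real.exp_log h16, ← Real.exp_nat_mul, hρ, Real.exp_le_exp]
        have h2 : ((((i : ℕ) / 2 : ℕ) : ℝ) + (((j : ℕ) / 2 : ℕ) : ℝ)) ≤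
            2 * ((max ((i : ℕ) / 2) ((j : ℕ) / 2) : ℕ) : ℝ) := by
          have := le_max_left ((i : ℕ) / 2) ((j : ℕ) / 2)
          have := le_max_right ((i : ℕ) / 2) ((j : ℕ) / 2)
          have : (i : ℕ) / 2 + (j : ℕ) / 2 ≤ 2 * max ((i : ℕ) / 2) ((j : ℕ) / 2) := by omega
          exact_mod_cast this
        nlinarith
      have hpoly : ((|((α : ℚ) : ℝ)| + |((β : ℚ) : ℝ)|) * (14 * n)) * (9 * (n : ℝ) ^ 2) * S0 ≤
          c * Real.exp (3 * Real.log n) := by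
        rw [← h3n, hc]
        push_cast
        have ha := abs_nonneg (α : ℝ)
        have hb := abs_nonneg (β : ℝ)
        have h3 : (|(α : ℝ)| + |(β : ℝ)|) * S0 ≤ (|(α : ℝ)| + |(β : ℝ)| + 1) * (S0 + 1) := by nlinarith
        have h4 : 0 ≤ 126 * (n : ℝ) ^ 3 := by positivity
        have h5 := mul_le_mul_of_nonneg_left h3 h4
        calc _ = 126 * (n : ℝ) ^ 3 * ((|(α : ℝ)| + |(β : ℝ)|) * S0) := by ring
          _ ≤ _ := h5
          _ = _ := by ring
      have h6 := mul_le_mul hpoly hmax (by positivity) (by positivity)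
      have h7 := mul_le_mul_of_nonneg_left h6 (Real.exp_pos (LW + 2 * lf i + 2 * lf j)).le
      have e1 : Real.exp (LW + 2 * lf i + 2 * lf j) = Real.exp LW * (Real.exp (2 * lf i) * Real.exp (2 * lf j)) := by
        rw [← Real.exp_add, ← Real.exp_add]; congr 1; ring
      calc _ = Real.exp (LW + 2 * lf i + 2 * lf j) *
            (((|((α : ℚ) : ℝ)| + |((β : ℚ) : ℝ)|) * (14 * n)) * (9 * (n : ℝ) ^ 2) * S0 *
              (16 / |(Q : ℝ)|) ^ (max ((i : ℕ) / 2) ((j : ℕ) / 2))) := by rw [e1]; ring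
        _ ≤ _ := h7
        _ = c * (Real.exp (LW + 2 * lf i + 2 * lf j) * (Real.exp (3 * Real.log n) *
            Real.exp ((((i : ℕ) / 2 : ℕ) : ℝ) * ((Real.log 16 - ℓ) / 2) +
              (((j : ℕ) / 2 : ℕ) : ℝ) * ((Real.log 16 - ℓ) / 2)))) := by ring
        _ = _ := by
          rw [← Real.exp_add, ← Real.exp_add, mul_assoc, ← Real.exp_add]
          congr 2
          ring
    have hU1 : |del Q (α : ℚ) (β : ℚ) (γ : ℚ) * U Q n (5 * n) (bR i * bR j)| ≤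
        (c * Real.exp (3 * Real.log n + LW + 2 * lf i +
        (((i : ℕ) / 2 : ℕ) : ℝ) * ((Real.log 16 - ℓ) / 2))) *
        Real.exp (2 * lf j + (((j : ℕ) / 2 : ℕ) : ℝ) * ((Real.log 16 - ℓ) / 2)) := by
      have h1 := U_basis (Q := Q) (by linarith) hn1 hi hj
      rw [hW, hlf', hlf'] at h1
      have hq : |(Q : ℝ)| ^ (5 * n) = Real.exp (5 * n * ℓ) := by
        have : (5 : ℝ) * n * ℓ = ((5 * n : ℕ) : ℝ) * ℓ := by push_cast; ring
        rw [this, Real.exp_nat_mul, hℓ, Real.exp_log (by positivity)]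
      have h2 : (2 : ℝ) ^ (60 * n) ≤ Real.exp (60 * n) := by
        have e1 : (2 : ℝ) ≤ Real.exp 1 := by linarith [Real.exp_one_gt_d9]
        have e2 : Real.exp (60 * n) = Real.exp 1 ^ (60 * n) := by
          rw [← Real.exp_nat_mul]; congr 1; push_cast; ring
        rw [e2]
        exact pow_le_pow_left₀ (by norm_num) e1 _
      have hd : |del Q ((α : ℚ) : ℝ) ((β : ℚ) : ℝ) ((γ : ℚ) : ℝ)| ≤ Real.exp (-((7 * ℓ + 60) * n)) := by
        push_cast
        exact hdel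
      rw [abs_mul]
      have h3 := mul_le_mul hd h1 (abs_nonneg _) (Real.exp_pos _).le
      refine h3.trans ?_
      have h4 : Real.exp (-((7 * ℓ + 60) * n)) * (|(Q : ℝ)| ^ (5 * n) * 2 ^ (60 * n) * Real.exp LW *
          (Real.exp (2 * lf i) * Real.exp (2 * lf j))) ≤
          Real.exp (-((7 * ℓ + 60) * n)) * (Real.exp (5 * n * ℓ) * Real.exp (60 * n) * Real.exp LW *
          (Real.exp (2 * lf i) * Real.exp (2 * lf j))) := by
        rw [hq]
        refine mul_le_mul_of_nonneg_left ?_ (Real.exp_pos _).le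
        refine mul_le_mul_of_nonneg_right ?_ (by positivity)
        refine mul_le_mul_of_nonneg_right ?_ (Real.exp_pos _).le
        exact mul_le_mul_of_nonneg_left h2 (Real.exp_pos _).le
      refine h4.trans ?_
      have e9 : Real.exp (-((7 * ℓ + 60) * n)) * (Real.exp (5 * n * ℓ) * Real.exp (60 * n) * Real.exp LW *
          (Real.exp (2 * lf i) * Real.exp (2 * lf j))) =
          Real.exp (-((7 * ℓ + 60) * n) + (5 * n * ℓ + 60 * n + LW + (2 * lf i + 2 * lf j))) := by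
        rw [Real.exp_add, Real.exp_add (5 * n * ℓ + 60 * n + LW), Real.exp_add (5 * n * ℓ + 60 * n),
          Real.exp_add (5 * n * ℓ), Real.exp_add (2 * lf i)]
      rw [e9, mul_assoc c, ← Real.exp_add]
      refine le_trans ?_ (le_mul_of_one_le_left (Real.exp_pos _).le hc1)
      rw [Real.exp_le_exp]
      have hki : (((i : ℕ) / 2 : ℕ) : ℝ) ≤ 2 * n := by
        have : (i : ℕ) / 2 ≤ 2 * n := by omega
        exact_mod_cast this
      have hkj : (((j : ℕ) / 2 : ℕ) : ℝ) ≤ 2 * n := by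
        have : (j : ℕ) / 2 ≤ 2 * n := by omega
        exact_mod_cast this
      have g1 : -(n * ℓ) ≤ (((i : ℕ) / 2 : ℕ) : ℝ) * ((Real.log 16 - ℓ) / 2) := by
        have e1 : (((i : ℕ) / 2 : ℕ) : ℝ) * ((Real.log 16 - ℓ) / 2) ≥ (2 * n) * ((Real.log 16 - ℓ) / 2) := by
          have : (Real.log 16 - ℓ) / 2 ≤ 0 := by linarith
          exact mul_le_mul_of_nonpos_right hki this
        have e2 : 0 ≤ n * Real.log 16 := by positivity
        nlinarith
      have g2 : -(n * ℓ) ≤ (((j : ℕ) / 2 : ℕ) : ℝ) * ((Real.log 16 - ℓ) / 2) := by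
        have e1 : (((j : ℕ) / 2 : ℕ) : ℝ) * ((Real.log 16 - ℓ) / 2) ≥ (2 * n) * ((Real.log 16 - ℓ) / 2) := by
          have : (Real.log 16 - ℓ) / 2 ≤ 0 := by linarith
          exact mul_le_mul_of_nonpos_right hkj this
        have e2 : 0 ≤ n * Real.log 16 := by positivity
        nlinarith
      linarith
    rw [LinearMap.add_apply, LinearMap.smul_apply, smul_eq_mul]
    refine (abs_add_le _ _).trans ?_
    have := add_le_add hT1 hU1
    linarith
  have hdet := leib m _ (fun i => 2 * c * Real.exp (3 * Real.log n + LW + 2 * lf i +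
    ((i / 2 : ℕ) : ℝ) * ((Real.log 16 - ℓ) / 2))) (fun j => Real.exp (2 * lf j + ((j / 2 : ℕ) : ℝ) *
    ((Real.log 16 - ℓ) / 2))) hentry
  refine hdet.trans ?_
  rw [prod_mul_distrib, prod_const, card_range, ← Real.exp_sum, ← Real.exp_sum]
  have hmn : (m : ℝ) ≤ 4 * n + 1 := by exact_mod_cast hm2
  have hm0 : (0 : ℝ) < m := by
    have : 0 < m := by omega
    exact_mod_cast this
  have hmf : (m.factorial : ℝ) ≤ Real.exp (m * Real.log m) := by
    rw [mul_comm, Real.exp_mul, Real.exp_log hm0, Real.rpow_natCast]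
    exact_mod_cast Nat.factorial_le_pow m
  have hcm : 0 < (2 * c) ^ m := pow_pos (by linarith) m
  rw [mul_assoc ((2 * c) ^ m), ← Real.exp_add]
  obtain ⟨E, hE⟩ : ∃ E : ℝ, E = ∑ i ∈ range m, (3 * Real.log n + LW + 2 * lf i +
    ((i / 2 : ℕ) : ℝ) * ((Real.log 16 - ℓ) / 2)) + ∑ j ∈ range m, (2 * lf j + ((j / 2 : ℕ) : ℝ) *
    ((Real.log 16 - ℓ) / 2)) := ⟨_, rfl⟩
  rw [← hE]
  have hEval : E = m * (3 * Real.log n) + (∑ i ∈ range m, 4 * lf i + m * LW) +
      (Real.log 16 - ℓ) * ∑ i ∈ range m, ((i / 2 : ℕ) : ℝ) := by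
    rw [hE, ← sum_add_distrib]
    have : ∀ i ∈ range m, (3 * Real.log n + LW + 2 * lf i + ((i / 2 : ℕ) : ℝ) * ((Real.log 16 - ℓ) / 2) +
        (2 * lf i + ((i / 2 : ℕ) : ℝ) * ((Real.log 16 - ℓ) / 2))) =
        (3 * Real.log n + LW) + 4 * lf i + (Real.log 16 - ℓ) * ((i / 2 : ℕ) : ℝ) := by
      intro i _
      ring
    have e3 : ∑ i ∈ range m, (Real.log 16 - ℓ) * ((i / 2 : ℕ) : ℝ) = (Real.log 16 - ℓ) *
        ∑ i ∈ range m, ((i / 2 : ℕ) : ℝ) := (mul_sum _ _ _).symm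
    rw [sum_congr rfl this, sum_add_distrib, sum_add_distrib, sum_const, card_range, nsmul_eq_mul, e3]
    ring
  have hf := hfac n (by omega) m hm1 hm2
  have hf' : ∑ i ∈ range m, 4 * lf i + m * LW ≤ 4 * (n : ℝ) ^ 2 * Real.log n - 27.5 * (n : ℝ) ^ 2 +
      C * n * Real.log n := by
    rw [hlf, hLW]
    exact hf
  have hs := mul_le_mul_of_nonpos_left (sum_half hn1 hm1) (by linarith : Real.log 16 - ℓ ≤ 0)
  have hlogm : Real.log m ≤ 2 * Real.log n := by
    rw [two_mul, ← Real.log_mul hn0.ne' hn0.ne']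
    apply Real.log_le_log hm0
    nlinarith
  have b1 : (m : ℝ) * Real.log m ≤ 10 * (n * Real.log n) := by
    have h9 : (m : ℝ) ≤ 5 * n := by linarith
    calc (m : ℝ) * Real.log m ≤ m * (2 * Real.log n) := mul_le_mul_of_nonneg_left hlogm hm0.le
      _ ≤ (5 * n) * (2 * Real.log n) := mul_le_mul_of_nonneg_right h9 (by linarith)
      _ = 10 * (n * Real.log n) := by ring
  have b2 : (m : ℝ) * (3 * Real.log n) ≤ 15 * (n * Real.log n) := by
    have h9 : (m : ℝ) ≤ 5 * n := by linarith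
    calc (m : ℝ) * (3 * Real.log n) ≤ (5 * n) * (3 * Real.log n) := mul_le_mul_of_nonneg_right h9 (by linarith)
      _ = 15 * (n * Real.log n) := by ring
  have b3 : (ℓ - Real.log 16) * (6 * n) ≤ 6 * ℓ * (n * Real.log n) := by
    have e1 : (ℓ - Real.log 16) * (6 * n) ≤ ℓ * (6 * n) := mul_le_mul_of_nonneg_right (by linarith) (by positivity)
    have e2 : ℓ * (6 * n) * 1 ≤ ℓ * (6 * n) * Real.log n := mul_le_mul_of_nonneg_left hL1 (by positivity)
    linarith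
  have b4 : Real.log 16 * (4 * (n : ℝ) ^ 2) ≤ 2.77258873 * (4 * (n : ℝ) ^ 2) :=
    mul_le_mul_of_nonneg_right hl16 (by positivity)
  calc (m.factorial : ℝ) * ((2 * c) ^ m * Real.exp E) = (2 * c) ^ m * ((m.factorial : ℝ) * Real.exp E) := by ring
    _ ≤ (2 * c) ^ m * (Real.exp (m * Real.log m) * Real.exp E) :=
        mul_le_mul_of_nonneg_left (mul_le_mul_of_nonneg_right hmf (Real.exp_pos _).le) hcm.le
    _ = (2 * c) ^ m * Real.exp (m * Real.log m + E) := by rw [Real.exp_add]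
    _ ≤ _ := by
        refine mul_le_mul_of_nonneg_left (Real.exp_le_exp.2 ?_) hcm.le
        rw [hEval]
        have g1 : (Real.log 16 - ℓ) * ∑ i ∈ range m, ((i / 2 : ℕ) : ℝ) ≤
            Real.log 16 * (4 * (n : ℝ) ^ 2) - 4 * ℓ * (n : ℝ) ^ 2 + (ℓ - Real.log 16) * (6 * n) := by
          refine hs.trans (le_of_eq ?_)
          ring
        have g2 : (30 + C + 6 * ℓ) * (n * Real.log n) = 30 * (n * Real.log n) + C * n * Real.log n +
            6 * ℓ * (n * Real.log n) := by ring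
        have g3 : (4 * ℓ + 16.3) * (n : ℝ) ^ 2 = 4 * ℓ * (n : ℝ) ^ 2 + 16.3 * (n : ℝ) ^ 2 := by ring
        have g4 : 0 ≤ (n : ℝ) ^ 2 := sq_nonneg _
        have g5 : 0 ≤ n * Real.log n := by positivity
        rw [g3]
        rw [g2] at hsmall
        linarith

end

end Pool.Agent.TH50.DQ.Mea
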