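import Pool.Agent.TH50.DQ.MeasD
import Pool.Agent.TH50.DQ.Main

/-!
# Linear independence measure for `1, log(1 - 1/Q), Li₂(1/Q)`
-/

open Filter Topology

namespace Pool.Agent.TH50.DQ.Mea

noncomputable section

/-- the archimedean bound for approximate relations -/
def ArchM (Q : ℤ) (C₁ B : ℝ) : Prop := ∃ K : ℝ, 1 ≤ K ∧ ∃ N₀ : ℕ, ∀ N ≥ N₀, ∀ m : ℕ,
  4 * (10000 * N) - 1 ≤ m → m ≤ 4 * (10000 * N) + 1 → ∀ α β γ : ℤ,
  |del Q α β γ| ≤ Real.exp (-(C₁ * (10000 * N))) →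
  |((DD Q (10000 * N) (5 * (10000 * N)) m α β γ : ℚ) : ℝ)| ≤ (K * (|(α : ℝ)| + |(β : ℝ)| + 1)) ^ m *
    Real.exp (4 * (10000 * (N : ℝ)) ^ 2 * Real.log (10000 * (N : ℝ)) - B * (10000 * (N : ℝ)) ^ 2)

theorem archM_three {Q : ℤ} (hQ : 3 ≤ |Q|) : ArchM Q (47 + 5 * Real.log |(Q : ℝ)|) 24.14 := by
  have hQr : 3 ≤ |(Q : ℝ)| := by
    rw [← Int.cast_abs]
    exact_mod_cast hQ
  have hl3 : (1.0986 : ℝ) ≤ Real.log |(Q : ℝ)| := by
    have h7 := Real.log_three_gt_d9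
    have h8 : Real.log 3 ≤ Real.log |(Q : ℝ)| := Real.log_le_log (by norm_num) hQr
    linarith
  obtain ⟨N0, hN0⟩ := archM_core A_QQ (lq := 1.0986) (κ := 4.11) (by linarith [hQ] : 2 ≤ |Q|)
    (by norm_num) (by norm_num) A_cert3 A_tail hl3
  refine ⟨2, by norm_num, N0, ?_⟩
  intro N hN m hm1 hm2 α β γ hd
  have h := hN0 N hN m hm1 hm2 α β γ hd
  have e : (4 * 4.11 + 7.7 : ℝ) = 24.14 := by norm_num
  rw [e] at h
  exact h

theorem archM_four {Q : ℤ} (hQ : 4 ≤ |Q|) : ArchM Q (47 + 5 * Real.log |(Q : ℝ)|) 28.22 := by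
  have hQr : 4 ≤ |(Q : ℝ)| := by
    rw [← Int.cast_abs]
    exact_mod_cast hQ
  have hl4 : (1.3862 : ℝ) ≤ Real.log |(Q : ℝ)| := by
    have h7 := Real.log_two_gt_d9
    have h9 : (4 : ℝ) = 2 ^ 2 := by norm_num
    have h8 : Real.log 4 ≤ Real.log |(Q : ℝ)| := Real.log_le_log (by norm_num) hQr
    rw [h9, Real.log_pow] at h8
    push_cast at h8
    linarith
  have ht : ∀ v : ℝ, 24 ≤ v → 2 * UU v + TH844.DL.Ph v ≤ 1.3862 * v - 5.13 - (v - 24) / 4 := by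
    intro v hv
    have := A_tail v hv
    linarith
  obtain ⟨N0, hN0⟩ := archM_core A_QQ (lq := 1.3862) (κ := 5.13) (by linarith [hQ] : 2 ≤ |Q|)
    (by norm_num) (by norm_num) A_cert4 ht hl4
  refine ⟨2, by norm_num, N0, ?_⟩
  intro N hN m hm1 hm2 α β γ hd
  have h := hN0 N hN m hm1 hm2 α β γ hd
  have e : (4 * 5.13 + 7.7 : ℝ) = 28.22 := by norm_num
  rw [e] at h
  exact h

theorem archM_twenty {Q : ℤ} (hQ : 20 ≤ |Q|) :
    ArchM Q (7 * Real.log |(Q : ℝ)| + 60) (4 * Real.log |(Q : ℝ)| + 16.3) := by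
  obtain ⟨K, hK, hev⟩ := archM_large hQ
  obtain ⟨N0, hN0⟩ := eventually_atTop.1 hev
  refine ⟨K, hK, N0, ?_⟩
  intro N hN m hm1 hm2 α β γ hd
  have h := hN0 (10000 * N) (by omega) m hm1 hm2 α β γ (by push_cast; exact hd)
  push_cast at h
  exact h

/-- the contradiction at one level -/
theorem contra {Q : ℤ} (hQ : Q ≠ 0) (hQ1 : Q ≠ 1) {B lam μ : ℝ} (hμ0 : 0 < μ) (hlm : 5 ≤ lam * μ)
    (hB0 : 23.78 - 5 * Real.log |(Q : ℝ)| + 25 / 4 * Real.log |((Q - 1 : ℤ) : ℝ)| + μ ≤ B)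
    {α β γ : ℤ} (hne' : α ≠ 0 ∨ β ≠ 0) {n : ℕ} (hn1 : 1 ≤ n) (hnQ : (Q * (Q - 1)).natAbs < n)
    (hPn : ∀ m : ℕ, 4 * n - 1 ≤ m → m ≤ 4 * n + 1 → ∀ α β γ : ℤ,
      DD Q n (5 * n) m α β γ ≠ 0 →
      ∑ p ∈ (Finset.range (5 * n + 1)).filter Nat.Prime,
        Real.log ((padicNorm p (DD Q n (5 * n) m α β γ) : ℚ) : ℝ) ≤
      -(4 * (n : ℝ) ^ 2 * Real.log n) +
        (23.78 - 5 * Real.log |(Q : ℝ)| + 25 / 4 * Real.log |((Q - 1 : ℤ) : ℝ)|) * (n : ℝ) ^ 2)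
    {c : ℝ} (hc1 : 1 ≤ c) (hnlow : lam * Real.log c < n)
    (hB : ∀ m : ℕ, 4 * n - 1 ≤ m → m ≤ 4 * n + 1 →
      |((DD Q n (5 * n) m α β γ : ℚ) : ℝ)| ≤ c ^ m *
        Real.exp (4 * (n : ℝ) ^ 2 * Real.log n - B * (n : ℝ) ^ 2)) : False := by
  have hne : ((α : ℤ) : ℚ) ≠ 0 ∨ ((β : ℤ) : ℚ) ≠ 0 := by
    rcases hne' with h | h
    · left; exact_mod_cast h
    · right; exact_mod_cast h
  have hlc : 0 ≤ Real.log c := Real.log_nonneg hc1
  obtain ⟨m, hm1, hm2, hD⟩ := A_nv Q hQ hQ1 n hn1 (α : ℚ) (β : ℚ) (γ : ℚ) hne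
  have hA := hB m hm1 hm2
  have hP := hPn m hm1 hm2 α β γ hD
  set z : ℚ := DD Q n (5 * n) m α β γ with hz
  set S : Finset ℕ := (Finset.range (5 * n + 1)).filter Nat.Prime with hS
  have hpf := Pool.Agent.H336R2.HD.A5_prod_formula z hD S (fun p hp => (Finset.mem_filter.1 hp).2)
    (fun p => ((padicNorm p z : ℚ) : ℝ)) (fun p _ => le_rfl) (fun p hp hpS => by
      rw [hS, Finset.mem_filter, Finset.mem_range] at hpS
      have h1 : 5 * n < p := by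
        by_contra h; exact hpS ⟨by omega, hp⟩
      have h2 : ¬ (p : ℤ) ∣ Q * (Q - 1) := by
        intro h
        have h3 : p ∣ (Q * (Q - 1)).natAbs := Int.natCast_dvd.1 h
        have h4 : (Q * (Q - 1)).natAbs ≠ 0 := by
          rw [Int.natAbs_ne_zero]
          exact mul_ne_zero hQ (by omega)
        have h5 := Nat.le_of_dvd (Nat.pos_of_ne_zero h4) h3
        omega
      exact A_big Q hQ hQ1 n p m hp hn1 h2 h1 hm2 α β γ)
  have hpos : ∀ p ∈ S, 0 < ((padicNorm p z : ℚ) : ℝ) := by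
    intro p hp
    have : Fact p.Prime := ⟨(Finset.mem_filter.1 hp).2⟩
    have h1 : 0 < padicNorm p z := lt_of_le_of_ne (padicNorm.nonneg _) (Ne.symm (padicNorm.nonzero hD))
    exact_mod_cast h1
  have hprodpos : 0 < ∏ p ∈ S, ((padicNorm p z : ℚ) : ℝ) := Finset.prod_pos hpos
  have hzabs : 0 < |(z : ℝ)| := abs_pos.2 (by exact_mod_cast hD)
  have hlog := Real.log_nonneg hpf
  rw [Real.log_mul hzabs.ne' hprodpos.ne', Real.log_prod (fun p hp => (hpos p hp).ne')] at hlog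
  have hlz : Real.log |(z : ℝ)| ≤ m * Real.log c + (4 * (n : ℝ) ^ 2 * Real.log n - B * (n : ℝ) ^ 2) := by
    calc Real.log |(z : ℝ)| ≤ Real.log (c ^ m * Real.exp (4 * (n : ℝ) ^ 2 * Real.log n - B * (n : ℝ) ^ 2)) :=
          Real.log_le_log hzabs hA
      _ = m * Real.log c + (4 * (n : ℝ) ^ 2 * Real.log n - B * (n : ℝ) ^ 2) := by
          rw [Real.log_mul (by positivity) (Real.exp_pos _).ne', Real.log_pow, Real.log_exp]
  have hn0 : (1 : ℝ) ≤ n := by exact_mod_cast hn1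
  have hmq : (m : ℝ) * Real.log c ≤ 5 * n * Real.log c := by
    apply mul_le_mul_of_nonneg_right _ hlc
    have : (m : ℝ) ≤ 4 * n + 1 := by exact_mod_cast hm2
    linarith
  have h1 : 5 * n * Real.log c < μ * (n : ℝ) ^ 2 := by
    have h4 : 5 * (n * Real.log c) ≤ lam * μ * (n * Real.log c) :=
      mul_le_mul_of_nonneg_right hlm (by positivity)
    have h5 : μ * n * (lam * Real.log c) < μ * n * n := mul_lt_mul_of_pos_left hnlow (by positivity)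
    nlinarith
  have h2 : 0 < (n : ℝ) ^ 2 := by positivity
  have h3 := mul_le_mul_of_nonneg_right hB0 h2.le
  nlinarith

/-- the measure from the archimedean bound -/
theorem measure_of {Q : ℤ} (hQ : Q ≠ 0) (hQ1 : Q ≠ 1) {B C₁ μ κ : ℝ} (hμ0 : 0 < μ) (hC : 0 < C₁)
    (hκ : 5 * C₁ ≤ κ * μ)
    (hB0 : 23.78 - 5 * Real.log |(Q : ℝ)| + 25 / 4 * Real.log |((Q - 1 : ℤ) : ℝ)| + μ ≤ B)
    (hA : ArchM Q C₁ B) : ∃ c : ℝ, 0 < c ∧ ∀ α β γ : ℤ, (α ≠ 0 ∨ β ≠ 0) →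
      c * (|(α : ℝ)| + |(β : ℝ)| + 1) ^ (-κ) ≤ |del Q α β γ| := by
  obtain ⟨K, hK, N₀, hN₀⟩ := hA
  obtain ⟨P₀, hP₀⟩ := eventually_atTop.1 (P_main hQ hQ1)
  obtain ⟨M₀, hM₀⟩ : ∃ M₀ : ℕ, M₀ = N₀ + P₀ + (Q * (Q - 1)).natAbs + 1 := ⟨_, rfl⟩
  have hK0 : 0 < K := by linarith
  obtain ⟨lam, hlam⟩ : ∃ lam : ℝ, lam = κ / C₁ := ⟨_, rfl⟩
  have hlC : lam * C₁ = κ := by rw [hlam]; field_simp
  have hlm : 5 ≤ lam * μ := by
    rw [hlam, div_mul_eq_mul_div, le_div_iff₀ hC]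
    exact hκ
  have hlam0 : 0 < lam := by
    by_contra hcon
    rw [not_lt] at hcon
    nlinarith
  refine ⟨Real.exp (-(C₁ * (10000 * (M₀ + 2)))) * K ^ (-κ), by positivity, ?_⟩
  intro α β γ hne
  obtain ⟨h, hh⟩ : ∃ h : ℝ, h = |(α : ℝ)| + |(β : ℝ)| + 1 := ⟨_, rfl⟩
  rw [← hh]
  have hh1 : 1 ≤ h := by
    rw [hh]
    have ha := abs_nonneg (α : ℝ)
    have hb := abs_nonneg (β : ℝ)
    linarith
  have hKh : 1 ≤ K * h := by nlinarith
  obtain ⟨x, hx⟩ : ∃ x : ℝ, x = lam * Real.log (K * h) := ⟨_, rfl⟩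
  have hx0 : 0 ≤ x := by
    rw [hx]
    have := Real.log_nonneg hKh
    positivity
  obtain ⟨N, hN⟩ : ∃ N : ℕ, N = M₀ + ⌈x / 10000⌉₊ := ⟨_, rfl⟩
  have hceil1 := Nat.le_ceil (x / 10000)
  have hceil2 := Nat.ceil_lt_add_one (show 0 ≤ x / 10000 by positivity)
  have hNR : (N : ℝ) = M₀ + ⌈x / 10000⌉₊ := by rw [hN]; push_cast; rfl
  have hM1 : (1 : ℝ) ≤ M₀ := by
    have : 1 ≤ M₀ := by omega
    exact_mod_cast this
  have hlow : lam * Real.log (K * h) < ((10000 * N : ℕ) : ℝ) := by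
    rw [← hx]
    push_cast
    rw [hNR]
    linarith
  have hup : (10000 : ℝ) * N ≤ x + 10000 * (M₀ + 2) := by
    rw [hNR]
    linarith
  have hgt : Real.exp (-(C₁ * (10000 * N))) < |del Q α β γ| := by
    by_contra hcon
    rw [not_lt] at hcon
    refine contra hQ hQ1 hμ0 hlm hB0 hne (γ := γ) (n := 10000 * N) (by omega) (by omega) (hP₀ (10000 * N) (by omega)) hKh hlow ?_
    intro m hm1 hm2
    have := hN₀ N (by omega) m hm1 hm2 α β γ hcon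
    rw [← hh] at this
    push_cast
    exact this
  refine le_trans ?_ hgt.le
  have hh0 : 0 < h := by linarith
  have e1 : K ^ (-κ) * h ^ (-κ) = Real.exp (-(C₁ * x)) := by
    rw [← Real.mul_rpow hK0.le hh0.le, Real.rpow_def_of_pos (by positivity), hx, ← hlC]
    congr 1
    ring
  rw [mul_assoc, e1, ← Real.exp_add, Real.exp_le_exp]
  have := mul_le_mul_of_nonneg_left hup hC.le
  linarith

/-- bounds for `log 20` -/
lemma log_twenty : 2.985 ≤ Real.log 20 ∧ Real.log 20 ≤ 2.9999 := by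
  have h2 := Real.log_two_gt_d9
  have h2' := Real.log_two_lt_d9
  constructor
  · have h5 : (2 : ℝ) ^ 56 ≤ 20 ^ 13 := by norm_num
    have h6 := Real.log_le_log (by positivity) h5
    rw [Real.log_pow, Real.log_pow] at h6
    push_cast at h6
    linarith
  · have h5 : (20 : ℝ) ^ 31 ≤ 2 ^ 134 := by norm_num
    have h6 := Real.log_le_log (by positivity) h5
    rw [Real.log_pow, Real.log_pow] at h6
    push_cast at h6
    linarith

/-- the numerical condition for `|Q| ≥ 20` -/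
lemma cond_large {Q : ℤ} (hQ : 20 ≤ |Q|) :
    23.78 - 5 * Real.log |(Q : ℝ)| + 25 / 4 * Real.log |((Q - 1 : ℤ) : ℝ)| + (2.75 * Real.log |(Q : ℝ)| - 7.8) ≤
      4 * Real.log |(Q : ℝ)| + 16.3 := by
  have hQR : (20 : ℝ) ≤ |(Q : ℝ)| := by
    rw [← Int.cast_abs]
    exact_mod_cast hQ
  have hQ1 : Q ≠ 1 := by
    intro h0; rw [h0] at hQ; norm_num at hQ
  have h4 : Real.log |((Q - 1 : ℤ) : ℝ)| ≤ Real.log |(Q : ℝ)| + 1 / 20 := by
    have h5 : |((Q - 1 : ℤ) : ℝ)| ≤ |(Q : ℝ)| * (21 / 20) := by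
      push_cast
      have := abs_sub (Q : ℝ) 1
      rw [abs_one] at this
      linarith
    have h6 : 0 < |((Q - 1 : ℤ) : ℝ)| := abs_pos.2 (by
      have : Q - 1 ≠ 0 := by omega
      exact_mod_cast this)
    have h7 := Real.log_le_log h6 h5
    rw [Real.log_mul (by linarith) (by norm_num)] at h7
    have h8 := Real.log_le_sub_one_of_pos (show (0 : ℝ) < 21 / 20 by norm_num)
    linarith
  linarith

lemma cond' {Q : ℤ} (hQ : Q ≠ 0) (hQ1 : Q ≠ 1) {K B μ : ℝ} (hK : 0 < K)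
    (h1 : (|((Q - 1 : ℤ) : ℝ)|) ^ 25 ≤ K * (|(Q : ℝ)|) ^ 20) (h2 : Real.log K ≤ 4 * (B - 23.78 - μ)) :
    23.78 - 5 * Real.log |(Q : ℝ)| + 25 / 4 * Real.log |((Q - 1 : ℤ) : ℝ)| + μ ≤ B := by
  have ha : 0 < |(Q : ℝ)| := abs_pos.2 (by exact_mod_cast hQ)
  have hb : 0 < |((Q - 1 : ℤ) : ℝ)| := abs_pos.2 (by
    have : Q - 1 ≠ 0 := by omega
    exact_mod_cast this)
  have h3 := Real.log_le_log (by positivity) h1
  rw [Real.log_pow, Real.log_mul hK.ne' (by positivity), Real.log_pow] at h3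
  push_cast at h3 ⊢
  linarith

lemma log_K3 : Real.log 10000000 ≤ 4 * (28.22 - 23.78 - 0.31) := by
  have h2' := Real.log_two_lt_d9
  have h5 : (10000000 : ℝ) ^ 4 ≤ 2 ^ 94 := by norm_num
  have h6 := Real.log_le_log (by positivity) h5
  rw [Real.log_pow, Real.log_pow] at h6
  push_cast at h6
  norm_num at h6 ⊢
  linarith

/-- the measure, in terms of `li` -/
theorem measure_li {Q : ℤ} (hQ : 3 ≤ Q ∨ Q ≤ -4) : ∃ c : ℝ, 0 < c ∧ ∀ α β γ : ℤ, (α ≠ 0 ∨ β ≠ 0) →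
    c * (|(α : ℝ)| + |(β : ℝ)| + 1) ^ (-(1000 : ℝ)) ≤ |del Q α β γ| := by
  have hQ0 : Q ≠ 0 := by omega
  have hQ1 : Q ≠ 1 := by omega
  have hQ3 : 3 ≤ |Q| := by
    rcases hQ with h | h
    · rw [abs_of_nonneg (by omega)]; omega
    · rw [abs_of_nonpos (by omega)]; omega
  have hQ3r : 3 ≤ |(Q : ℝ)| := by
    rw [← Int.cast_abs]
    exact_mod_cast hQ3
  have hl0 : 0 ≤ Real.log |(Q : ℝ)| := Real.log_nonneg (by linarith)
  obtain ⟨l1, l2⟩ := log_twenty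
  by_cases h20 : 20 ≤ |Q|
  · have hl : Real.log 20 ≤ Real.log |(Q : ℝ)| := by
      refine Real.log_le_log (by norm_num) ?_
      rw [← Int.cast_abs]
      exact_mod_cast h20
    exact measure_of hQ0 hQ1 (μ := 2.75 * Real.log |(Q : ℝ)| - 7.8) (by linarith) (by linarith) (by linarith)
      (cond_large h20) (archM_twenty h20)
  · have hl : Real.log |(Q : ℝ)| ≤ Real.log 20 := by
      refine Real.log_le_log (by linarith) ?_
      rw [← Int.cast_abs]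
      exact_mod_cast (not_le.1 h20).le
    rw [not_le, abs_lt] at h20
    have hk : 5 * (47 + 5 * Real.log |(Q : ℝ)|) ≤ (1000 : ℝ) * 0.32 := by linarith
    have hk' : 0 < 47 + 5 * Real.log |(Q : ℝ)| := by linarith
    by_cases h3 : Q = 3
    · subst h3
      refine measure_of hQ0 hQ1 (μ := 0.32) (by norm_num) hk' hk
        (cond' hQ0 hQ1 (K := 1) one_pos ?_ ?_) (archM_three (by norm_num))
      · norm_num
      · rw [Real.log_one]; norm_num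
    · refine measure_of hQ0 hQ1 (μ := 0.31) (by norm_num) (by linarith) (by linarith)
        (cond' hQ0 hQ1 (K := 10000000) (by norm_num) ?_ log_K3) (archM_four ?_)
      · obtain ⟨ha, hb⟩ := h20
        rcases hQ with hQ | hQ
        · interval_cases Q <;> first | omega | norm_num
        · interval_cases Q <;> norm_num [abs_of_nonneg, abs_of_nonpos]
      · rcases hQ with hQ | hQ
        · rw [abs_of_nonneg (by omega)]; omega
        · rw [abs_of_nonpos (by omega)]; omega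

/-- **the measure** -/
theorem measure {Q : ℤ} (hQ : 3 ≤ Q ∨ Q ≤ -4) : ∃ c : ℝ, 0 < c ∧ ∀ α β γ : ℤ, (α ≠ 0 ∨ β ≠ 0) →
    c / (max |(α : ℝ)| |(β : ℝ)|) ^ 1000 ≤
      |(γ : ℝ) + α * Real.log (1 - 1 / (Q : ℝ)) + β * li Q 2| := by
  obtain ⟨c, hc, h⟩ := measure_li hQ
  have hQ2 : 2 ≤ |Q| := by
    rcases hQ with h | h
    · rw [abs_of_nonneg (by omega)]; omega
    · rw [abs_of_nonpos (by omega)]; omega
  refine ⟨c * 3 ^ (-(1000 : ℝ)), by positivity, ?_⟩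
  intro α β γ hne
  have h1 := h (-α) β γ (by omega)
  have e1 : del Q ((-α : ℤ) : ℝ) β γ = (γ : ℝ) + α * Real.log (1 - 1 / (Q : ℝ)) + β * li Q 2 := by
    unfold del
    rw [li_one hQ2]
    push_cast
    ring
  rw [e1] at h1
  refine le_trans ?_ h1
  have e2 : |((-α : ℤ) : ℝ)| = |(α : ℝ)| := by push_cast; rw [abs_neg]
  rw [e2]
  obtain ⟨M, hM⟩ : ∃ M : ℝ, M = max |(α : ℝ)| |(β : ℝ)| := ⟨_, rfl⟩
  rw [← hM]
  have hM1 : 1 ≤ M := by
    rw [hM]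
    rcases hne with h | h
    · refine le_max_of_le_left ?_
      rw [← Int.cast_abs]
      exact_mod_cast Int.one_le_abs h
    · refine le_max_of_le_right ?_
      rw [← Int.cast_abs]
      exact_mod_cast Int.one_le_abs h
  have hM0 : 0 < M := by linarith
  have hle : |(α : ℝ)| + |(β : ℝ)| + 1 ≤ 3 * M := by
    have a1 : |(α : ℝ)| ≤ M := by rw [hM]; exact le_max_left _ _
    have a2 : |(β : ℝ)| ≤ M := by rw [hM]; exact le_max_right _ _
    linarith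
  have hpos : 0 < |(α : ℝ)| + |(β : ℝ)| + 1 := by positivity
  have h2 : (3 * M) ^ (-(1000 : ℝ)) ≤ (|(α : ℝ)| + |(β : ℝ)| + 1) ^ (-(1000 : ℝ)) :=
    Real.rpow_le_rpow_of_nonpos hpos hle (by norm_num)
  rw [Real.mul_rpow (by norm_num) hM0.le] at h2
  have e3 : M ^ (-(1000 : ℝ)) = 1 / M ^ 1000 := by
    rw [Real.rpow_neg hM0.le, one_div]
    congr 1
    exact_mod_cast Real.rpow_natCast M 1000
  calc c * 3 ^ (-(1000 : ℝ)) / M ^ 1000 = c * (3 ^ (-(1000 : ℝ)) * M ^ (-(1000 : ℝ))) := by rw [e3]; ring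
    _ ≤ _ := mul_le_mul_of_nonneg_left h2 hc.le

end

end Pool.Agent.TH50.DQ.Mea
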