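import Pool.Agent.TH50.DQ.MeasA
import Pool.Agent.TH75.DQ.Line
import Pool.Agent.H297R2.LPM.Arch3

/-!
# Linear independence measure, `Q ≤ -2`: the line formula with a defect, the Lagrange basis

Port of `Pool/Agent/H297R2/LPM/Line.lean`, `Arch1.lean`, `Arch2.lean` and of
`Pool/Agent/TH169/DQ/ArchN.lean`.
-/

open Polynomial MeasureTheory Filter Topology

namespace Pool.Agent.TH50.DQ.Mea

open Pool.Agent.LP Pool.Agent.LP.MS Pool.Agent.LPB.GramAux
open Pool.Agent.TH50.DQ Pool.Agent.TH50.DQ.LineA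

noncomputable section

lemma Hw_val_gen {Q : ℤ} (hQ : Q ≤ -2) (k : ℕ) (α β γ : ℚ) :
    (((α : ℚ) : ℝ) : ℂ) * Hw (wQ Q) 0 k + (((β : ℚ) : ℝ) : ℂ) * Hw (wQ Q) 1 k =
      (((Q : ℚ) ^ k * (γ + α * Tz Q 1 k + β * Tz Q 2 k) : ℚ) : ℂ) - (Q : ℂ) ^ k * ((del Q α β γ : ℝ) : ℂ) := by
  have hQ0 : (Q : ℂ) ≠ 0 := by
    intro h
    have : Q = 0 := by exact_mod_cast h
    omega
  have h0 := Hw_Tz hQ 0 (by norm_num) k
  have h1 := Hw_Tz hQ 1 le_rfl k
  rw [Hw_zero hQ 0 (by norm_num)] at h0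
  rw [Hw_zero hQ 1 le_rfl] at h1
  simp only [zero_add] at h0
  have h3 : (1 + 1 : ℕ) = 2 := rfl
  rw [h3] at h1
  have hs : (Q : ℂ) ^ k * (1 / (Q : ℂ)) ^ k = 1 := by
    rw [← mul_pow, mul_one_div_cancel hQ0, one_pow]
  unfold del
  push_cast
  linear_combination (-((α : ℂ) * Hw (wQ Q) 0 k + (β : ℂ) * Hw (wQ Q) 1 k)) * hs +
    (Q : ℂ) ^ k * ((α : ℂ) * h0 + (β : ℂ) * h1)

/-- the general line formula -/
theorem A_line_gen {Q : ℤ} (hQ : Q ≤ -2) (a b : ℕ) (α β γ : ℚ) (f : ℚ[X]) :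
    ((L Q a b α β γ f : ℚ) : ℂ) = (∫ y : ℝ, aeval (zl y) f * GwQ Q a b α β y) +
      ((del Q α β γ : ℝ) : ℂ) * ((∑ k ∈ Finset.Icc a b, (Q : ℚ) ^ k * rs a b f k : ℚ) : ℂ) := by
  have hz := Pool.Agent.H757R2.LP.zl_k_ne
  have h1 : ∀ y : ℝ, aeval (zl y) f * GwQ Q a b α β y =
      aeval (zl y) (pp a b f) * kerQ Q α β y +
      ∑ k ∈ Finset.Icc a b, ((rs a b f k : ℚ) : ℂ) * ((zl y + k)⁻¹ * kerQ Q α β y) := by
    intro y
    unfold GwQ
    rw [← mul_assoc, Pool.Agent.H757R2.LP.pf a b f (zl y) (hz y), add_mul, Finset.sum_mul]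
    congr 1
    refine Finset.sum_congr rfl fun k _ => ?_
    ring
  rw [integral_congr_ae (Eventually.of_forall h1), integral_add (poly_int Q (pp a b f) α β)
    (integrable_finsetSum (Finset.Icc a b) fun k _ => (rat_int Q k α β).const_mul _),
    integral_finsetSum _ fun k _ => (rat_int Q k α β).const_mul _, poly_val hQ]
  have h2 : ∀ k ∈ Finset.Icc a b,
      ∫ y : ℝ, ((rs a b f k : ℚ) : ℂ) * ((zl y + k)⁻¹ * kerQ Q α β y) =
      (((Q : ℚ) ^ k * rs a b f k * (γ + α * Tz Q 1 k + β * Tz Q 2 k) : ℚ) : ℂ) -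
        ((del Q α β γ : ℝ) : ℂ) * (((Q : ℚ) ^ k * rs a b f k : ℚ) : ℂ) := by
    intro k _
    rw [integral_const_mul, rat_val, Hw_val_gen hQ k α β γ]
    push_cast
    ring
  rw [Finset.sum_congr rfl h2, Finset.sum_sub_distrib, ← Finset.mul_sum]
  change ((Lf Q a b α β γ f : ℚ) : ℂ) = _
  unfold Lf
  push_cast
  ring

/-! ### the weight -/

lemma wQ_nonpos {Q : ℤ} (hQ : Q ≤ -2) : wQ Q ≤ 0 := by
  have h1 : (Q : ℝ) ≤ -2 := by exact_mod_cast hQ
  have h2 : (1 : ℝ) ≤ |(Q : ℝ)| := by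
    rw [abs_of_nonpos (by linarith)]
    linarith
  have := Real.log_nonneg h2
  unfold wQ
  linarith

lemma kerQ_le {Q : ℤ} (hQ : Q ≤ -2) (α β y : ℝ) :
    ‖kerQ Q α β y‖ ≤ (|α + β * wQ Q| + |β| * Real.pi) / Real.cosh (Real.pi * y) := by
  have hc := Real.cosh_pos (Real.pi * y)
  have hk : H757R2.LP.kap y ≤ 1 / Real.cosh (Real.pi * y) := by
    unfold H757R2.LP.kap
    rw [div_le_div_iff₀ (by positivity) hc]
    linarith
  have hk0 := H757R2.LP.kap_pos y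
  have hk' := H757R2.LP.kap'_le y
  have h1 : ‖Complex.exp (wQ Q * zl y)‖ ≤ 1 := by
    rw [Complex.norm_exp]
    have : ((wQ Q : ℂ) * zl y).re = wQ Q / 2 := by
      unfold zl
      simp
      ring
    rw [this, Real.exp_le_one_iff]
    linarith [wQ_nonpos hQ]
  unfold kerQ
  rw [norm_mul]
  have h2 : ‖(((α + β * wQ Q : ℝ) : ℂ) * (H757R2.LP.kap y : ℂ) +
      (β : ℂ) * (-Complex.I * (H757R2.LP.kap' y : ℂ)))‖ ≤
      (|α + β * wQ Q| + |β| * Real.pi) * H757R2.LP.kap y := by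
    refine (norm_add_le _ _).trans ?_
    rw [norm_mul, norm_mul, norm_mul, norm_neg, Complex.norm_I, one_mul, Complex.norm_real,
      Complex.norm_real, Complex.norm_real, Complex.norm_real, Real.norm_eq_abs, Real.norm_eq_abs,
      Real.norm_eq_abs, Real.norm_eq_abs, abs_of_pos hk0]
    have := mul_le_mul_of_nonneg_left hk' (abs_nonneg β)
    linarith
  calc _ ≤ 1 * ((|α + β * wQ Q| + |β| * Real.pi) * H757R2.LP.kap y) :=
        mul_le_mul h1 h2 (norm_nonneg _) zero_le_one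
    _ ≤ (|α + β * wQ Q| + |β| * Real.pi) * (1 / Real.cosh (Real.pi * y)) := by
        rw [one_mul]
        exact mul_le_mul_of_nonneg_left hk (by have := Real.pi_pos; positivity)
    _ = _ := by ring

lemma GwQ_le {Q : ℤ} (hQ : Q ≤ -2) (a b : ℕ) (α β y : ℝ) :
    ‖GwQ Q a b α β y‖ ≤ (|α + β * wQ Q| + |β| * Real.pi) * ww a b y := by
  unfold GwQ ww
  rw [norm_mul, norm_div]
  calc ‖aeval (zl y) (An a)‖ / ‖aeval (zl y) (Pn a b)‖ * ‖kerQ Q α β y‖
      ≤ ‖aeval (zl y) (An a)‖ / ‖aeval (zl y) (Pn a b)‖ *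
        ((|α + β * wQ Q| + |β| * Real.pi) / Real.cosh (Real.pi * y)) :=
        mul_le_mul_of_nonneg_left (kerQ_le hQ α β y) (by positivity)
    _ = _ := by ring

lemma GwQ_meas (Q : ℤ) (a b : ℕ) (α β : ℝ) : Measurable (GwQ Q a b α β) := by
  unfold GwQ kerQ
  apply Measurable.mul
  · exact (cont_aeval _).measurable.div (cont_aeval _).measurable
  · have h1 : Continuous fun y : ℝ => Complex.exp (wQ Q * zl y) :=
      Complex.continuous_exp.comp (continuous_const.mul zl_cont)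
    have h2 : Continuous fun y : ℝ => ((α + β * wQ Q : ℝ) : ℂ) * (H757R2.LP.kap y : ℂ) +
        (β : ℂ) * (-Complex.I * (H757R2.LP.kap' y : ℂ)) :=
      (continuous_const.mul (Complex.continuous_ofReal.comp H757R2.LP.kap_cont)).add
        (continuous_const.mul (continuous_const.mul
          (Complex.continuous_ofReal.comp H757R2.LP.kap'_cont)))
    exact (h1.mul h2).measurable

/-- polynomial times a weight bounded by `ww` is integrable -/
lemma gen_int (a b : ℕ) (G : ℝ → ℂ) (hG : Measurable G) (c : ℝ) (hc : 0 ≤ c)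
    (hb : ∀ y, ‖G y‖ ≤ c * ww a b y) (f : ℂ[X]) :
    Integrable (fun y : ℝ => f.eval (y : ℂ) * G y) := by
  obtain ⟨C, k, hC, hw⟩ := ww_bound a b
  obtain ⟨C', hC', hf⟩ := BA_poly f
  have hm : AEStronglyMeasurable (fun y : ℝ => f.eval (y : ℂ) * G y) := by
    apply Measurable.aestronglyMeasurable
    apply Measurable.mul _ hG
    exact (f.continuous.comp Complex.continuous_ofReal).measurable
  have h0 : Integrable (fun y : ℝ => ‖f.eval (y : ℂ) * G y‖) := by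
    apply BA_integrable _ hm.norm (C' * (c * C)) (f.natDegree + k)
    intro y
    rw [abs_of_nonneg (norm_nonneg _), norm_mul, pow_add]
    have h1 := hf y (y : ℂ) (by rw [Complex.norm_real, Real.norm_eq_abs]; linarith)
    have h3 : ‖G y‖ ≤ c * (C * (1 + |y|) ^ k / Real.cosh (Real.pi * y)) :=
      (hb y).trans (mul_le_mul_of_nonneg_left (hw y) hc)
    calc ‖f.eval (y : ℂ)‖ * ‖G y‖
        ≤ (C' * (1 + |y|) ^ f.natDegree) * (c * (C * (1 + |y|) ^ k / Real.cosh (Real.pi * y))) :=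
          mul_le_mul h1 h3 (norm_nonneg _) (by positivity)
      _ = _ := by ring
  exact (integrable_norm_iff hm).mp h0

lemma cc_nonneg (Q : ℤ) (α β : ℝ) : 0 ≤ |α + β * wQ Q| + |β| * Real.pi := by
  have := Real.pi_pos
  positivity

lemma G_int {Q : ℤ} (hQ : Q ≤ -2) (a b : ℕ) (α β : ℝ) (f : ℂ[X]) :
    Integrable (fun y : ℝ => f.eval (y : ℂ) * GwQ Q a b α β y) :=
  gen_int a b _ (GwQ_meas Q a b α β) _ (cc_nonneg Q α β) (GwQ_le hQ a b α β) f

/-- the main functional in the variable `y` -/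
def NQ {Q : ℤ} (hQ : Q ≤ -2) (a b : ℕ) (α β : ℝ) : ℂ[X] →ₗ[ℂ] ℂ where
  toFun := fun f => ∫ y : ℝ, f.eval (y : ℂ) * GwQ Q a b α β y
  map_add' := fun f g => by
    rw [← integral_add (G_int hQ a b α β f) (G_int hQ a b α β g)]
    congr 1
    ext y
    rw [eval_add, add_mul]
  map_smul' := fun c f => by
    rw [RingHom.id_apply, smul_eq_mul, ← integral_const_mul]
    congr 1
    ext y
    rw [eval_smul, smul_eq_mul, mul_assoc]

lemma NQ_apply {Q : ℤ} (hQ : Q ≤ -2) (a b : ℕ) (α β : ℝ) (f : ℂ[X]) :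
    NQ hQ a b α β f = ∫ y : ℝ, f.eval (y : ℂ) * GwQ Q a b α β y := rfl

/-- one entry -/
lemma NQ_entry {Q : ℤ} (hQ : Q ≤ -2) (a b : ℕ) (α β : ℝ) (f g : ℝ[X]) :
    ‖NQ hQ a b α β (f.map (algebraMap ℝ ℂ) * g.map (algebraMap ℝ ℂ))‖ ^ 2 ≤
      ((|α + β * wQ Q| + |β| * Real.pi) * ∫ y : ℝ, f.eval y ^ 2 * ww a b y) *
        ((|α + β * wQ Q| + |β| * Real.pi) * ∫ y : ℝ, g.eval y ^ 2 * ww a b y) := by
  obtain ⟨c, hcdef⟩ : ∃ c : ℝ, c = |α + β * wQ Q| + |β| * Real.pi := ⟨_, rfl⟩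
  have hc : 0 ≤ c := by rw [hcdef]; exact cc_nonneg Q α β
  have hb : ∀ y, ‖GwQ Q a b α β y‖ ≤ c * ww a b y := by rw [hcdef]; exact GwQ_le hQ a b α β
  rw [← hcdef]
  have hfg : Integrable (fun y : ℝ => |f.eval y| * |g.eval y| * ww a b y) := by
    have := (BA_int_real a b (f * g)).abs
    refine this.congr (Filter.Eventually.of_forall fun y => ?_)
    simp only [eval_mul, abs_mul, abs_of_nonneg (ww_nonneg a b y)]
  have h1 : ‖NQ hQ a b α β (f.map (algebraMap ℝ ℂ) * g.map (algebraMap ℝ ℂ))‖ ≤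
      c * ∫ y : ℝ, |f.eval y| * |g.eval y| * ww a b y := by
    rw [NQ_apply, ← integral_const_mul]
    refine (norm_integral_le_integral_norm _).trans ?_
    apply integral_mono_of_nonneg (Filter.Eventually.of_forall fun y => norm_nonneg _)
      (hfg.const_mul c)
    refine Filter.Eventually.of_forall fun y => ?_
    have e1 : ∀ h : ℝ[X], (h.map (algebraMap ℝ ℂ)).eval (y : ℂ) = ((h.eval y : ℝ) : ℂ) := by
      intro h
      rw [eval_map_algebraMap]
      exact Polynomial.aeval_algebraMap_apply_eq_algebraMap_eval y h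
    have h2 := hb y
    simp only [eval_mul, norm_mul]
    rw [e1, e1, Complex.norm_real, Complex.norm_real, Real.norm_eq_abs, Real.norm_eq_abs]
    calc |f.eval y| * |g.eval y| * ‖GwQ Q a b α β y‖ ≤ |f.eval y| * |g.eval y| * (c * ww a b y) :=
          mul_le_mul_of_nonneg_left h2 (by positivity)
      _ = _ := by ring
  calc _ ≤ (c * ∫ y : ℝ, |f.eval y| * |g.eval y| * ww a b y) ^ 2 :=
        pow_le_pow_left₀ (norm_nonneg _) h1 2
    _ = c ^ 2 * (∫ y : ℝ, |f.eval y| * |g.eval y| * ww a b y) ^ 2 := by ring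
    _ ≤ c ^ 2 * ((∫ y : ℝ, f.eval y ^ 2 * ww a b y) * ∫ y : ℝ, g.eval y ^ 2 * ww a b y) :=
        mul_le_mul_of_nonneg_left (BA_CS a b f g) (by positivity)
    _ = _ := by ring

/-! ### the perturbation functional -/

/-- residue weights -/
def rrQ (Q : ℤ) (a b k : ℕ) : ℚ :=
  (Q : ℚ) ^ k * ((An a).eval (-(k : ℚ)) / ∏ j ∈ (Finset.Icc a b).erase k, ((j : ℚ) - k))

/-- the perturbation functional -/
def BQ (Q : ℤ) (a b : ℕ) : ℂ[X] →ₗ[ℂ] ℂ where
  toFun f := ∑ k ∈ Finset.Icc a b, ((rrQ Q a b k : ℚ) : ℂ) * f.eval (yk k)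
  map_add' f g := by
    simp only [eval_add, mul_add, Finset.sum_add_distrib]
  map_smul' c f := by
    simp only [eval_smul, smul_eq_mul, RingHom.id_apply, Finset.mul_sum]
    exact Finset.sum_congr rfl fun k _ => by ring

lemma BQ_apply (Q : ℤ) (a b : ℕ) (f : ℂ[X]) :
    BQ Q a b f = ∑ k ∈ Finset.Icc a b, ((rrQ Q a b k : ℚ) : ℂ) * f.eval (yk k) := rfl

/-- the full functional in the variable `y` -/
def NEQ {Q : ℤ} (hQ : Q ≤ -2) (a b : ℕ) (α β γ : ℚ) : ℂ[X] →ₗ[ℂ] ℂ :=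
  NQ hQ a b α β + ((del Q α β γ : ℝ) : ℂ) • BQ Q a b

lemma NEQ_apply {Q : ℤ} (hQ : Q ≤ -2) (a b : ℕ) (α β γ : ℚ) (f : ℂ[X]) :
    NEQ hQ a b α β γ f = NQ hQ a b α β f + ((del Q α β γ : ℝ) : ℂ) * BQ Q a b f := rfl

lemma L_pow {Q : ℤ} (hQ : Q ≤ -2) (a b : ℕ) (α β γ : ℚ) (i : ℕ) :
    ((L Q a b α β γ (X ^ i) : ℚ) : ℂ) =
      Complex.I ^ i * NEQ hQ a b α β γ ((X - C (Complex.I / 2)) ^ i) := by
  rw [A_line_gen hQ, NEQ_apply, mul_add]
  have hI := Complex.I_mul_I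
  congr 1
  · rw [NQ_apply, ← integral_const_mul]
    congr 1
    ext y
    rw [map_pow, aeval_X, eval_pow, eval_sub, eval_X, eval_C, ← mul_assoc, ← mul_pow]
    congr 2
    unfold zl
    linear_combination (1/2 : ℂ) * hI
  · rw [mul_left_comm]
    congr 1
    rw [BQ_apply, Finset.mul_sum]
    push_cast
    refine Finset.sum_congr rfl fun k _ => ?_
    rw [eval_pow, eval_sub, eval_X, eval_C]
    have h1 : Complex.I ^ i * (yk k - Complex.I / 2) ^ i = (-(k : ℂ)) ^ i := by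
      rw [← mul_pow]
      congr 1
      unfold yk
      linear_combination (k : ℂ) * hI
    have h2 : (Q : ℂ) ^ k * ((rs a b (X ^ i) k : ℚ) : ℂ) = ((rrQ Q a b k : ℚ) : ℂ) * (-(k : ℂ)) ^ i := by
      unfold rs rrQ
      rw [eval_mul, eval_pow, eval_X]
      push_cast
      ring
    calc (Q : ℂ) ^ k * ((rs a b (X ^ i) k : ℚ) : ℂ)
        = ((rrQ Q a b k : ℚ) : ℂ) * (Complex.I ^ i * (yk k - Complex.I / 2) ^ i) := by rw [h2, h1]
      _ = _ := by ring

/-- the determinant in terms of monomials in `y` -/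
lemma DD_norm {Q : ℤ} (hQ : Q ≤ -2) (a b m : ℕ) (α β γ : ℚ) :
    |((DD Q a b m α β γ : ℚ) : ℝ)| =
      ‖(Matrix.of fun i j : Fin m => NEQ hQ a b α β γ (X ^ (i.1 + j.1))).det‖ := by
  set N := NEQ hQ a b α β γ with hN
  have h1 : ((DD Q a b m α β γ : ℚ) : ℂ) = (Matrix.of fun i j : Fin m =>
      (Complex.I ^ (i : ℕ)) * (Complex.I ^ (j : ℕ)) *
        (Matrix.of fun i j : Fin m => N ((X - C (Complex.I / 2)) ^ (i : ℕ) *
          (X - C (Complex.I / 2)) ^ (j : ℕ))) i j).det := by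
    unfold DD
    have e0 : ((Matrix.of fun i j : Fin m => L Q a b α β γ (X ^ ((i : ℕ) + (j : ℕ)))).det : ℂ) =
      ((algebraMap ℚ ℂ).mapMatrix (Matrix.of fun i j : Fin m =>
        L Q a b α β γ (X ^ ((i : ℕ) + (j : ℕ))))).det := by
      rw [← RingHom.map_det]; rfl
    rw [e0]
    congr 1
    ext i j
    simp only [RingHom.mapMatrix_apply, Matrix.map_apply, Matrix.of_apply]
    have e1 : (algebraMap ℚ ℂ) (L Q a b α β γ (X ^ ((i : ℕ) + (j : ℕ)))) =
      ((L Q a b α β γ (X ^ ((i : ℕ) + (j : ℕ))) : ℚ) : ℂ) := rfl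
    rw [e1, L_pow hQ, ← hN, ← pow_add, ← pow_add]
  have h3 : ‖((DD Q a b m α β γ : ℚ) : ℂ)‖ = |((DD Q a b m α β γ : ℚ) : ℝ)| := by
    rw [Complex.norm_ratCast]
  rw [← h3, h1, BA_det_scale m _ (fun i => Complex.I ^ i) (fun i => by
      rw [norm_pow, Complex.norm_I, one_pow])]
  rw [BA_det_monic N m (fun i => (X - C (Complex.I / 2)) ^ i) (fun i _ =>
      ⟨(monic_X_sub_C _).pow i, by rw [natDegree_pow, natDegree_X_sub_C, mul_one]⟩)]

lemma DD_lagrange {Q : ℤ} (hQ : Q ≤ -2) (a b m : ℕ) (α β γ : ℚ) (x : ℕ → ℝ)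
    (hx : Set.InjOn x (Finset.range m)) :
    |((DD Q a b m α β γ : ℚ) : ℝ)| * ∏ i ∈ Finset.range m, ∏ j ∈ (Finset.range m).erase i, |x i - x j| =
      ‖(Matrix.of fun i j : Fin m => NEQ hQ a b α β γ (lgc m x i * lgc m x j)).det‖ := by
  rw [BA_gram (NEQ hQ a b α β γ) m (lgc m x) (fun i hi => by
    unfold lgc
    rw [natDegree_map]
    exact lg_deg m x i hi), Matrix.det_mul, Matrix.det_mul, Matrix.det_transpose, norm_mul, norm_mul,
    ← DD_norm]
  have h1 : (Matrix.of fun (i : Fin m) (k : Fin m) => (lgc m x i).coeff (k : ℕ)) =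
      (algebraMap ℝ ℂ).mapMatrix (cf m (lg m x)) := by
    ext i k
    simp only [Matrix.of_apply, RingHom.mapMatrix_apply, Matrix.map_apply, cf, lgc, coeff_map]
  have h2 : ‖(Matrix.of fun (i : Fin m) (k : Fin m) => (lgc m x i).coeff (k : ℕ)).det‖ ^ 2 =
      ∏ i ∈ Finset.range m, ∏ j ∈ (Finset.range m).erase i, |x i - x j| := by
    rw [h1, ← RingHom.map_det, ← det_cf_lg m x hx]
    have h3 : ‖(algebraMap ℝ ℂ) (cf m (lg m x)).det‖ = |(cf m (lg m x)).det| := by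
      rw [norm_algebraMap', Real.norm_eq_abs]
    rw [h3, sq_abs]
  rw [← h2]
  ring

end

end Pool.Agent.TH50.DQ.Mea
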