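import Pool.Agent.TH50.DQ.MeasF
import Pool.Agent.H97R2.LPB.BMain

/-!
# Linear independence measure, `Q ≤ -2`: the archimedean bound for approximate relations

Port of `Pool/Agent/H297R2/LPM/Arch2.lean`, `Arch3.lean`.
-/

open Polynomial Filter Topology MeasureTheory

namespace Pool.Agent.TH50.DQ.Mea

open Pool.Agent.LP Pool.Agent.LPB Pool.Agent.LPB.GramAux Pool.Agent.LP.MS
open Pool.Agent.TH50.DQ

noncomputable section

lemma rrQ_bd {Q : ℤ} (hQ : 1 ≤ |(Q : ℝ)|) (a b k : ℕ) (h1 : a ≤ k) (h2 : k ≤ b) :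
    ‖((rrQ Q a b k : ℚ) : ℂ)‖ ≤ |(Q : ℝ)| ^ b * ((b : ℝ) ^ a * 2 ^ (b - a) / ((b - a).factorial : ℝ)) := by
  have h := rr_bd a b k h1 h2
  have e : |(rrQ Q a b k : ℚ)| = |(Q : ℚ)| ^ k * |(rr a b k : ℚ)| := by
    unfold rrQ rr
    rw [abs_mul, abs_mul, abs_pow, abs_pow, abs_neg, abs_one, one_pow, one_mul]
  rw [Complex.norm_ratCast]
  have e2 : |((rrQ Q a b k : ℚ) : ℝ)| = |(Q : ℝ)| ^ k * ((|(rr a b k : ℚ)| : ℚ) : ℝ) := by
    rw [← Rat.cast_abs, e]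
    push_cast
    rfl
  rw [e2]
  have h3 : ((|(rr a b k : ℚ)| : ℚ) : ℝ) ≤ (((b : ℚ) ^ a * 2 ^ (b - a) / ((b - a).factorial : ℚ) : ℚ) : ℝ) := by
    exact_mod_cast h
  push_cast at h3 ⊢
  exact mul_le_mul (pow_le_pow_right₀ hQ h2) h3 (by positivity) (by positivity)

lemma BQ_bd {Q : ℤ} (hQ : 1 ≤ |(Q : ℝ)|) (a b m : ℕ) (hab : a ≤ b) (x : ℕ → ℝ) (i j : ℕ) (hi : i < m)
    (hj : j < m) (R : ℝ) (hR1 : 1 ≤ R) (hR : ∀ j < m, (b : ℝ) + 1 / 2 + |x j| ≤ R) :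
    ‖BQ Q a b (lgc m x i * lgc m x j)‖ ≤ |(Q : ℝ)| ^ b *
      (((b - a + 1 : ℕ) : ℝ) * ((b : ℝ) ^ a * 2 ^ (b - a) / ((b - a).factorial : ℝ)) * R ^ (2 * m)) := by
  rw [BQ_apply]
  refine (norm_sum_le _ _).trans ?_
  have h1 : ∀ k ∈ Finset.Icc a b, ‖((rrQ Q a b k : ℚ) : ℂ) * (lgc m x i * lgc m x j).eval (yk k)‖ ≤
      |(Q : ℝ)| ^ b * (((b : ℝ) ^ a * 2 ^ (b - a) / ((b - a).factorial : ℝ)) * R ^ (2 * m)) := by
    intro k hk
    rw [Finset.mem_Icc] at hk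
    have hkb : (k : ℝ) ≤ b := by exact_mod_cast hk.2
    have e1 := rrQ_bd hQ a b k hk.1 hk.2
    have hRk : ∀ j < m, (k : ℝ) + 1 / 2 + |x j| ≤ R := fun j hj => by
      have := hR j hj
      linarith
    have e2 := lgc_bd m x i hi k R hR1 hRk
    have e3 := lgc_bd m x j hj k R hR1 hRk
    rw [norm_mul, eval_mul, norm_mul, two_mul, pow_add, ← mul_assoc]
    have hR0 : (0 : ℝ) ≤ R := by linarith
    rw [← mul_assoc (|(Q : ℝ)| ^ b), ← mul_assoc (|(Q : ℝ)| ^ b * _)]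
    rw [mul_assoc ‖((rrQ Q a b k : ℚ) : ℂ)‖, mul_assoc (|(Q : ℝ)| ^ b * _) (R ^ m)]
    exact mul_le_mul e1 (mul_le_mul e2 e3 (norm_nonneg _) (by positivity)) (by positivity) (by positivity)
  refine (Finset.sum_le_sum h1).trans (le_of_eq ?_)
  rw [Finset.sum_const, Nat.card_Icc, nsmul_eq_mul]
  have : b + 1 - a = b - a + 1 := by omega
  rw [this]
  ring

lemma BQ_num {Q : ℤ} (hQ : 1 ≤ |(Q : ℝ)|) (n m : ℕ) (hn : 4 ≤ n) (hm : m ≤ 4 * n + 1) (i j : ℕ)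
    (hi : i < m) (hj : j < m) :
    ‖BQ Q n (5 * n) (lgc m (xn n) i * lgc m (xn n) j)‖ ≤
      Real.exp (5 * Real.log |(Q : ℝ)| * n + (21 * n + 5 * n * Real.log n + 10 * Real.log n)) := by
  have hx : (4 : ℝ) ≤ n := by exact_mod_cast hn
  have h1 := BQ_bd hQ n (5 * n) m (by omega) (xn n) i j hi hj (9 * n) (by linarith) (fun l hl => by
    have := xn_abs n l (by omega)
    push_cast
    linarith)
  refine h1.trans ?_
  have e1 : 5 * n - n = 4 * n := by omega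
  rw [e1, Real.exp_add]
  have e0 : |(Q : ℝ)| ^ (5 * n) = Real.exp (5 * Real.log |(Q : ℝ)| * n) := by
    have h0 : 0 < |(Q : ℝ)| := by linarith
    have e : 5 * Real.log |(Q : ℝ)| * n = ((5 * n : ℕ) : ℝ) * Real.log |(Q : ℝ)| := by push_cast; ring
    rw [e, Real.exp_nat_mul, Real.exp_log h0]
  rw [e0]
  refine mul_le_mul_of_nonneg_left ?_ (Real.exp_pos _).le
  have h2 : (9 * n : ℝ) ^ (2 * m) ≤ (9 * n : ℝ) ^ (8 * n) * (9 * n : ℝ) ^ 2 := by
    rw [← pow_add]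
    exact pow_le_pow_right₀ (by linarith) (by omega)
  have hb := base_bound n (by omega)
  have hp := poly_bound n hn
  have hE : (0 : ℝ) ≤ (5 * n : ℝ) ^ n * 2 ^ (4 * n) / ((4 * n).factorial : ℝ) := by positivity
  push_cast at hp ⊢
  calc (4 * (n : ℝ) + 1) * ((5 * n : ℝ) ^ n * 2 ^ (4 * n) / ((4 * n).factorial : ℝ)) * (9 * n : ℝ) ^ (2 * m)
      ≤ (4 * (n : ℝ) + 1) * ((5 * n : ℝ) ^ n * 2 ^ (4 * n) / ((4 * n).factorial : ℝ)) *
        ((9 * n : ℝ) ^ (8 * n) * (9 * n : ℝ) ^ 2) := mul_le_mul_of_nonneg_left h2 (by positivity)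
    _ = (((5 * n : ℝ) ^ n * 2 ^ (4 * n) / ((4 * n).factorial : ℝ)) * (9 * n : ℝ) ^ (8 * n)) *
        ((4 * (n : ℝ) + 1) * (9 * n : ℝ) ^ 2) := by ring
    _ ≤ Real.exp (21 * n + 5 * n * Real.log n) * Real.exp (10 * Real.log n) :=
        mul_le_mul hb hp (by positivity) (Real.exp_pos _).le
    _ = _ := by rw [← Real.exp_add]

lemma NQ_num {Q : ℤ} (hQ : Q ≤ -2) (n m : ℕ) (α β : ℝ) (i j : ℕ) (A : ℝ)
    (hi : ∫ y : ℝ, (∏ l ∈ (Finset.range m).erase i, (y - xn n l)) ^ 2 * ww n (5 * n) y ≤ A)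
    (hj : ∫ y : ℝ, (∏ l ∈ (Finset.range m).erase j, (y - xn n l)) ^ 2 * ww n (5 * n) y ≤ A) (hA : 0 ≤ A) :
    ‖NQ hQ n (5 * n) α β (lgc m (xn n) i * lgc m (xn n) j)‖ ≤ (|α + β * wQ Q| + |β| * Real.pi) * A := by
  have h1 := NQ_entry hQ n (5 * n) α β (lg m (xn n) i) (lg m (xn n) j)
  simp only [lg_eval] at h1
  have hc := cc_nonneg Q α β
  refine le_of_sq_le_sq (h1.trans ?_) (by positivity)
  rw [sq]
  apply mul_le_mul (mul_le_mul_of_nonneg_left hi hc) (mul_le_mul_of_nonneg_left hj hc) _ (by positivity)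
  apply mul_nonneg hc
  exact integral_nonneg fun y => mul_nonneg (sq_nonneg _) (ww_nonneg _ _ y)

theorem archN_of {Q : ℤ} (hQ : Q ≤ -2) (h1 : LPB.S_int) (h2 : LPB.S_cont) (h4 : LPB.S_sep) (h5 : LPB.S_pot) (h6 : LPB.S_weight)
    (h7 : LPB.S_energy) (h8 : LPB.S_even) (h9 : LPB.S_cert1) (h10 : LPB.S_cert2) (h11 : LPB.S_cert3) (h12 : LPB.S_tail) (h13 : LPB.S_Q) :
    ∀ᶠ n : ℕ in atTop, ∀ m : ℕ, 4 * n - 1 ≤ m → m ≤ 4 * n + 1 → ∀ α β γ : ℤ,
      |del Q α β γ| ≤ Real.exp (-((28 + 5 * Real.log |(Q : ℝ)|) * n)) →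
      |((DD Q n (5 * n) m α β γ : ℚ) : ℝ)| ≤
        ((2 + |wQ Q| + Real.pi) * (|(α : ℝ)| + |(β : ℝ)| + 1)) ^ m *
        Real.exp (4 * (n : ℝ) ^ 2 * Real.log n - 28.5 * (n : ℝ) ^ 2) := by
  have hQr : (Q : ℝ) ≤ -2 := by exact_mod_cast hQ
  have hQ1 : 1 ≤ |(Q : ℝ)| := by rw [abs_of_nonpos (by linarith)]; linarith
  have hlQ : 0 ≤ Real.log |(Q : ℝ)| := Real.log_nonneg hQ1
  obtain ⟨C0, hC0, n0, hI0⟩ := ZZ97.int_bound h1 h2 h5 h6 h8 h9 h10 h11 h12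
  obtain ⟨C3, hC3, hE⟩ := h7
  obtain ⟨C, hCdef⟩ : ∃ C : ℝ, C = C0 + 10 := ⟨_, rfl⟩
  have hC : 0 < C := by rw [hCdef]; linarith
  have hs := ZZ97.nlogn_small (5 * C + C3 + 10) (1 / 20) (by norm_num)
  have hs2 : ∀ᶠ n : ℕ in atTop, (7 : ℝ) * n ≤ 1 / 20 * (n : ℝ) ^ 2 := by
    filter_upwards [eventually_ge_atTop 140] with n hn
    have : (140 : ℝ) ≤ n := by exact_mod_cast hn
    nlinarith
  filter_upwards [hs, hs2, eventually_ge_atTop (max n0 5)] with n hsn hsn2 hn m hm1 hm2 α β γ hε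
  have hn0 : n0 ≤ n := (le_max_left _ _).trans hn
  have hn5 : 5 ≤ n := (le_max_right _ _).trans hn
  have hn5R : (5 : ℝ) ≤ n := by exact_mod_cast hn5
  have hlogn : 1 ≤ Real.log n := by
    rw [Real.le_log_iff_exp_le (by linarith)]
    linarith [Real.exp_one_lt_d9]
  -- the common bound of the integrals
  obtain ⟨A, hAdef⟩ : ∃ A : ℝ, A = Real.exp (-(665 / 100) * n + 5 * n * Real.log n + C * Real.log n) := ⟨_, rfl⟩
  have hA0 : 0 < A := by rw [hAdef]; exact Real.exp_pos _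
  have hI : ∀ i < m, ∫ y : ℝ, (∏ j ∈ (Finset.range m).erase i, (y - xn n j)) ^ 2 * ww n (5 * n) y ≤ A := by
    intro i hi
    refine (hI0 n hn0 m hm1 hm2 i hi).trans ?_
    rw [hAdef, hCdef]
    apply Real.exp_le_exp.2
    nlinarith
  have hinj : Set.InjOn (xn n) (Finset.range m) := by
    intro i hi j hj hij
    by_contra hne
    have hi' : i < m := by simpa using hi
    have hj' : j < m := by simpa using hj
    have := (h4 (n := n) (by omega) i j (by omega) (by omega) hne).1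
    rw [hij, sub_self, abs_zero] at this
    norm_num at this
  have hdet := DD_lagrange hQ n (5 * n) m α β γ (xn n) hinj
  obtain ⟨V, hV⟩ : ∃ V : ℝ, V = ∏ i ∈ Finset.range m, ∏ j ∈ (Finset.range m).erase i, |xn n i - xn n j| := ⟨_, rfl⟩
  rw [← hV] at hdet
  have hne : ∀ i ∈ Finset.range m, ∀ j ∈ (Finset.range m).erase i, |xn n i - xn n j| ≠ 0 := by
    intro i hi j hj
    have hj' := Finset.mem_erase.1 hj
    have hi2 := Finset.mem_range.1 hi
    have hj2 := Finset.mem_range.1 hj'.2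
    have := (h4 (n := n) (by omega) i j (by omega) (by omega) (Ne.symm hj'.1)).1
    intro h0
    rw [h0] at this
    norm_num at this
  have hVpos : 0 < V := by
    rw [hV]
    apply Finset.prod_pos
    intro i hi
    apply Finset.prod_pos
    intro j hj
    exact lt_of_le_of_ne (abs_nonneg _) (Ne.symm (hne i hi j hj))
  have hVlog : Real.log V = ∑ i ∈ Finset.range m, ∑ j ∈ (Finset.range m).erase i, Real.log |xn n i - xn n j| := by
    rw [hV, Real.log_prod (fun i hi => Finset.prod_ne_zero_iff.2 (hne i hi))]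
    exact Finset.sum_congr rfl fun i hi => Real.log_prod (fun j hj => hne i hi j hj)
  have hE' := hE n (by omega) m hm1 hm2
  rw [← hVlog] at hE'
  -- entries
  obtain ⟨c, hc⟩ : ∃ c : ℝ, c = (2 + |wQ Q| + Real.pi) * (|(α : ℝ)| + |(β : ℝ)| + 1) := ⟨_, rfl⟩
  have ha0 := abs_nonneg (α : ℝ)
  have hb0 := abs_nonneg (β : ℝ)
  have hw0 := abs_nonneg (wQ Q)
  have hpi := Real.pi_pos
  have hentry : ∀ i j : Fin m, ‖NEQ hQ n (5 * n) α β γ (lgc m (xn n) i * lgc m (xn n) j)‖ ≤ c * A := by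
    intro i j
    rw [NEQ_apply]
    refine (norm_add_le _ _).trans ?_
    have e1 := NQ_num hQ n m ((α : ℚ) : ℝ) ((β : ℚ) : ℝ) i j A (hI i i.2) (hI j j.2) hA0.le
    have e2 := BQ_num hQ1 n m (by omega) hm2 i j i.2 j.2
    have e3 : ‖((del Q (α : ℚ) (β : ℚ) (γ : ℚ) : ℝ) : ℂ)‖ ≤ Real.exp (-((28 + 5 * Real.log |(Q : ℝ)|) * n)) := by
      rw [Complex.norm_real, Real.norm_eq_abs]
      push_cast
      exact hε
    have e4 : ‖((del Q (α : ℚ) (β : ℚ) (γ : ℚ) : ℝ) : ℂ) * BQ Q n (5 * n) (lgc m (xn n) i * lgc m (xn n) j)‖ ≤ A := by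
      rw [norm_mul]
      calc _ ≤ Real.exp (-((28 + 5 * Real.log |(Q : ℝ)|) * n)) *
            Real.exp (5 * Real.log |(Q : ℝ)| * n + (21 * n + 5 * n * Real.log n + 10 * Real.log n)) :=
            mul_le_mul e3 e2 (norm_nonneg _) (Real.exp_pos _).le
        _ ≤ A := by
            rw [← Real.exp_add, hAdef, hCdef]
            apply Real.exp_le_exp.2
            nlinarith
    have e5 : |((α : ℚ) : ℝ) + ((β : ℚ) : ℝ) * wQ Q| + |((β : ℚ) : ℝ)| * Real.pi ≤ c - 1 := by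
      rw [hc]
      push_cast
      have t1 : |(α : ℝ) + (β : ℝ) * wQ Q| ≤ |(α : ℝ)| + |(β : ℝ)| * |wQ Q| := by
        refine (abs_add_le _ _).trans ?_
        rw [abs_mul]
      nlinarith [mul_nonneg ha0 hw0, mul_nonneg ha0 hpi.le]
    calc _ ≤ (|((α : ℚ) : ℝ) + ((β : ℚ) : ℝ) * wQ Q| + |((β : ℚ) : ℝ)| * Real.pi) * A + A := add_le_add e1 e4
      _ ≤ (c - 1) * A + A := by
          have := mul_le_mul_of_nonneg_right e5 hA0.le
          linarith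
      _ = c * A := by ring
  have hc0 : 0 < c := by rw [hc]; positivity
  have hdb := BA_abs_det m (Matrix.of fun i j : Fin m => NEQ hQ n (5 * n) α β γ (lgc m (xn n) i * lgc m (xn n) j))
    (fun _ => c * A) (fun _ => by positivity) (fun i j => by
      rw [Matrix.of_apply, ← sq]
      exact pow_le_pow_left₀ (norm_nonneg _) (hentry i j) 2)
  rw [← hdet, Finset.prod_const, Finset.card_range, mul_pow] at hdb
  have hfac : (m.factorial : ℝ) ≤ Real.exp (m * Real.log m) := by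
    have hm0 : (0 : ℝ) < m := by
      have : 0 < m := by omega
      exact_mod_cast this
    rw [mul_comm, Real.exp_mul, Real.exp_log hm0, Real.rpow_natCast]
    exact_mod_cast Nat.factorial_le_pow m
  have hmR1 : (4 : ℝ) * n - 1 ≤ m := by
    have : 4 * n ≤ m + 1 := by omega
    have : (4 : ℝ) * n ≤ m + 1 := by exact_mod_cast this
    linarith
  have hmR2 : (m : ℝ) ≤ 4 * n + 1 := by exact_mod_cast hm2
  have hlogm : Real.log m ≤ 2 * Real.log n := by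
    rw [two_mul, ← Real.log_mul (by positivity) (by positivity)]
    apply Real.log_le_log (by linarith)
    nlinarith
  have hAm : A ^ m = Real.exp (m * (-(665 / 100) * n + 5 * n * Real.log n + C * Real.log n)) := by
    rw [hAdef, ← Real.exp_nat_mul]
  have hfin : |((DD Q n (5 * n) m α β γ : ℚ) : ℝ)| ≤ c ^ m *
      Real.exp (m * Real.log m + m * (-(665 / 100) * n + 5 * n * Real.log n + C * Real.log n) - Real.log V) := by
    rw [Real.exp_sub, Real.exp_log hVpos, mul_div_assoc', le_div_iff₀ hVpos, Real.exp_add, ← hAm]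
    refine hdb.trans ?_
    calc (m.factorial : ℝ) * (c ^ m * A ^ m) = c ^ m * ((m.factorial : ℝ) * A ^ m) := by ring
      _ ≤ c ^ m * (Real.exp (m * Real.log m) * A ^ m) := by
          apply mul_le_mul_of_nonneg_left _ (by positivity)
          exact mul_le_mul_of_nonneg_right hfac (by positivity)
  rw [← hc]
  refine hfin.trans (mul_le_mul_of_nonneg_left (Real.exp_le_exp.2 ?_) (by positivity))
  have hQ : 21 / 10 ≤ Qx := h13
  have hnn : (0 : ℝ) ≤ (n : ℝ) ^ 2 := sq_nonneg _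
  have b1 : (m : ℝ) * Real.log m ≤ 10 * (n * Real.log n) := by
    have : (m : ℝ) ≤ 5 * n := by linarith
    have hl0 : 0 ≤ Real.log m := Real.log_nonneg (by linarith)
    calc (m : ℝ) * Real.log m ≤ (5 * n) * (2 * Real.log n) := mul_le_mul this hlogm hl0 (by positivity)
      _ = 10 * (n * Real.log n) := by ring
  have b2 : (m : ℝ) * (-(665 / 100) * n) ≤ -(266 / 10) * (n : ℝ) ^ 2 + 7 * n := by nlinarith
  have b3 : (m : ℝ) * (5 * n * Real.log n) ≤ 20 * ((n : ℝ) ^ 2 * Real.log n) + 5 * (n * Real.log n) := by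
    have : 0 ≤ 5 * n * Real.log n := by positivity
    nlinarith
  have b4 : (m : ℝ) * (C * Real.log n) ≤ 5 * C * (n * Real.log n) := by
    have h5 : (m : ℝ) ≤ 5 * n := by linarith
    have : 0 ≤ C * Real.log n := by positivity
    nlinarith
  have b5 : Qx * (n : ℝ) ^ 2 ≥ 21 / 10 * (n : ℝ) ^ 2 := mul_le_mul_of_nonneg_right hQ hnn
  nlinarith [hE', hsn, hsn2, b1, b2, b3, b4, b5]

/-- **the bound for `Q ≤ -2`** -/
theorem arch_neg {Q : ℤ} (hQ : Q ≤ -2) :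
    ∀ᶠ n : ℕ in atTop, ∀ m : ℕ, 4 * n - 1 ≤ m → m ≤ 4 * n + 1 → ∀ α β γ : ℤ,
      |del Q α β γ| ≤ Real.exp (-((28 + 5 * Real.log |(Q : ℝ)|) * n)) →
      |((DD Q n (5 * n) m α β γ : ℚ) : ℝ)| ≤
        ((2 + |wQ Q| + Real.pi) * (|(α : ℝ)| + |(β : ℝ)| + 1)) ^ m *
        Real.exp (4 * (n : ℝ) ^ 2 * Real.log n - 28.5 * (n : ℝ) ^ 2) :=
  archN_of hQ LPB.G1_int LPB.G1_cont LPB.G3_sep LPB.G4_pot LPB.G5_weight
    (LPB.G6_energy LPB.G6_pair LPB.G3_sep) LPB.V0_even (LPB.V1_cert1 LPB.V0_shape) (LPB.V1_cert2 LPB.V0_shape)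
    (LPB.V1_cert3 LPB.V0_shape) LPB.V1_tail LPB.V2_energy

end

end Pool.Agent.TH50.DQ.Mea
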