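import Pool.Agent.TH50.DQ.MeasE
import Pool.Agent.TH50.DQ.MeasG

/-!
# Linear independence measure for `1, log(1 - 1/Q), Li₂(1/Q)`, all `Q ≥ 3` and `Q ≤ -2`
-/

open Filter Topology

namespace Pool.Agent.TH50.DQ.Mea

noncomputable section

theorem archM_neg {Q : ℤ} (hQ : Q ≤ -2) : ArchM Q (28 + 5 * Real.log |(Q : ℝ)|) 28.5 := by
  obtain ⟨N0, hN0⟩ := eventually_atTop.1 (arch_neg hQ)
  have h1 := abs_nonneg (wQ Q)
  have h2 := Real.pi_pos
  refine ⟨2 + |wQ Q| + Real.pi, by linarith, N0, ?_⟩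
  intro N hN m hm1 hm2 α β γ hd
  have h := hN0 (10000 * N) (by omega) m hm1 hm2 α β γ (by push_cast; exact hd)
  push_cast at h
  exact h

lemma log_K4 : Real.log 1000000 ≤ 4 * (28.5 - 23.78 - 1) := by
  have h2' := Real.log_two_lt_d9
  have h5 : (1000000 : ℝ) ≤ 2 ^ 20 := by norm_num
  have h6 := Real.log_le_log (by positivity) h5
  rw [Real.log_pow] at h6
  push_cast at h6
  norm_num at h6 ⊢
  linarith

/-- the measure, in terms of `li` -/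
theorem measure_li_all {Q : ℤ} (hQ : 3 ≤ Q ∨ Q ≤ -2) :
    ∃ c : ℝ, 0 < c ∧ ∀ α β γ : ℤ, (α ≠ 0 ∨ β ≠ 0) →
    c * (|(α : ℝ)| + |(β : ℝ)| + 1) ^ (-(1000 : ℝ)) ≤ |del Q α β γ| := by
  by_cases h : 3 ≤ Q ∨ Q ≤ -4
  · exact measure_li h
  · have hQ2 : Q ≤ -2 := by omega
    have hQ3 : -3 ≤ Q := by omega
    have hQ0 : Q ≠ 0 := by omega
    have hQ1 : Q ≠ 1 := by omega
    have hr1 : (Q : ℝ) ≤ -2 := by exact_mod_cast hQ2
    have hr2 : (-3 : ℝ) ≤ Q := by exact_mod_cast hQ3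
    have ha : |(Q : ℝ)| ≤ 20 := by rw [abs_of_nonpos (by linarith)]; linarith
    have ha' : 1 ≤ |(Q : ℝ)| := by rw [abs_of_nonpos (by linarith)]; linarith
    have hl : Real.log |(Q : ℝ)| ≤ Real.log 20 := Real.log_le_log (by linarith) ha
    have hl0 : 0 ≤ Real.log |(Q : ℝ)| := Real.log_nonneg ha'
    obtain ⟨l1, l2⟩ := log_twenty
    refine measure_of hQ0 hQ1 (μ := 1) (by norm_num) (by linarith) (by linarith)
      (cond' hQ0 hQ1 (K := 1000000) (by norm_num) ?_ log_K4) (archM_neg hQ2)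
    interval_cases Q <;> norm_num [abs_of_nonneg, abs_of_nonpos]

/-- **the measure** -/
theorem measure_all {Q : ℤ} (hQ : 3 ≤ Q ∨ Q ≤ -2) : ∃ c : ℝ, 0 < c ∧ ∀ α β γ : ℤ, (α ≠ 0 ∨ β ≠ 0) →
    c / (max |(α : ℝ)| |(β : ℝ)|) ^ 1000 ≤
      |(γ : ℝ) + α * Real.log (1 - 1 / (Q : ℝ)) + β * li Q 2| := by
  obtain ⟨c, hc, h⟩ := measure_li_all hQ
  have hQ2 : 2 ≤ |Q| := by
    rcases hQ with h | h
    · rw [abs_of_nonneg (by omega)]; omega
    · rw [abs_of_nonpos (by omega)]; omega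
  refine ⟨c * 3 ^ (-(1000 : ℝ)), by positivity, ?_⟩
  intro α β γ hne
  have h1 := h (-α) β γ (by omega)
  have e1 : del Q ((-α : ℤ) : ℝ) β γ = (γ : ℝ) + α * Real.log (1 - 1 / (Q : ℝ)) + β * li Q 2 := by
    unfold del
    rw [li_one hQ2]
    push_cast
    ring
  rw [e1] at h1
  refine le_trans ?_ h1
  have e2 : |((-α : ℤ) : ℝ)| = |(α : ℝ)| := by push_cast; rw [abs_neg]
  rw [e2]
  obtain ⟨M, hM⟩ : ∃ M : ℝ, M = max |(α : ℝ)| |(β : ℝ)| := ⟨_, rfl⟩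
  rw [← hM]
  have hM1 : 1 ≤ M := by
    rw [hM]
    rcases hne with h | h
    · refine le_max_of_le_left ?_
      rw [← Int.cast_abs]
      exact_mod_cast Int.one_le_abs h
    · refine le_max_of_le_right ?_
      rw [← Int.cast_abs]
      exact_mod_cast Int.one_le_abs h
  have hM0 : 0 < M := by linarith
  have hle : |(α : ℝ)| + |(β : ℝ)| + 1 ≤ 3 * M := by
    have a1 : |(α : ℝ)| ≤ M := by rw [hM]; exact le_max_left _ _
    have a2 : |(β : ℝ)| ≤ M := by rw [hM]; exact le_max_right _ _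
    linarith
  have hpos : 0 < |(α : ℝ)| + |(β : ℝ)| + 1 := by positivity
  have h2 : (3 * M) ^ (-(1000 : ℝ)) ≤ (|(α : ℝ)| + |(β : ℝ)| + 1) ^ (-(1000 : ℝ)) :=
    Real.rpow_le_rpow_of_nonpos hpos hle (by norm_num)
  rw [Real.mul_rpow (by norm_num) hM0.le] at h2
  have e3 : M ^ (-(1000 : ℝ)) = 1 / M ^ 1000 := by
    rw [Real.rpow_neg hM0.le, one_div]
    congr 1
    exact_mod_cast Real.rpow_natCast M 1000
  calc c * 3 ^ (-(1000 : ℝ)) / M ^ 1000 = c * (3 ^ (-(1000 : ℝ)) * M ^ (-(1000 : ℝ))) := by rw [e3]; ring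
    _ ≤ _ := mul_le_mul_of_nonneg_left h2 hc.le

end

end Pool.Agent.TH50.DQ.Mea
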