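import Pool.Agent.TH50.DQ.MeasA
import Pool.Agent.TH844.DL.Final

/-!
# Linear independence measure, `Q = 2`: the archimedean bound for approximate relations

As `MeasD.lean`, with the nodes of `TH844/DL`.
-/

open Finset Polynomial Pool.Agent.H337R2 Pool.Agent.LP

namespace Pool.Agent.TH50.DQ.Mea2

open Pool.Agent.TH50.DQ.Mea (del U U_le bridge)

open Pool.Agent.TH844.DL (E2 E2_eq E2_insert PY PY_pos PY_insert log_small lag wt tm Ph)

noncomputable section

/-- the three sets of nodes -/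
lemma sets' (N m : ℕ) (hN : 1 ≤ N) (h1 : 4 * (10000 * N) - 1 ≤ m) (h2 : m ≤ 4 * (10000 * N) + 1) :
    ∃ Y : Finset ℝ, Y.card = m ∧ (∀ s : ℝ, 1 ≤ s → PY Y s ≤ (10000 * N + s) ^ 2 * PY (TH844.DL.YN N) s) ∧
      E2 (TH844.DL.YN N) - 16 * (10000 * N) * Real.log (10000 * N) ≤ E2 Y ∧
      ∀ y ∈ Y, 0 < y ∧ y ≤ 17 * (10000 * N) := by
  obtain ⟨hc, hr⟩ := TH844.DL.A_card N hN
  have hN0 : (1 : ℝ) ≤ N := by exact_mod_cast hN
  obtain ⟨n, hn⟩ : ∃ n : ℝ, n = 10000 * N := ⟨_, rfl⟩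
  rw [← hn]
  have hn1 : 10000 ≤ n := by linarith
  have hl0 : 0 ≤ Real.log n := Real.log_nonneg (by linarith)
  have hone : ∀ s : ℝ, 1 ≤ s → PY (TH844.DL.YN N) s ≤ (n + s) ^ 2 * PY (TH844.DL.YN N) s := by
    intro s hs
    have := PY_pos (TH844.DL.YN N) s
    have h3 : 1 ≤ (n + s) ^ 2 := by nlinarith
    nlinarith
  rcases (by omega : m = 4 * (10000 * N) - 1 ∨ m = 4 * (10000 * N) ∨ m = 4 * (10000 * N) + 1) with h | h | h
  · have hne : (TH844.DL.YN N).Nonempty := by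
      rw [← card_pos, hc]
      omega
    obtain ⟨a, ha⟩ := hne
    have hna : a ∉ (TH844.DL.YN N).erase a := notMem_erase a _
    refine ⟨(TH844.DL.YN N).erase a, ?_, ?_, ?_, fun y hy => ?_⟩
    · rw [card_erase_of_mem ha, hc, h]
      omega
    · intro s hs
      refine le_trans ?_ (hone s hs)
      have h4 := PY_insert hna s
      rw [insert_erase ha] at h4
      rw [h4]
      have h5 := PY_pos ((TH844.DL.YN N).erase a) s
      have := abs_nonneg (s - a)
      nlinarith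
    · have h4 := E2_insert hna
      rw [insert_erase ha] at h4
      rw [h4]
      have h5 : ∑ z ∈ (TH844.DL.YN N).erase a, Real.log |a - z| ≤ ∑ z ∈ (TH844.DL.YN N).erase a, 2 * Real.log n := by
        refine sum_le_sum fun z hz => ?_
        rw [mem_erase] at hz
        have h6 := hr a ha
        have h7 := hr z hz.2
        have h8 : 0 < |a - z| := abs_pos.2 (sub_ne_zero.2 (Ne.symm hz.1))
        have h9 : |a - z| ≤ n * n := by
          rw [abs_le]
          have : 168300 * (N : ℝ) ≤ n * n := by rw [hn]; nlinarith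
          constructor <;> linarith
        calc Real.log |a - z| ≤ Real.log (n * n) := Real.log_le_log h8 h9
          _ = 2 * Real.log n := by rw [Real.log_mul (by linarith) (by linarith)]; ring
      rw [sum_const, nsmul_eq_mul, card_erase_of_mem ha, hc] at h5
      have h10 : ((40000 * N - 1 : ℕ) : ℝ) ≤ 4 * n := by
        rw [hn]
        have : ((40000 * N - 1 : ℕ) : ℝ) ≤ ((40000 * N : ℕ) : ℝ) := by exact_mod_cast Nat.sub_le _ _
        push_cast at this
        linarith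
      have h11 : ((40000 * N - 1 : ℕ) : ℝ) * (2 * Real.log n) ≤ 4 * n * (2 * Real.log n) :=
        mul_le_mul_of_nonneg_right h10 (by linarith)
      linarith
    · obtain ⟨g1, g2⟩ := hr y (mem_of_mem_erase hy)
      exact ⟨g1, by linarith⟩
  · refine ⟨TH844.DL.YN N, by rw [hc, h]; ring, hone, ?_, fun y hy => ?_⟩
    · have : 0 ≤ 16 * n * Real.log n := by positivity
      linarith
    · obtain ⟨g1, g2⟩ := hr y hy
      exact ⟨g1, by linarith⟩
  · have hna : (168300 * (N : ℝ) + 1) ∉ TH844.DL.YN N := by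
      intro hmem
      have := (hr _ hmem).2
      linarith
    refine ⟨insert (168300 * (N : ℝ) + 1) (TH844.DL.YN N), ?_, ?_, ?_, fun y hy => ?_⟩
    · rw [card_insert_of_notMem hna, hc, h]
      ring
    · intro s hs
      rw [PY_insert hna]
      apply mul_le_mul_of_nonneg_right _ (PY_pos _ _).le
      have h3 : |s - (168300 * (N : ℝ) + 1)| ≤ s + (168300 * (N : ℝ) + 1) := by
        rw [abs_le]
        constructor <;> linarith
      have h4 : 168300 * (N : ℝ) = 16.83 * n := by rw [hn]; ring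
      rw [h4] at h3 ⊢
      nlinarith
    · rw [E2_insert hna]
      have h5 : 0 ≤ ∑ z ∈ TH844.DL.YN N, Real.log |168300 * (N : ℝ) + 1 - z| := by
        refine sum_nonneg fun z hz => Real.log_nonneg ?_
        have := (hr z hz).2
        rw [abs_of_nonneg (by linarith)]
        linarith
      have : 0 ≤ 16 * n * Real.log n := by positivity
      linarith
    · rw [mem_insert] at hy
      rcases hy with rfl | hy
      · exact ⟨by linarith, by linarith⟩
      · obtain ⟨g1, g2⟩ := hr y hy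
        exact ⟨g1, by linarith⟩

/-- values of the Lagrange polynomials at the poles -/
lemma lag_pole {Y : Finset ℝ} {x : ℝ} (hx : 1 ≤ x) (hY : ∀ y ∈ Y, 0 < y ∧ y ≤ 17 * x) {M k : ℕ} (hM : Y.card ≤ M + 1)
    (hk : (k : ℝ) ≤ 5 * x) {y : ℝ} (hy : y ∈ Y) : |(lag Y y).eval (-(k : ℝ))| ≤ (22 * x) ^ M := by
  unfold lag
  rw [eval_prod, abs_prod]
  have h1 : ∏ z ∈ Y.erase y, |eval (-(k : ℝ)) (X - C z)| ≤ ∏ _z ∈ Y.erase y, (22 * x) := by
    refine prod_le_prod (fun _ _ => abs_nonneg _) fun z hz => ?_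
    obtain ⟨g1, g2⟩ := hY z (mem_of_mem_erase hz)
    have hk0 : (0 : ℝ) ≤ k := Nat.cast_nonneg k
    rw [eval_sub, eval_X, eval_C, abs_le]
    constructor <;> linarith
  refine h1.trans ?_
  rw [prod_const, card_erase_of_mem hy]
  exact pow_le_pow_right₀ (by linarith) (by omega)

/-- the coefficient functional at the Lagrange polynomials -/
lemma U_lag {Q : ℤ} (hQ : 1 ≤ |(Q : ℝ)|) {Y : Finset ℝ} {n m : ℕ} (hn : 1 ≤ n) (hYc : Y.card = m) (hm : m ≤ 4 * n + 1)
    (hY : ∀ y ∈ Y, 0 < y ∧ y ≤ 17 * (n : ℝ)) {y z : ℝ} (hy : y ∈ Y) (hz : z ∈ Y) :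
    |U Q n (5 * n) (lag Y y * lag Y z)| ≤
      Real.exp (5 * n * Real.log n + (49 + 5 * Real.log |(Q : ℝ)|) * n) := by
  have hnR : (1 : ℝ) ≤ n := by exact_mod_cast hn
  have hn0 : (0 : ℝ) < n := by linarith
  have h1 := U_le hQ (n := n) (F := lag Y y * lag Y z) (A := (22 * (n : ℝ)) ^ (4 * n) * (22 * (n : ℝ)) ^ (4 * n))
    (fun k _ hk => by
      have hkR : (k : ℝ) ≤ 5 * n := by exact_mod_cast hk
      rw [eval_mul, abs_mul]
      exact mul_le_mul (lag_pole hnR hY (by omega) hkR hy) (lag_pole hnR hY (by omega) hkR hz) (abs_nonneg _)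
        (by positivity))
  refine h1.trans ?_
  have e2 : (4 * (n : ℝ) + 1) ≤ Real.exp (4 * n) := by
    have := Real.add_one_le_exp (4 * (n : ℝ))
    linarith
  have e3 : |(Q : ℝ)| ^ (5 * n) = Real.exp (5 * n * Real.log |(Q : ℝ)|) := by
    have : (5 : ℝ) * n * Real.log |(Q : ℝ)| = ((5 * n : ℕ) : ℝ) * Real.log |(Q : ℝ)| := by push_cast; ring
    rw [this, Real.exp_nat_mul, Real.exp_log (by linarith)]
  have e4 : (2 : ℝ) ^ (9 * n) ≤ Real.exp (9 * n) := by
    have e1 : (2 : ℝ) ≤ Real.exp 1 := by linarith [Real.exp_one_gt_d9]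
    have e2 : Real.exp (9 * n) = Real.exp 1 ^ (9 * n) := by
      rw [← Real.exp_nat_mul]; congr 1; push_cast; ring
    rw [e2]
    exact pow_le_pow_left₀ (by norm_num) e1 _
  have e5 : (n.factorial : ℝ) ≤ Real.exp (n * Real.log n) := by
    rw [mul_comm, Real.exp_mul, Real.exp_log hn0, Real.rpow_natCast]
    exact_mod_cast Nat.factorial_le_pow n
  have e6 : Real.exp (4 * n * Real.log n - 4 * n) ≤ ((4 * n).factorial : ℝ) := by
    have g1 := Real.pow_div_factorial_le_exp ((4 * n : ℕ) : ℝ) (Nat.cast_nonneg _) (4 * n)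
    have hf : (0 : ℝ) < ((4 * n).factorial : ℝ) := by positivity
    rw [div_le_iff₀ hf] at g1
    have g2 : Real.exp (4 * n * Real.log n) ≤ ((4 * n : ℕ) : ℝ) ^ (4 * n) := by
      have : (4 : ℝ) * n * Real.log n = ((4 * n : ℕ) : ℝ) * Real.log n := by push_cast; ring
      rw [this, Real.exp_nat_mul, Real.exp_log hn0]
      refine pow_le_pow_left₀ hn0.le ?_ _
      push_cast
      linarith
    rw [Real.exp_sub, div_le_iff₀ (Real.exp_pos _)]
    have g3 : Real.exp ((4 * n : ℕ) : ℝ) = Real.exp (4 * n) := by push_cast; rfl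
    rw [g3] at g1
    linarith
  have e7 : (n.factorial : ℝ) / ((4 * n).factorial : ℝ) ≤ Real.exp (n * Real.log n - (4 * n * Real.log n - 4 * n)) := by
    rw [Real.exp_sub]
    exact div_le_div₀ (Real.exp_pos _).le e5 (Real.exp_pos _) e6
  have e8 : (22 * (n : ℝ)) ^ (4 * n) ≤ Real.exp (4 * n * Real.log n + 16 * n) := by
    have g1 : (22 : ℝ) ^ (4 * n) ≤ Real.exp (16 * n) := by
      have g2 : (22 : ℝ) ≤ Real.exp 4 := by
        have g3 : Real.exp 4 = Real.exp 1 ^ 4 := by rw [← Real.exp_nat_mul]; norm_num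
        have g4 : (2.7182818283 : ℝ) ^ 4 ≤ Real.exp 1 ^ 4 :=
          pow_le_pow_left₀ (by norm_num) Real.exp_one_gt_d9.le 4
        rw [g3]
        exact le_trans (by norm_num) g4
      have g5 : Real.exp (16 * n) = Real.exp 4 ^ (4 * n) := by
        rw [← Real.exp_nat_mul]; congr 1; push_cast; ring
      rw [g5]
      exact pow_le_pow_left₀ (by norm_num) g2 _
    have g6 : (n : ℝ) ^ (4 * n) = Real.exp (4 * n * Real.log n) := by
      have : (4 : ℝ) * n * Real.log n = ((4 * n : ℕ) : ℝ) * Real.log n := by push_cast; ring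
      rw [this, Real.exp_nat_mul, Real.exp_log hn0]
    rw [mul_pow, g6, Real.exp_add, mul_comm]
    exact mul_le_mul_of_nonneg_left g1 (Real.exp_pos _).le
  calc (4 * (n : ℝ) + 1) * (|(Q : ℝ)| ^ (5 * n) * (2 ^ (9 * n) * ((n.factorial : ℝ) / ((4 * n).factorial : ℝ))) *
        ((22 * (n : ℝ)) ^ (4 * n) * (22 * (n : ℝ)) ^ (4 * n)))
      ≤ Real.exp (4 * n) * (Real.exp (5 * n * Real.log |(Q : ℝ)|) * (Real.exp (9 * n) *
        Real.exp (n * Real.log n - (4 * n * Real.log n - 4 * n))) *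
        (Real.exp (4 * n * Real.log n + 16 * n) * Real.exp (4 * n * Real.log n + 16 * n))) := by
        rw [e3]
        refine mul_le_mul e2 ?_ (by positivity) (Real.exp_pos _).le
        refine mul_le_mul ?_ (mul_le_mul e8 e8 (by positivity) (Real.exp_pos _).le) (by positivity) (by positivity)
        refine mul_le_mul_of_nonneg_left ?_ (Real.exp_pos _).le
        exact mul_le_mul e4 e7 (by positivity) (Real.exp_pos _).le
    _ = Real.exp (5 * n * Real.log n + (49 + 5 * Real.log |(Q : ℝ)|) * n) := by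
        rw [← Real.exp_add, ← Real.exp_add, ← Real.exp_add, ← Real.exp_add, ← Real.exp_add]
        congr 1
        ring

theorem archM_two :
    ∃ N0 : ℕ, ∀ N ≥ N0, ∀ m : ℕ, 4 * (10000 * N) - 1 ≤ m → m ≤ 4 * (10000 * N) + 1 → ∀ α β γ : ℤ,
      |del 2 α β γ| ≤ Real.exp (-((55 + 5 * Real.log |((2 : ℤ) : ℝ)|) * (10000 * N))) →
      |((DD 2 (10000 * N) (5 * (10000 * N)) m α β γ : ℚ) : ℝ)| ≤ (2 * (|(α : ℝ)| + |(β : ℝ)| + 1)) ^ m *
        Real.exp (4 * (10000 * (N : ℝ)) ^ 2 * Real.log (10000 * (N : ℝ)) -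
          20.42 * (10000 * (N : ℝ)) ^ 2) := by
  obtain ⟨Q, hQdef⟩ : ∃ Q : ℤ, Q = 2 := ⟨_, rfl⟩
  rw [← hQdef]
  have hQ : 2 ≤ |Q| := by rw [hQdef]; norm_num
  obtain ⟨κ, hκ⟩ : ∃ κ : ℝ, κ = 1.38 := ⟨_, rfl⟩
  have hκ0 : 0 ≤ κ := by rw [hκ]; norm_num
  have hκ6 : κ ≤ 6 := by rw [hκ]; norm_num
  have hκ' : (20.42 : ℝ) = 4 * κ + 14.9 := by rw [hκ]; norm_num
  rw [hκ']
  have hQ' : 2 ≤ |(Q : ℝ)| := by
    rw [← Int.cast_abs]
    exact_mod_cast hQ
  have h1 : TH844.DL.S_lagr := TH844.DL.A_lagr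
  obtain ⟨C, hC, N1, hT⟩ := TH844.DL.T_bound TH844.DL.A_entry TH844.DL.A_weight TH844.DL.A_cert TH844.DL.A_tail
  rw [← hκ] at hT
  obtain ⟨C4, hC4, hE⟩ := TH844.DL.A_energy
  obtain ⟨N2, hN2⟩ := log_small (C4 + 5 * C + 40)
  refine ⟨N1 + N2 + 1, ?_⟩
  intro N hN m hm1 hm2 α β γ hdel
  obtain ⟨c, hc⟩ : ∃ c : ℝ, c = |(α : ℝ)| + |(β : ℝ)| + 1 := ⟨_, rfl⟩
  have hc1 : 1 ≤ c := by rw [hc]; have := abs_nonneg (α : ℝ); have := abs_nonneg (β : ℝ); linarith
  rw [← hc]
  have hN1 : 1 ≤ N := by omega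
  have hlog := hN2 N (by omega)
  obtain ⟨Y, hYc, hYP, hYE, hYl⟩ := sets' N m hN1 hm1 hm2
  obtain ⟨T, hTL, hTs⟩ := bridge hQ (10000 * N) (5 * (10000 * N)) α β γ
  have hTs' : ∀ f : ℝ[X], HasSum (tm (10000 * N) (5 * (10000 * N)) ((α : ℚ) : ℝ) ((β : ℚ) : ℝ) f) (T f) := by
    intro f
    have h9 := hTs f
    have h10 : tmQ Q (10000 * N) (5 * (10000 * N)) ((α : ℚ) : ℝ) ((β : ℚ) : ℝ) f =
        tm (10000 * N) (5 * (10000 * N)) ((α : ℚ) : ℝ) ((β : ℚ) : ℝ) f := by
      funext s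
      rw [tmQ_eq, hQdef]
      norm_num
    rw [h10] at h9
    exact h9
  have hTb := hT N (by omega) ((α : ℚ) : ℝ) ((β : ℚ) : ℝ) Y hYP T hTs'
  have hEn := hE N hN1
  rw [E2_eq] at hEn
  have hN0 : (1 : ℝ) ≤ N := by exact_mod_cast hN1
  have hmn : (m : ℝ) ≤ 4 * (10000 * N) + 1 := by exact_mod_cast hm2
  have hmn2 : 4 * (10000 * (N : ℝ)) - 1 ≤ m := by
    have : 4 * (10000 * N) ≤ m + 1 := by omega
    have h9 : ((4 * (10000 * N) : ℕ) : ℝ) ≤ ((m + 1 : ℕ) : ℝ) := by exact_mod_cast this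
    push_cast at h9
    linarith
  have hUb := fun y (hy : y ∈ Y) z (hz : z ∈ Y) => U_lag (Q := Q) (by linarith) (n := 10000 * N) (by omega) hYc hm2
    (by push_cast; exact hYl) hy hz
  obtain ⟨n, hn⟩ : ∃ n : ℝ, n = 10000 * N := ⟨_, rfl⟩
  have hcast : ((10000 * N : ℕ) : ℝ) = n := by rw [hn]; push_cast; ring
  rw [hcast] at hUb
  rw [← hn] at hTb hEn hYE hlog hmn hmn2 hdel ⊢
  have hn0 : 0 < n := by linarith
  have hn1 : 10000 ≤ n := by linarith
  have hL1 : 1 ≤ Real.log n := by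
    rw [Real.le_log_iff_exp_le (by linarith)]
    linarith [Real.exp_one_lt_d9]
  obtain ⟨A, hA⟩ : ∃ A : ℝ, A = 2 * c * Real.exp (-κ * n + 5 * n * Real.log n + C * Real.log n) := ⟨_, rfl⟩
  have hA0 : 0 ≤ A := by rw [hA]; positivity
  have hdet := h1 Y (T + del Q (α : ℚ) (β : ℚ) (γ : ℚ) • U Q (10000 * N) (5 * (10000 * N))) A hA0
    (fun y hy z hz => by
      rw [LinearMap.add_apply, LinearMap.smul_apply, smul_eq_mul]
      refine (abs_add_le _ _).trans ?_
      have q1 : |T (lag Y y * lag Y z)| ≤ c * Real.exp (-κ * n + 5 * n * Real.log n + C * Real.log n) := by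
        refine (hTb y hy z hz).trans ?_
        rw [hc]
        apply mul_le_mul_of_nonneg_right _ (Real.exp_pos _).le
        push_cast
        linarith
      have q2 : |del Q (α : ℚ) (β : ℚ) (γ : ℚ) * U Q (10000 * N) (5 * (10000 * N)) (lag Y y * lag Y z)| ≤
          c * Real.exp (-κ * n + 5 * n * Real.log n + C * Real.log n) := by
        rw [abs_mul]
        have hd : |del Q ((α : ℚ) : ℝ) ((β : ℚ) : ℝ) ((γ : ℚ) : ℝ)| ≤
            Real.exp (-((55 + 5 * Real.log |(Q : ℝ)|) * n)) := by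
          push_cast
          exact hdel
        refine (mul_le_mul hd (hUb y hy z hz) (abs_nonneg _) (Real.exp_pos _).le).trans ?_
        rw [← Real.exp_add]
        refine le_trans (Real.exp_le_exp.2 ?_) (le_mul_of_one_le_left (Real.exp_pos _).le hc1)
        have w1 : κ * n ≤ 6 * n := mul_le_mul_of_nonneg_right hκ6 hn0.le
        have w2 : 0 ≤ C * Real.log n := by positivity
        nlinarith
      rw [hA]
      linarith)
  -- the product of the differences
  obtain ⟨V, hV⟩ : ∃ V : ℝ, V = ∏ y ∈ Y, ∏ z ∈ Y.erase y, |y - z| := ⟨_, rfl⟩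
  rw [← hV] at hdet
  have hne : ∀ y ∈ Y, ∀ z ∈ Y.erase y, |y - z| ≠ 0 := by
    intro y _ z hz
    exact abs_ne_zero.2 (sub_ne_zero.2 (Ne.symm (ne_of_mem_erase hz)))
  have hVpos : 0 < V := by
    rw [hV]
    exact prod_pos fun y hy => prod_pos fun z hz => lt_of_le_of_ne (abs_nonneg _) (Ne.symm (hne y hy z hz))
  have hVlog : Real.log V = E2 Y := by
    rw [hV, Real.log_prod (fun y hy => prod_ne_zero_iff.2 (hne y hy)), ← E2_eq]
    exact sum_congr rfl fun y hy => Real.log_prod (fun z hz => hne y hy z hz)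
  -- the determinant
  have hDD : |((DD Q (10000 * N) (5 * (10000 * N)) m α β γ : ℚ) : ℝ)| =
      |(Matrix.of fun i j : Fin m => (T + del Q (α : ℚ) (β : ℚ) (γ : ℚ) • U Q (10000 * N) (5 * (10000 * N)))
        (X ^ ((i : ℕ) + (j : ℕ)))).det| := by
    congr 1
    unfold DD
    have e0 : ∀ M : Matrix (Fin m) (Fin m) ℚ, ((M.det : ℚ) : ℝ) =
        ((algebraMap ℚ ℝ).mapMatrix M).det := by
      intro M
      rw [← RingHom.map_det]
      rfl
    rw [e0]
    congr 1
    ext i j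
    simp only [RingHom.mapMatrix_apply, Matrix.map_apply, Matrix.of_apply]
    exact hTL _
  rw [hDD]
  have hfac : ((Y.card).factorial : ℝ) ≤ Real.exp (m * Real.log m) := by
    rw [hYc]
    have hm0 : (0 : ℝ) < m := by linarith
    rw [mul_comm, Real.exp_mul, Real.exp_log hm0, Real.rpow_natCast]
    exact_mod_cast Nat.factorial_le_pow m
  have hAm : A ^ m = (2 * c) ^ m * Real.exp (m * (-κ * n + 5 * n * Real.log n + C * Real.log n)) := by
    rw [hA, mul_pow, ← Real.exp_nat_mul]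
  rw [hYc, hAm] at hdet
  rw [hYc] at hfac
  have hc0 : 0 < c := by linarith
  have hfin : |(Matrix.of fun i j : Fin m => (T + del Q (α : ℚ) (β : ℚ) (γ : ℚ) • U Q (10000 * N)
      (5 * (10000 * N))) (X ^ ((i : ℕ) + (j : ℕ)))).det| ≤ (2 * c) ^ m *
      Real.exp (m * Real.log m + m * (-κ * n + 5 * n * Real.log n + C * Real.log n) - Real.log V) := by
    rw [Real.exp_sub, Real.exp_log hVpos, mul_div_assoc', le_div_iff₀ hVpos, Real.exp_add]
    refine hdet.trans ?_
    calc (m.factorial : ℝ) * ((2 * c) ^ m * Real.exp (m * (-κ * n + 5 * n * Real.log n + C * Real.log n)))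
        = (2 * c) ^ m * ((m.factorial : ℝ) * Real.exp (m * (-κ * n + 5 * n * Real.log n + C * Real.log n))) := by ring
      _ ≤ (2 * c) ^ m * (Real.exp (m * Real.log m) *
          Real.exp (m * (-κ * n + 5 * n * Real.log n + C * Real.log n))) := by
          apply mul_le_mul_of_nonneg_left _ (by positivity)
          exact mul_le_mul_of_nonneg_right hfac (Real.exp_pos _).le
  refine hfin.trans (mul_le_mul_of_nonneg_left (Real.exp_le_exp.2 ?_) (by positivity))
  rw [hVlog]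
  have hm0 : (0 : ℝ) < m := by linarith
  have hlogm : Real.log m ≤ 2 * Real.log n := by
    rw [two_mul, ← Real.log_mul hn0.ne' hn0.ne']
    apply Real.log_le_log hm0
    nlinarith
  have hQ7 : (15 : ℝ) ≤ TH844.DL.QQ := TH844.DL.A_QQ
  have b1 : (m : ℝ) * Real.log m ≤ 10 * (n * Real.log n) := by
    have h9 : (m : ℝ) ≤ 5 * n := by linarith
    calc (m : ℝ) * Real.log m ≤ m * (2 * Real.log n) := mul_le_mul_of_nonneg_left hlogm hm0.le
      _ ≤ (5 * n) * (2 * Real.log n) := mul_le_mul_of_nonneg_right h9 (by linarith)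
      _ = 10 * (n * Real.log n) := by ring
  have b2 : (m : ℝ) * (-κ * n) ≤ -(4 * κ * n ^ 2) + 6 * n := by
    have e1 : (4 * n - 1) * (κ * n) ≤ m * (κ * n) :=
      mul_le_mul_of_nonneg_right hmn2 (by positivity)
    have e2 : κ * n ≤ 6 * n := mul_le_mul_of_nonneg_right hκ6 hn0.le
    have e3 : (m : ℝ) * (-κ * n) = -(m * (κ * n)) := by ring
    have e4 : (4 * n - 1) * (κ * n) = 4 * κ * n ^ 2 - κ * n := by ring
    rw [e3]
    linarith
  have b3 : (m : ℝ) * (5 * n * Real.log n) ≤ 20 * (n ^ 2 * Real.log n) + 5 * (n * Real.log n) := by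
    have h9 : 0 ≤ 5 * n * Real.log n := by positivity
    have h10 := mul_le_mul_of_nonneg_right hmn h9
    refine h10.trans (le_of_eq ?_)
    ring
  have b4 : (m : ℝ) * (C * Real.log n) ≤ 5 * C * (n * Real.log n) := by
    have h9 : (m : ℝ) ≤ 5 * n := by linarith
    have h10 : 0 ≤ C * Real.log n := by positivity
    have h11 := mul_le_mul_of_nonneg_right h9 h10
    refine h11.trans (le_of_eq ?_)
    ring
  have b5 : (15 : ℝ) * n ^ 2 ≤ TH844.DL.QQ * n ^ 2 := mul_le_mul_of_nonneg_right hQ7 (sq_nonneg n)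
  have b6 : (C4 + 5 * C + 40) * Real.log n * n ≤ 0.1 * n * n := mul_le_mul_of_nonneg_right hlog hn0.le
  have b7 : n * 1 ≤ n * Real.log n := mul_le_mul_of_nonneg_left hL1 hn0.le
  have b8 : (4 * κ + 14.9) * n ^ 2 = 4 * κ * n ^ 2 + 15 * n ^ 2 - 0.1 * n ^ 2 := by ring
  have b9 : (m : ℝ) * (-κ * n + 5 * n * Real.log n + C * Real.log n) =
      m * (-κ * n) + m * (5 * n * Real.log n) + m * (C * Real.log n) := by ring
  rw [b8, b9]
  linarith [hEn, hYE, b1, b2, b3, b4, b5, b6, b7]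


end

end Pool.Agent.TH50.DQ.Mea2
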