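import Pool.Agent.TH50.DQ.MeasL
import Pool.Agent.TH50.DQ.MeasI

/-!
# Linear independence measure for `1, log 2, Li₂(1/2)`; quadratic polynomials at two logarithms
-/

open Filter Topology

namespace Pool.Agent.TH50.DQ.MeaT

open Pool.Agent.TH50.DQ.Mea (del)

noncomputable section

theorem archM_two : ArchM 2 (55 + 5 * Real.log |((2 : ℤ) : ℝ)|) 20.42 := by
  obtain ⟨N0, hN0⟩ := Mea2.archM_two
  exact ⟨2, by norm_num, N0, hN0⟩

theorem measure_li_two : ∃ c : ℝ, 0 < c ∧ ∀ α β γ : ℤ, (α ≠ 0 ∨ β ≠ 0) →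
    c * (|(α : ℝ)| + |(β : ℝ)| + 1) ^ (-(3000 : ℝ)) ≤ |del 2 α β γ| := by
  have h1 := Real.log_two_gt_d9
  have h2 := Real.log_two_lt_d9
  have e1 : |((2 : ℤ) : ℝ)| = 2 := by norm_num
  have e2 : |(((2 : ℤ) - 1 : ℤ) : ℝ)| = 1 := by norm_num
  refine measure_of (C₁ := 55 + 5 * Real.log |((2 : ℤ) : ℝ)|) (μ := 0.1) (B := 20.42) (by norm_num) (by norm_num)
    (by norm_num) ?_ ?_ ?_ archM_two
  · rw [e1]; linarith
  · rw [e1]; linarith
  · rw [e1, e2, Real.log_one]; linarith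

/-- the measure for `Q = 2` -/
theorem measure_two : ∃ c : ℝ, 0 < c ∧ ∀ α β γ : ℤ, (α ≠ 0 ∨ β ≠ 0) →
    c / (max |(α : ℝ)| |(β : ℝ)|) ^ 3000 ≤
      |(γ : ℝ) + α * Real.log 2 + β * ∑' k : ℕ, (1 / 2 : ℝ) ^ (k + 1) / ((k : ℝ) + 1) ^ 2| := by
  obtain ⟨c, hc, h⟩ := measure_li_two
  refine ⟨c * 3 ^ (-(3000 : ℝ)), by positivity, ?_⟩
  intro α β γ hne
  have h1 := h α β γ hne
  have e1 : del 2 (α : ℝ) β γ = (γ : ℝ) + α * Real.log 2 +
      β * ∑' k : ℕ, (1 / 2 : ℝ) ^ (k + 1) / ((k : ℝ) + 1) ^ 2 := by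
    unfold del
    rw [li_one (by norm_num)]
    have e3 : Real.log (1 - 1 / ((2 : ℤ) : ℝ)) = -Real.log 2 := by
      rw [← Real.log_inv]
      norm_num
    rw [e3, neg_neg]
    unfold li
    push_cast
    rfl
  rw [e1] at h1
  refine le_trans ?_ h1
  obtain ⟨M, hM⟩ : ∃ M : ℝ, M = max |(α : ℝ)| |(β : ℝ)| := ⟨_, rfl⟩
  rw [← hM]
  have hM1 : 1 ≤ M := by
    rw [hM]
    rcases hne with h | h
    · refine le_max_of_le_left ?_
      rw [← Int.cast_abs]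
      exact_mod_cast Int.one_le_abs h
    · refine le_max_of_le_right ?_
      rw [← Int.cast_abs]
      exact_mod_cast Int.one_le_abs h
  have hM0 : 0 < M := by linarith
  have hle : |(α : ℝ)| + |(β : ℝ)| + 1 ≤ 3 * M := by
    have a1 : |(α : ℝ)| ≤ M := by rw [hM]; exact le_max_left _ _
    have a2 : |(β : ℝ)| ≤ M := by rw [hM]; exact le_max_right _ _
    linarith
  have hpos : 0 < |(α : ℝ)| + |(β : ℝ)| + 1 := by positivity
  have h2 : (3 * M) ^ (-(3000 : ℝ)) ≤ (|(α : ℝ)| + |(β : ℝ)| + 1) ^ (-(3000 : ℝ)) :=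
    Real.rpow_le_rpow_of_nonpos hpos hle (by norm_num)
  rw [Real.mul_rpow (by norm_num) hM0.le] at h2
  have e3 : M ^ (-(3000 : ℝ)) = 1 / M ^ 3000 := by
    rw [Real.rpow_neg hM0.le, one_div]
    congr 1
    exact_mod_cast Real.rpow_natCast M 3000
  calc c * 3 ^ (-(3000 : ℝ)) / M ^ 3000 = c * (3 ^ (-(3000 : ℝ)) * M ^ (-(3000 : ℝ))) := by rw [e3]; ring
    _ ≤ _ := mul_le_mul_of_nonneg_left h2 hc.le

end

end Pool.Agent.TH50.DQ.MeaT
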