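import Pool.Agent.TH50.DQ.MeasJ
import Pool.Agent.TH89.DL.Li2

/-!
# Quadratic polynomials at two logarithms, with a measure
-/

namespace Pool.Agent.TH50.DQ.MeaT

noncomputable section

lemma low_a {c₀ M W x : ℝ} (hc : 0 < c₀) (hM : 1 ≤ M) (hMW : M ≤ W) (h : c₀ / M ^ 3000 ≤ x) :
    min c₀ 1 / W ^ 3000 ≤ x := by
  refine le_trans ?_ h
  have hM0 : 0 < M := by linarith
  exact div_le_div₀ hc.le (min_le_left _ _) (by positivity) (pow_le_pow_left₀ hM0.le hMW _)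

lemma low_b {c₀ W x : ℝ} (hc : 0 < c₀) (hW : 1 ≤ W) (h : 1 ≤ x) : min c₀ 1 / W ^ 3000 ≤ x := by
  refine le_trans ?_ h
  rw [div_le_one (by positivity)]
  exact (min_le_right _ _).trans (one_le_pow₀ hW)

lemma abs_one_le {z : ℤ} (h : z ≠ 0) : (1 : ℝ) ≤ |(z : ℝ)| := by
  rw [← Int.cast_abs]
  exact_mod_cast Int.one_le_abs h

/-- integral version -/
theorem quad_int (X₁ Y₁ X₂ Y₂ N : ℤ) (hN : 1 ≤ N) (hdet : X₁ * Y₂ - X₂ * Y₁ ≠ 0) :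
    ∃ c : ℝ, 0 < c ∧ ∀ a b d e f g : ℤ, (a ≠ 0 ∨ b ≠ 0 ∨ d ≠ 0 ∨ e ≠ 0 ∨ f ≠ 0 ∨ g ≠ 0) →
      e * X₁ ^ 2 + f * (X₁ * X₂) + g * X₂ ^ 2 = 6 * (e * Y₁ ^ 2 + f * (Y₁ * Y₂) + g * Y₂ ^ 2) →
      c / (|(a : ℝ)| + |(b : ℝ)| + |(d : ℝ)| + |(e : ℝ)| + |(f : ℝ)| + |(g : ℝ)|) ^ 3000 ≤
        ‖((N ^ 2 * a : ℤ) : ℂ) + ((N * (b * X₁ + d * X₂) : ℤ) : ℂ) * (Real.log 2 : ℂ) +
          ((N * (b * Y₁ + d * Y₂) : ℤ) : ℂ) * (Real.pi * Complex.I) +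
          ((2 * e * X₁ * Y₁ + f * (X₁ * Y₂ + X₂ * Y₁) + 2 * g * X₂ * Y₂ : ℤ) : ℂ) *
            ((Real.log 2 : ℂ) * (Real.pi * Complex.I)) +
          ((e * Y₁ ^ 2 + f * (Y₁ * Y₂) + g * Y₂ ^ 2 : ℤ) : ℂ) *
            (6 * (Real.log 2 : ℂ) ^ 2 + (Real.pi * Complex.I) ^ 2)‖ := by
  obtain ⟨c₀, hc₀, hm⟩ := measure_two
  obtain ⟨K, hK⟩ : ∃ K : ℝ, K = N * (|(X₁ : ℝ)| + |(X₂ : ℝ)|) +
      12 * ((Y₁ : ℝ) ^ 2 + |(Y₁ : ℝ) * Y₂| + (Y₂ : ℝ) ^ 2) +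
      (2 * |(X₁ : ℝ) * Y₁| + |(X₁ : ℝ) * Y₂ + X₂ * Y₁| + 2 * |(X₂ : ℝ) * Y₂|) + 1 := ⟨_, rfl⟩
  have hNR : (1 : ℝ) ≤ N := by exact_mod_cast hN
  have p1 : 0 ≤ N * (|(X₁ : ℝ)| + |(X₂ : ℝ)|) := by positivity
  have p2 : 0 ≤ 12 * ((Y₁ : ℝ) ^ 2 + |(Y₁ : ℝ) * Y₂| + (Y₂ : ℝ) ^ 2) := by positivity
  have p3 : 0 ≤ 2 * |(X₁ : ℝ) * Y₁| + |(X₁ : ℝ) * Y₂ + X₂ * Y₁| + 2 * |(X₂ : ℝ) * Y₂| := by positivity
  have hK1 : 1 ≤ K := by rw [hK]; linarith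
  have hK0 : 0 < K := by linarith
  refine ⟨min c₀ 1 / K ^ 3000, by positivity, ?_⟩
  intro a b d e f g hne hq
  obtain ⟨S, hS⟩ : ∃ S : ℝ, S = |(a : ℝ)| + |(b : ℝ)| + |(d : ℝ)| + |(e : ℝ)| + |(f : ℝ)| + |(g : ℝ)| := ⟨_, rfl⟩
  rw [← hS]
  have na := abs_nonneg (a : ℝ)
  have nb := abs_nonneg (b : ℝ)
  have nd := abs_nonneg (d : ℝ)
  have ne := abs_nonneg (e : ℝ)
  have nf := abs_nonneg (f : ℝ)
  have ng := abs_nonneg (g : ℝ)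
  have hS1 : 1 ≤ S := by
    rw [hS]
    rcases hne with h | h | h | h | h | h <;> have := abs_one_le h <;> linarith
  have hS0 : 0 < S := by linarith
  have hKS : 1 ≤ K * S := one_le_mul_of_one_le_of_one_le hK1 hS1
  obtain ⟨B, hB⟩ : ∃ B : ℤ, B = N * (b * X₁ + d * X₂) := ⟨_, rfl⟩
  obtain ⟨D, hD⟩ : ∃ D : ℤ, D = N * (b * Y₁ + d * Y₂) := ⟨_, rfl⟩
  obtain ⟨E, hE⟩ : ∃ E : ℤ, E = 2 * e * X₁ * Y₁ + f * (X₁ * Y₂ + X₂ * Y₁) + 2 * g * X₂ * Y₂ := ⟨_, rfl⟩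
  obtain ⟨A, hA⟩ : ∃ A : ℤ, A = e * Y₁ ^ 2 + f * (Y₁ * Y₂) + g * Y₂ ^ 2 := ⟨_, rfl⟩
  rw [← hB, ← hD, ← hE, ← hA]
  rw [← hA] at hq
  -- sizes
  have sB : |(B : ℝ)| ≤ K * S := by
    have h1 : |(B : ℝ)| ≤ N * (|(b : ℝ)| * |(X₁ : ℝ)| + |(d : ℝ)| * |(X₂ : ℝ)|) := by
      rw [hB]
      push_cast
      rw [abs_mul, abs_of_nonneg (by linarith : (0 : ℝ) ≤ N), ← abs_mul, ← abs_mul]
      exact mul_le_mul_of_nonneg_left (abs_add_le _ _) (by linarith)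
    have h2 : |(b : ℝ)| ≤ S := by rw [hS]; linarith
    have h3 : |(d : ℝ)| ≤ S := by rw [hS]; linarith
    have h4 : N * (|(b : ℝ)| * |(X₁ : ℝ)| + |(d : ℝ)| * |(X₂ : ℝ)|) ≤
        N * (S * |(X₁ : ℝ)| + S * |(X₂ : ℝ)|) := by gcongr
    have h5 : N * (S * |(X₁ : ℝ)| + S * |(X₂ : ℝ)|) = (N * (|(X₁ : ℝ)| + |(X₂ : ℝ)|)) * S := by ring
    have h6 : (N * (|(X₁ : ℝ)| + |(X₂ : ℝ)|)) * S ≤ K * S := by
      apply mul_le_mul_of_nonneg_right _ hS0.le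
      rw [hK]; linarith
    linarith
  have sA : |((-(12 * A) : ℤ) : ℝ)| ≤ K * S := by
    have h1 : |((-(12 * A) : ℤ) : ℝ)| ≤ 12 * (|(e : ℝ)| * (Y₁ : ℝ) ^ 2 + |(f : ℝ)| * |(Y₁ : ℝ) * Y₂| +
        |(g : ℝ)| * (Y₂ : ℝ) ^ 2) := by
      rw [hA]
      push_cast
      rw [abs_neg, abs_mul, abs_of_nonneg (by norm_num : (0 : ℝ) ≤ 12)]
      refine mul_le_mul_of_nonneg_left ?_ (by norm_num)
      refine (abs_add_three _ _ _).trans (le_of_eq ?_)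
      rw [abs_mul, abs_mul, abs_mul (g : ℝ), abs_of_nonneg (sq_nonneg (Y₁ : ℝ)), abs_of_nonneg (sq_nonneg (Y₂ : ℝ))]
    have h2 : |(e : ℝ)| ≤ S := by rw [hS]; linarith
    have h3 : |(f : ℝ)| ≤ S := by rw [hS]; linarith
    have h3' : |(g : ℝ)| ≤ S := by rw [hS]; linarith
    have h4 : 12 * (|(e : ℝ)| * (Y₁ : ℝ) ^ 2 + |(f : ℝ)| * |(Y₁ : ℝ) * Y₂| + |(g : ℝ)| * (Y₂ : ℝ) ^ 2) ≤
        12 * (S * (Y₁ : ℝ) ^ 2 + S * |(Y₁ : ℝ) * Y₂| + S * (Y₂ : ℝ) ^ 2) := by gcongr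
    have h5 : 12 * (S * (Y₁ : ℝ) ^ 2 + S * |(Y₁ : ℝ) * Y₂| + S * (Y₂ : ℝ) ^ 2) =
        (12 * ((Y₁ : ℝ) ^ 2 + |(Y₁ : ℝ) * Y₂| + (Y₂ : ℝ) ^ 2)) * S := by ring
    have h6 : (12 * ((Y₁ : ℝ) ^ 2 + |(Y₁ : ℝ) * Y₂| + (Y₂ : ℝ) ^ 2)) * S ≤ K * S := by
      apply mul_le_mul_of_nonneg_right _ hS0.le
      rw [hK]; linarith
    linarith
  have sE : |(E : ℝ)| ≤ K * S := by
    have h1 : |(E : ℝ)| ≤ 2 * |(e : ℝ)| * |(X₁ : ℝ) * Y₁| + |(f : ℝ)| * |(X₁ : ℝ) * Y₂ + X₂ * Y₁| +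
        2 * |(g : ℝ)| * |(X₂ : ℝ) * Y₂| := by
      rw [hE]
      push_cast
      refine (abs_add_three _ _ _).trans (le_of_eq ?_)
      rw [mul_assoc (2 * (e : ℝ)), abs_mul (2 * (e : ℝ)), abs_mul (2 : ℝ) (e : ℝ), abs_mul (f : ℝ),
        mul_assoc (2 * (g : ℝ)), abs_mul (2 * (g : ℝ)), abs_mul (2 : ℝ) (g : ℝ),
        abs_of_nonneg (by norm_num : (0 : ℝ) ≤ 2)]
    have h2 : |(e : ℝ)| ≤ S := by rw [hS]; linarith
    have h3 : |(f : ℝ)| ≤ S := by rw [hS]; linarith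
    have h3' : |(g : ℝ)| ≤ S := by rw [hS]; linarith
    have h4 : 2 * |(e : ℝ)| * |(X₁ : ℝ) * Y₁| + |(f : ℝ)| * |(X₁ : ℝ) * Y₂ + X₂ * Y₁| +
        2 * |(g : ℝ)| * |(X₂ : ℝ) * Y₂| ≤ 2 * S * |(X₁ : ℝ) * Y₁| + S * |(X₁ : ℝ) * Y₂ + X₂ * Y₁| +
        2 * S * |(X₂ : ℝ) * Y₂| := by gcongr
    have h5 : 2 * S * |(X₁ : ℝ) * Y₁| + S * |(X₁ : ℝ) * Y₂ + X₂ * Y₁| + 2 * S * |(X₂ : ℝ) * Y₂| =
        (2 * |(X₁ : ℝ) * Y₁| + |(X₁ : ℝ) * Y₂ + X₂ * Y₁| + 2 * |(X₂ : ℝ) * Y₂|) * S := by ring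
    have h6 : (2 * |(X₁ : ℝ) * Y₁| + |(X₁ : ℝ) * Y₂ + X₂ * Y₁| + 2 * |(X₂ : ℝ) * Y₂|) * S ≤ K * S := by
      apply mul_le_mul_of_nonneg_right _ hS0.le
      rw [hK]; linarith
    linarith
  -- the number
  obtain ⟨li2, hli⟩ : ∃ x : ℝ, x = ∑' k : ℕ, (1 / 2 : ℝ) ^ (k + 1) / ((k : ℝ) + 1) ^ 2 := ⟨_, rfl⟩
  rw [← hli] at hm
  have hli' : li2 = Real.pi ^ 2 / 12 - Real.log 2 ^ 2 / 2 := by
    rw [hli]
    exact Pool.Agent.TH89.DL.dilog_half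
  obtain ⟨R, hR⟩ : ∃ R : ℝ, R = ((N ^ 2 * a : ℤ) : ℝ) + (B : ℝ) * Real.log 2 + ((-(12 * A) : ℤ) : ℝ) * li2 := ⟨_, rfl⟩
  obtain ⟨J, hJ⟩ : ∃ J : ℝ, J = Real.pi * ((D : ℝ) + E * Real.log 2) := ⟨_, rfl⟩
  have hz : ((N ^ 2 * a : ℤ) : ℂ) + (B : ℂ) * (Real.log 2 : ℂ) + (D : ℂ) * (Real.pi * Complex.I) +
      (E : ℂ) * ((Real.log 2 : ℂ) * (Real.pi * Complex.I)) +
      (A : ℂ) * (6 * (Real.log 2 : ℂ) ^ 2 + (Real.pi * Complex.I) ^ 2) = (R : ℂ) + (J : ℂ) * Complex.I := by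
    rw [hR, hJ, hli']
    push_cast
    linear_combination (A : ℂ) * (Real.pi : ℂ) ^ 2 * Complex.I_sq
  rw [hz]
  have hre : |R| ≤ ‖(R : ℂ) + (J : ℂ) * Complex.I‖ := by
    have := Complex.abs_re_le_norm ((R : ℂ) + (J : ℂ) * Complex.I)
    simpa using this
  have him : |J| ≤ ‖(R : ℂ) + (J : ℂ) * Complex.I‖ := by
    have := Complex.abs_im_le_norm ((R : ℂ) + (J : ℂ) * Complex.I)
    simpa using this
  have hdiv : min c₀ 1 / K ^ 3000 / S ^ 3000 = min c₀ 1 / (K * S) ^ 3000 := by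
    rw [mul_pow, div_div]
  rw [hdiv]
  by_cases h1 : B ≠ 0 ∨ A ≠ 0
  · refine le_trans ?_ hre
    have hne' : B ≠ 0 ∨ (-(12 * A)) ≠ 0 := by
      rcases h1 with h | h
      · exact Or.inl h
      · exact Or.inr (by omega)
    have h2 := hm B (-(12 * A)) (N ^ 2 * a) hne'
    rw [← hR] at h2
    refine low_a hc₀ ?_ (max_le sB sA) h2
    rcases hne' with h | h
    · exact le_max_of_le_left (abs_one_le h)
    · exact le_max_of_le_right (abs_one_le h)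
  · rw [not_or, not_not, not_not] at h1
    obtain ⟨hB0, hA0⟩ := h1
    by_cases ha : a = 0
    · refine le_trans ?_ him
      have hpi : (1 : ℝ) ≤ Real.pi := by linarith [Real.pi_gt_three]
      have hJ' : |(D : ℝ) + E * Real.log 2| ≤ |J| := by
        rw [hJ, abs_mul, abs_of_pos Real.pi_pos]
        exact le_mul_of_one_le_left (abs_nonneg _) hpi
      refine le_trans ?_ hJ'
      by_cases hE0 : E = 0
      · have hD0 : D ≠ 0 := by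
          intro hD0
          have g1 : b * X₁ + d * X₂ = 0 := by
            rw [hB] at hB0
            rcases mul_eq_zero.1 hB0 with h | h
            · omega
            · exact h
          have g2 : b * Y₁ + d * Y₂ = 0 := by
            rw [hD] at hD0
            rcases mul_eq_zero.1 hD0 with h | h
            · omega
            · exact h
          have k1 : e * X₁ ^ 2 + f * (X₁ * X₂) + g * X₂ ^ 2 = 0 := by rw [hq, hA0, mul_zero]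
          have k2 : e * Y₁ ^ 2 + f * (Y₁ * Y₂) + g * Y₂ ^ 2 = 0 := by rw [← hA, hA0]
          have k3 : 2 * e * X₁ * Y₁ + f * (X₁ * Y₂ + X₂ * Y₁) + 2 * g * X₂ * Y₂ = 0 := by rw [← hE, hE0]
          have hdet2 : (X₁ * Y₂ - X₂ * Y₁) ^ 2 ≠ 0 := pow_ne_zero 2 hdet
          have hb : b = 0 := by
            have : b * (X₁ * Y₂ - X₂ * Y₁) = 0 := by linear_combination Y₂ * g1 - X₂ * g2
            exact (mul_eq_zero.1 this).resolve_right hdet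
          have hd : d = 0 := by
            have : d * (X₁ * Y₂ - X₂ * Y₁) = 0 := by linear_combination X₁ * g2 - Y₁ * g1
            exact (mul_eq_zero.1 this).resolve_right hdet
          have he : e = 0 := by
            have : e * (X₁ * Y₂ - X₂ * Y₁) ^ 2 = 0 := by
              linear_combination Y₂ ^ 2 * k1 + X₂ ^ 2 * k2 - X₂ * Y₂ * k3
            exact (mul_eq_zero.1 this).resolve_right hdet2
          have hg : g = 0 := by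
            have : g * (X₁ * Y₂ - X₂ * Y₁) ^ 2 = 0 := by
              linear_combination Y₁ ^ 2 * k1 + X₁ ^ 2 * k2 - X₁ * Y₁ * k3
            exact (mul_eq_zero.1 this).resolve_right hdet2
          have hf : f = 0 := by
            have : f * (X₁ * Y₂ - X₂ * Y₁) ^ 2 = 0 := by
              linear_combination (-2) * (Y₁ * Y₂) * k1 - 2 * (X₁ * X₂) * k2 + (X₁ * Y₂ + X₂ * Y₁) * k3
            exact (mul_eq_zero.1 this).resolve_right hdet2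
          tauto
        rw [hE0]
        refine low_b hc₀ hKS ?_
        push_cast
        rw [zero_mul, add_zero]
        exact abs_one_le hD0
      · have h2 := hm E 0 D (Or.inl hE0)
        have e1 : (D : ℝ) + E * Real.log 2 + ((0 : ℤ) : ℝ) * li2 = (D : ℝ) + E * Real.log 2 := by push_cast; ring
        rw [e1] at h2
        refine low_a hc₀ ?_ ?_ h2
        · exact le_max_of_le_left (abs_one_le hE0)
        · refine max_le sE ?_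
          push_cast
          rw [abs_zero]
          linarith
    · refine le_trans ?_ hre
      refine low_b hc₀ hKS ?_
      rw [hR, hB0, hA0]
      simp only [Int.cast_mul, Int.cast_pow, Int.cast_neg, Int.cast_zero, Int.cast_ofNat]
      have e1 : (N : ℝ) ^ 2 * (a : ℝ) + 0 * Real.log 2 + -(12 * 0) * li2 = (N : ℝ) ^ 2 * a := by ring
      rw [e1, abs_mul]
      have h3 := abs_one_le ha
      have h4 : (1 : ℝ) ≤ |(N : ℝ) ^ 2| := by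
        rw [abs_of_nonneg (sq_nonneg _)]
        exact one_le_pow₀ hNR
      exact one_le_mul_of_one_le_of_one_le h4 h3

/-- the general statement -/
theorem quad_two (x₁ y₁ x₂ y₂ : ℚ) (hdet : x₁ * y₂ - x₂ * y₁ ≠ 0) (l m : ℂ)
    (hl : l = x₁ * (Real.log 2 : ℂ) + y₁ * (Real.pi * Complex.I))
    (hm : m = x₂ * (Real.log 2 : ℂ) + y₂ * (Real.pi * Complex.I)) :
    ∃ c : ℝ, 0 < c ∧ ∀ a b d e f g : ℤ, (a ≠ 0 ∨ b ≠ 0 ∨ d ≠ 0 ∨ e ≠ 0 ∨ f ≠ 0 ∨ g ≠ 0) →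
      e * x₁ ^ 2 + f * (x₁ * x₂) + g * x₂ ^ 2 = 6 * (e * y₁ ^ 2 + f * (y₁ * y₂) + g * y₂ ^ 2) →
      c / (|(a : ℝ)| + |(b : ℝ)| + |(d : ℝ)| + |(e : ℝ)| + |(f : ℝ)| + |(g : ℝ)|) ^ 3000 ≤
        ‖(a : ℂ) + b * l + d * m + e * l ^ 2 + f * (l * m) + g * m ^ 2‖ := by
  obtain ⟨N, hNdef⟩ : ∃ N : ℤ, N = x₁.den * y₁.den * x₂.den * y₂.den := ⟨_, rfl⟩
  have hN : 1 ≤ N := by
    have h1 := x₁.den_pos
    have h2 := y₁.den_pos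
    have h3 := x₂.den_pos
    have h4 := y₂.den_pos
    rw [hNdef]
    have : 0 < (x₁.den : ℤ) * y₁.den * x₂.den * y₂.den := by positivity
    omega
  have hNQ : (N : ℚ) ≠ 0 := by
    have : N ≠ 0 := by omega
    exact_mod_cast this
  obtain ⟨X₁, hX₁⟩ : ∃ z : ℤ, (z : ℚ) = N * x₁ := ⟨x₁.num * y₁.den * x₂.den * y₂.den, by
    rw [hNdef]
    have := Rat.mul_den_eq_num x₁
    push_cast
    rw [← this]
    ring⟩
  obtain ⟨Y₁, hY₁⟩ : ∃ z : ℤ, (z : ℚ) = N * y₁ := ⟨x₁.den * y₁.num * x₂.den * y₂.den, by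
    rw [hNdef]
    have := Rat.mul_den_eq_num y₁
    push_cast
    rw [← this]
    ring⟩
  obtain ⟨X₂, hX₂⟩ : ∃ z : ℤ, (z : ℚ) = N * x₂ := ⟨x₁.den * y₁.den * x₂.num * y₂.den, by
    rw [hNdef]
    have := Rat.mul_den_eq_num x₂
    push_cast
    rw [← this]
    ring⟩
  obtain ⟨Y₂, hY₂⟩ : ∃ z : ℤ, (z : ℚ) = N * y₂ := ⟨x₁.den * y₁.den * x₂.den * y₂.num, by
    rw [hNdef]
    have := Rat.mul_den_eq_num y₂
    push_cast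
    rw [← this]
    ring⟩
  have hdet' : X₁ * Y₂ - X₂ * Y₁ ≠ 0 := by
    intro h0
    apply hdet
    have h1 : (X₁ : ℚ) * Y₂ - X₂ * Y₁ = 0 := by exact_mod_cast h0
    rw [hX₁, hX₂, hY₁, hY₂] at h1
    have h2 : (N : ℚ) ^ 2 * (x₁ * y₂ - x₂ * y₁) = 0 := by linear_combination h1
    exact (mul_eq_zero.1 h2).resolve_left (pow_ne_zero 2 hNQ)
  obtain ⟨c, hc, h⟩ := quad_int X₁ Y₁ X₂ Y₂ N hN hdet'
  have hNR : (0 : ℝ) < (N : ℝ) := by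
    have : (1 : ℝ) ≤ N := by exact_mod_cast hN
    linarith
  refine ⟨c / (N : ℝ) ^ 2, by positivity, ?_⟩
  intro a b d e f g hne hq
  have hq' : e * X₁ ^ 2 + f * (X₁ * X₂) + g * X₂ ^ 2 = 6 * (e * Y₁ ^ 2 + f * (Y₁ * Y₂) + g * Y₂ ^ 2) := by
    have h1 : (e : ℚ) * X₁ ^ 2 + f * (X₁ * X₂) + g * X₂ ^ 2 =
        6 * (e * Y₁ ^ 2 + f * (Y₁ * Y₂) + g * Y₂ ^ 2) := by
      rw [hX₁, hX₂, hY₁, hY₂]
      linear_combination (N : ℚ) ^ 2 * hq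
    exact_mod_cast h1
  have h1 := h a b d e f g hne hq'
  have cX₁ : (X₁ : ℂ) = N * x₁ := by exact_mod_cast congrArg (fun q : ℚ => (q : ℂ)) hX₁
  have cY₁ : (Y₁ : ℂ) = N * y₁ := by exact_mod_cast congrArg (fun q : ℚ => (q : ℂ)) hY₁
  have cX₂ : (X₂ : ℂ) = N * x₂ := by exact_mod_cast congrArg (fun q : ℚ => (q : ℂ)) hX₂
  have cY₂ : (Y₂ : ℂ) = N * y₂ := by exact_mod_cast congrArg (fun q : ℚ => (q : ℂ)) hY₂
  have hqC : (e : ℂ) * x₁ ^ 2 + f * (x₁ * x₂) + g * x₂ ^ 2 =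
      6 * (e * y₁ ^ 2 + f * (y₁ * y₂) + g * y₂ ^ 2) := by exact_mod_cast congrArg (fun q : ℚ => (q : ℂ)) hq
  have e1 : ((N ^ 2 * a : ℤ) : ℂ) + ((N * (b * X₁ + d * X₂) : ℤ) : ℂ) * (Real.log 2 : ℂ) +
          ((N * (b * Y₁ + d * Y₂) : ℤ) : ℂ) * (Real.pi * Complex.I) +
          ((2 * e * X₁ * Y₁ + f * (X₁ * Y₂ + X₂ * Y₁) + 2 * g * X₂ * Y₂ : ℤ) : ℂ) *
            ((Real.log 2 : ℂ) * (Real.pi * Complex.I)) +
          ((e * Y₁ ^ 2 + f * (Y₁ * Y₂) + g * Y₂ ^ 2 : ℤ) : ℂ) *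
            (6 * (Real.log 2 : ℂ) ^ 2 + (Real.pi * Complex.I) ^ 2) =
      (N : ℂ) ^ 2 * ((a : ℂ) + b * l + d * m + e * l ^ 2 + f * (l * m) + g * m ^ 2) := by
    push_cast
    rw [cX₁, cX₂, cY₁, cY₂, hl, hm]
    linear_combination (-((N : ℂ) ^ 2 * (Real.log 2 : ℂ) ^ 2)) * hqC
  rw [e1, norm_mul, norm_pow, Complex.norm_intCast] at h1
  have e2 : |(N : ℝ)| = N := abs_of_pos hNR
  rw [e2] at h1
  have hN2 : (0 : ℝ) < (N : ℝ) ^ 2 := pow_pos hNR 2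
  rw [div_right_comm, div_le_iff₀ hN2, mul_comm]
  exact h1

end

end Pool.Agent.TH50.DQ.MeaT
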