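import Pool.Agent.TH50.DQ.Final
import Pool.Agent.TH50.DQ.MeasA

/-!
# Linear independence measure: the general step, with few imports (for `Q = 2`)

`ArchM`, `contra`, `measure_of` as in `MeasE.lean`, `li_one` as in `Main.lean`.
-/

open Filter Topology

namespace Pool.Agent.TH50.DQ.MeaT

open Pool.Agent.TH50.DQ.Mea (del)

noncomputable section

/-- the archimedean bound for approximate relations -/
def ArchM (Q : ℤ) (C₁ B : ℝ) : Prop := ∃ K : ℝ, 1 ≤ K ∧ ∃ N₀ : ℕ, ∀ N ≥ N₀, ∀ m : ℕ,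
  4 * (10000 * N) - 1 ≤ m → m ≤ 4 * (10000 * N) + 1 → ∀ α β γ : ℤ,
  |del Q α β γ| ≤ Real.exp (-(C₁ * (10000 * N))) →
  |((DD Q (10000 * N) (5 * (10000 * N)) m α β γ : ℚ) : ℝ)| ≤ (K * (|(α : ℝ)| + |(β : ℝ)| + 1)) ^ m *
    Real.exp (4 * (10000 * (N : ℝ)) ^ 2 * Real.log (10000 * (N : ℝ)) - B * (10000 * (N : ℝ)) ^ 2)

/-- the contradiction at one level -/
theorem contra {Q : ℤ} (hQ : Q ≠ 0) (hQ1 : Q ≠ 1) {B lam μ : ℝ} (hμ0 : 0 < μ) (hlm : 5 ≤ lam * μ)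
    (hB0 : 23.78 - 5 * Real.log |(Q : ℝ)| + 25 / 4 * Real.log |((Q - 1 : ℤ) : ℝ)| + μ ≤ B)
    {α β γ : ℤ} (hne' : α ≠ 0 ∨ β ≠ 0) {n : ℕ} (hn1 : 1 ≤ n) (hnQ : (Q * (Q - 1)).natAbs < n)
    (hPn : ∀ m : ℕ, 4 * n - 1 ≤ m → m ≤ 4 * n + 1 → ∀ α β γ : ℤ,
      DD Q n (5 * n) m α β γ ≠ 0 →
      ∑ p ∈ (Finset.range (5 * n + 1)).filter Nat.Prime,
        Real.log ((padicNorm p (DD Q n (5 * n) m α β γ) : ℚ) : ℝ) ≤
      -(4 * (n : ℝ) ^ 2 * Real.log n) +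
        (23.78 - 5 * Real.log |(Q : ℝ)| + 25 / 4 * Real.log |((Q - 1 : ℤ) : ℝ)|) * (n : ℝ) ^ 2)
    {c : ℝ} (hc1 : 1 ≤ c) (hnlow : lam * Real.log c < n)
    (hB : ∀ m : ℕ, 4 * n - 1 ≤ m → m ≤ 4 * n + 1 →
      |((DD Q n (5 * n) m α β γ : ℚ) : ℝ)| ≤ c ^ m *
        Real.exp (4 * (n : ℝ) ^ 2 * Real.log n - B * (n : ℝ) ^ 2)) : False := by
  have hne : ((α : ℤ) : ℚ) ≠ 0 ∨ ((β : ℤ) : ℚ) ≠ 0 := by
    rcases hne' with h | h
    · left; exact_mod_cast h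
    · right; exact_mod_cast h
  have hlc : 0 ≤ Real.log c := Real.log_nonneg hc1
  obtain ⟨m, hm1, hm2, hD⟩ := A_nv Q hQ hQ1 n hn1 (α : ℚ) (β : ℚ) (γ : ℚ) hne
  have hA := hB m hm1 hm2
  have hP := hPn m hm1 hm2 α β γ hD
  set z : ℚ := DD Q n (5 * n) m α β γ with hz
  set S : Finset ℕ := (Finset.range (5 * n + 1)).filter Nat.Prime with hS
  have hpf := Pool.Agent.H336R2.HD.A5_prod_formula z hD S (fun p hp => (Finset.mem_filter.1 hp).2)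
    (fun p => ((padicNorm p z : ℚ) : ℝ)) (fun p _ => le_rfl) (fun p hp hpS => by
      rw [hS, Finset.mem_filter, Finset.mem_range] at hpS
      have h1 : 5 * n < p := by
        by_contra h; exact hpS ⟨by omega, hp⟩
      have h2 : ¬ (p : ℤ) ∣ Q * (Q - 1) := by
        intro h
        have h3 : p ∣ (Q * (Q - 1)).natAbs := Int.natCast_dvd.1 h
        have h4 : (Q * (Q - 1)).natAbs ≠ 0 := by
          rw [Int.natAbs_ne_zero]
          exact mul_ne_zero hQ (by omega)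
        have h5 := Nat.le_of_dvd (Nat.pos_of_ne_zero h4) h3
        omega
      exact A_big Q hQ hQ1 n p m hp hn1 h2 h1 hm2 α β γ)
  have hpos : ∀ p ∈ S, 0 < ((padicNorm p z : ℚ) : ℝ) := by
    intro p hp
    have : Fact p.Prime := ⟨(Finset.mem_filter.1 hp).2⟩
    have h1 : 0 < padicNorm p z := lt_of_le_of_ne (padicNorm.nonneg _) (Ne.symm (padicNorm.nonzero hD))
    exact_mod_cast h1
  have hprodpos : 0 < ∏ p ∈ S, ((padicNorm p z : ℚ) : ℝ) := Finset.prod_pos hpos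
  have hzabs : 0 < |(z : ℝ)| := abs_pos.2 (by exact_mod_cast hD)
  have hlog := Real.log_nonneg hpf
  rw [Real.log_mul hzabs.ne' hprodpos.ne', Real.log_prod (fun p hp => (hpos p hp).ne')] at hlog
  have hlz : Real.log |(z : ℝ)| ≤ m * Real.log c + (4 * (n : ℝ) ^ 2 * Real.log n - B * (n : ℝ) ^ 2) := by
    calc Real.log |(z : ℝ)| ≤ Real.log (c ^ m * Real.exp (4 * (n : ℝ) ^ 2 * Real.log n - B * (n : ℝ) ^ 2)) :=
          Real.log_le_log hzabs hA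
      _ = m * Real.log c + (4 * (n : ℝ) ^ 2 * Real.log n - B * (n : ℝ) ^ 2) := by
          rw [Real.log_mul (by positivity) (Real.exp_pos _).ne', Real.log_pow, Real.log_exp]
  have hn0 : (1 : ℝ) ≤ n := by exact_mod_cast hn1
  have hmq : (m : ℝ) * Real.log c ≤ 5 * n * Real.log c := by
    apply mul_le_mul_of_nonneg_right _ hlc
    have : (m : ℝ) ≤ 4 * n + 1 := by exact_mod_cast hm2
    linarith
  have h1 : 5 * n * Real.log c < μ * (n : ℝ) ^ 2 := by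
    have h4 : 5 * (n * Real.log c) ≤ lam * μ * (n * Real.log c) :=
      mul_le_mul_of_nonneg_right hlm (by positivity)
    have h5 : μ * n * (lam * Real.log c) < μ * n * n := mul_lt_mul_of_pos_left hnlow (by positivity)
    nlinarith
  have h2 : 0 < (n : ℝ) ^ 2 := by positivity
  have h3 := mul_le_mul_of_nonneg_right hB0 h2.le
  nlinarith

/-- the measure from the archimedean bound -/
theorem measure_of {Q : ℤ} (hQ : Q ≠ 0) (hQ1 : Q ≠ 1) {B C₁ μ κ : ℝ} (hμ0 : 0 < μ) (hC : 0 < C₁)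
    (hκ : 5 * C₁ ≤ κ * μ)
    (hB0 : 23.78 - 5 * Real.log |(Q : ℝ)| + 25 / 4 * Real.log |((Q - 1 : ℤ) : ℝ)| + μ ≤ B)
    (hA : ArchM Q C₁ B) : ∃ c : ℝ, 0 < c ∧ ∀ α β γ : ℤ, (α ≠ 0 ∨ β ≠ 0) →
      c * (|(α : ℝ)| + |(β : ℝ)| + 1) ^ (-κ) ≤ |del Q α β γ| := by
  obtain ⟨K, hK, N₀, hN₀⟩ := hA
  obtain ⟨P₀, hP₀⟩ := eventually_atTop.1 (P_main hQ hQ1)
  obtain ⟨M₀, hM₀⟩ : ∃ M₀ : ℕ, M₀ = N₀ + P₀ + (Q * (Q - 1)).natAbs + 1 := ⟨_, rfl⟩
  have hK0 : 0 < K := by linarith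
  obtain ⟨lam, hlam⟩ : ∃ lam : ℝ, lam = κ / C₁ := ⟨_, rfl⟩
  have hlC : lam * C₁ = κ := by rw [hlam]; field_simp
  have hlm : 5 ≤ lam * μ := by
    rw [hlam, div_mul_eq_mul_div, le_div_iff₀ hC]
    exact hκ
  have hlam0 : 0 < lam := by
    by_contra hcon
    rw [not_lt] at hcon
    nlinarith
  refine ⟨Real.exp (-(C₁ * (10000 * (M₀ + 2)))) * K ^ (-κ), by positivity, ?_⟩
  intro α β γ hne
  obtain ⟨h, hh⟩ : ∃ h : ℝ, h = |(α : ℝ)| + |(β : ℝ)| + 1 := ⟨_, rfl⟩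
  rw [← hh]
  have hh1 : 1 ≤ h := by
    rw [hh]
    have ha := abs_nonneg (α : ℝ)
    have hb := abs_nonneg (β : ℝ)
    linarith
  have hKh : 1 ≤ K * h := by nlinarith
  obtain ⟨x, hx⟩ : ∃ x : ℝ, x = lam * Real.log (K * h) := ⟨_, rfl⟩
  have hx0 : 0 ≤ x := by
    rw [hx]
    have := Real.log_nonneg hKh
    positivity
  obtain ⟨N, hN⟩ : ∃ N : ℕ, N = M₀ + ⌈x / 10000⌉₊ := ⟨_, rfl⟩
  have hceil1 := Nat.le_ceil (x / 10000)
  have hceil2 := Nat.ceil_lt_add_one (show 0 ≤ x / 10000 by positivity)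
  have hNR : (N : ℝ) = M₀ + ⌈x / 10000⌉₊ := by rw [hN]; push_cast; rfl
  have hM1 : (1 : ℝ) ≤ M₀ := by
    have : 1 ≤ M₀ := by omega
    exact_mod_cast this
  have hlow : lam * Real.log (K * h) < ((10000 * N : ℕ) : ℝ) := by
    rw [← hx]
    push_cast
    rw [hNR]
    linarith
  have hup : (10000 : ℝ) * N ≤ x + 10000 * (M₀ + 2) := by
    rw [hNR]
    linarith
  have hgt : Real.exp (-(C₁ * (10000 * N))) < |del Q α β γ| := by
    by_contra hcon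
    rw [not_lt] at hcon
    refine contra hQ hQ1 hμ0 hlm hB0 hne (γ := γ) (n := 10000 * N) (by omega) (by omega) (hP₀ (10000 * N) (by omega)) hKh hlow ?_
    intro m hm1 hm2
    have := hN₀ N (by omega) m hm1 hm2 α β γ hcon
    rw [← hh] at this
    push_cast
    exact this
  refine le_trans ?_ hgt.le
  have hh0 : 0 < h := by linarith
  have e1 : K ^ (-κ) * h ^ (-κ) = Real.exp (-(C₁ * x)) := by
    rw [← Real.mul_rpow hK0.le hh0.le, Real.rpow_def_of_pos (by positivity), hx, ← hlC]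
    congr 1
    ring
  rw [mul_assoc, e1, ← Real.exp_add, Real.exp_le_exp]
  have := mul_le_mul_of_nonneg_left hup hC.le
  linarith

/-- `Li₁(1/Q)` -/
lemma li_one {Q : ℤ} (hQ : 2 ≤ |Q|) : li Q 1 = -Real.log (1 - 1 / (Q : ℝ)) := by
  have h1 : |1 / (Q : ℝ)| < 1 := by
    have : (2 : ℝ) ≤ |(Q : ℝ)| := by
      rw [← Int.cast_abs]
      exact_mod_cast hQ
    rw [abs_div, abs_one, div_lt_one (by linarith)]
    linarith
  have h2 := Real.hasSum_pow_div_log_of_abs_lt_one h1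
  unfold li
  rw [← h2.tsum_eq]
  refine tsum_congr fun s => ?_
  rw [pow_one]

end

end Pool.Agent.TH50.DQ.MeaT
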