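import Pool.Agent.TH50.DQ.Tasks
import Pool.Agent.H422R2.LP.PMain

/-! The sum over the primes for general `Q` (port of `H422R2/LP/PMain.lean`). -/

open Filter Topology Finset

namespace Pool.Agent.TH50.DQ.PM

open Pool.Agent.LP (wl dB)
open Pool.Agent.LP.PM Pool.Agent.TH50.DQ

noncomputable section

/-- valuation of `dB n` -/
lemma val_dB {p : ℕ} (hp : p.Prime) (n : ℕ) : ((p : ℝ) - 1) * padicValNat p (dB n) ≤
    (4 * n + 1) * (n + ((p : ℝ) - 1) * Nat.log p (5 * n)) := by
  have : Fact p.Prime := ⟨hp⟩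
  have hp1 : (1 : ℝ) < p := by exact_mod_cast hp.one_lt
  have h1 : ∀ l ∈ range (4 * n + 1), ((p : ℝ) - 1) * ((l + 1).ascFactorial n).factorization p ≤
      n + ((p : ℝ) - 1) * Nat.log p (5 * n) := by
    intro l hl
    rw [mem_range] at hl
    rw [Nat.ascFactorial_eq_factorial_mul_choose, Nat.factorization_mul (Nat.factorial_ne_zero _)
      (Nat.choose_pos (by omega)).ne', Finsupp.add_apply]
    have h2 : ((l + n).choose n).factorization p ≤ Nat.log p (5 * n) :=
      (Nat.factorization_choose_le_log).trans (Nat.log_mono_right (by omega))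
    have h3 : (p - 1) * padicValNat p n.factorial ≤ n := by
      rw [sub_one_mul_padicValNat_factorial (p := p) n]; exact Nat.sub_le _ _
    have h4 : (((p - 1 : ℕ) : ℝ)) * padicValNat p n.factorial ≤ n := by exact_mod_cast h3
    rw [Nat.cast_sub hp.one_lt.le, Nat.cast_one] at h4
    rw [Nat.factorization_def _ hp]
    have h5 : ((((l + n).choose n).factorization p : ℕ) : ℝ) ≤ Nat.log p (5 * n) := by exact_mod_cast h2
    have h6 := mul_le_mul_of_nonneg_left h5 (by linarith : (0 : ℝ) ≤ (p : ℝ) - 1)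
    push_cast
    linarith
  unfold dB
  rw [← Nat.factorization_def _ hp,
    Nat.factorization_prod (fun l _ => (Nat.ascFactorial_pos _ _).ne'), Finsupp.finset_sum_apply]
  push_cast
  rw [mul_sum]
  refine (sum_le_sum h1).trans ?_
  rw [sum_const, card_range, nsmul_eq_mul]
  push_cast
  exact le_refl _

lemma sum_kap {Q : ℤ} (hQ : Q ≠ 0) {M : ℕ} (hM : ∀ p : ℕ, p.Prime → (p : ℤ) ∣ Q → p ≤ M) :
    ∑ p ∈ (range (M + 1)).filter Nat.Prime, (padicValInt p Q : ℝ) * Real.log p = Real.log |(Q : ℝ)| := by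
  have h := log_eq_sum_val (N := Q.natAbs) (S := M) (by omega) (fun p hp hd => hM p hp (by
    rw [Int.natCast_dvd]; exact hd))
  have e : ((Q.natAbs : ℕ) : ℝ) = |(Q : ℝ)| := by
    rw [Nat.cast_natAbs]; push_cast; rfl
  rw [← e, h]
  rfl

lemma kap_zero {p : ℕ} {Q : ℤ} (h : ¬ (p : ℤ) ∣ Q) : padicValInt p Q = 0 := by
  unfold padicValInt
  apply padicValNat.eq_zero_of_not_dvd
  intro h2
  exact h (Int.natCast_dvd.2 h2)

theorem P_main_of (hsmall : S_small) (hlarge : S_large) (hdiv : S_div) (hone : S_one) {Q : ℤ} (hQ : Q ≠ 0)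
    (hQ1 : Q ≠ 1) :
    ∀ᶠ n : ℕ in atTop, ∀ m : ℕ, 4 * n - 1 ≤ m → m ≤ 4 * n + 1 → ∀ α β γ : ℤ,
      DD Q n (5 * n) m α β γ ≠ 0 →
      ∑ p ∈ (Finset.range (5 * n + 1)).filter Nat.Prime,
        Real.log ((padicNorm p (DD Q n (5 * n) m α β γ) : ℚ) : ℝ) ≤
      -(4 * (n : ℝ) ^ 2 * Real.log n) +
        (23.78 - 5 * Real.log |(Q : ℝ)| + 25 / 4 * Real.log |((Q - 1 : ℤ) : ℝ)|) * (n : ℝ) ^ 2 := by
  have hQ1' : Q - 1 ≠ 0 := sub_ne_zero.2 hQ1
  set P : Finset ℕ := (Q * (Q - 1)).natAbs.primeFactors with hP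
  have hQQ : (Q * (Q - 1)).natAbs ≠ 0 := by
    rw [Int.natAbs_ne_zero]; exact mul_ne_zero hQ hQ1'
  have hPmem : ∀ p : ℕ, p ∈ P ↔ p.Prime ∧ (p : ℤ) ∣ Q * (Q - 1) := by
    intro p
    rw [hP, Nat.mem_primeFactors, Int.natCast_dvd]
    exact ⟨fun h => ⟨h.1, h.2.1⟩, fun h => ⟨h.1, h.2, hQQ⟩⟩
  -- constant for the special primes
  have hC : ∃ C : ℝ, 0 < C ∧ ∀ p ∈ P, ∀ n : ℕ, 2 ≤ n → ∀ m : ℕ, 4 * n - 1 ≤ m → m ≤ 4 * n + 1 → ∀ α β γ : ℤ,
      DD Q n (5 * n) m α β γ ≠ 0 →
      Real.log ((padicNorm p (DD Q n (5 * n) m α β γ) : ℚ) : ℝ) ≤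
        -(4 / ((p : ℝ) - 1)) * Real.log p * (n : ℝ) ^ 2 +
        (-5 * (padicValInt p Q * Real.log p) + 25 / 4 * (padicValInt p (Q - 1) * Real.log p)) * (n : ℝ) ^ 2 +
          C * n * Real.log n := by
    have h1 : ∀ p ∈ P, ∃ C : ℝ, 0 < C ∧ ∀ n : ℕ, 2 ≤ n → ∀ m : ℕ, 4 * n - 1 ≤ m → m ≤ 4 * n + 1 → ∀ α β γ : ℤ,
      DD Q n (5 * n) m α β γ ≠ 0 →
      Real.log ((padicNorm p (DD Q n (5 * n) m α β γ) : ℚ) : ℝ) ≤
        -(4 / ((p : ℝ) - 1)) * Real.log p * (n : ℝ) ^ 2 +
        (-5 * (padicValInt p Q * Real.log p) + 25 / 4 * (padicValInt p (Q - 1) * Real.log p)) * (n : ℝ) ^ 2 +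
          C * n * Real.log n := by
      intro p hp
      rw [hPmem] at hp
      have hpp := hp.1
      by_cases hd : (p : ℤ) ∣ Q
      · obtain ⟨C, hC, h⟩ := hdiv Q hQ hQ1 p hpp hd
        refine ⟨C, hC, fun n hn m hm1 hm2 α β γ hD => (h n hn m hm1 hm2 α β γ hD).trans ?_⟩
        have hnd : ¬ (p : ℤ) ∣ Q - 1 := by
          intro h2
          have h3 := dvd_sub hd h2
          have e : Q - (Q - 1) = 1 := by ring
          rw [e] at h3
          have := Int.eq_one_of_dvd_one (by positivity) h3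
          have h4 := hpp.one_lt
          omega
        rw [kap_zero hnd]
        apply le_of_eq
        push_cast
        ring
      · have hd1 : (p : ℤ) ∣ Q - 1 := by
          rcases (Nat.prime_iff_prime_int.1 hpp).dvd_or_dvd hp.2 with h | h
          · exact absurd h hd
          · exact h
        obtain ⟨C, hC, h⟩ := hone Q hQ hQ1 p hpp hd1
        refine ⟨C, hC, fun n hn m hm1 hm2 α β γ hD => (h n hn m hm1 hm2 α β γ hD).trans ?_⟩
        rw [kap_zero hd]
        apply le_of_eq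
        push_cast
        ring
    choose! Cf hCf hCf2 using h1
    refine ⟨∑ p ∈ P, Cf p + 1, ?_, ?_⟩
    · have : 0 ≤ ∑ p ∈ P, Cf p := sum_nonneg fun p hp => (hCf p hp).le
      linarith
    · intro p hp n hn m hm1 hm2 α β γ hD
      refine (hCf2 p hp n hn m hm1 hm2 α β γ hD).trans ?_
      have h2 : Cf p ≤ ∑ p ∈ P, Cf p + 1 := by
        have := single_le_sum (f := Cf) (fun q hq => (hCf q hq).le) hp
        linarith
      have hn0 : (0 : ℝ) ≤ n * Real.log n := by
        have : (0 : ℝ) ≤ Real.log n := Real.log_natCast_nonneg n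
        positivity
      nlinarith
  obtain ⟨C, hC0, hCs⟩ := hC
  obtain ⟨K, hK, hKs⟩ := sum_wl (1 / 1000) (by norm_num)
  set c : ℝ := (P.card : ℝ) with hcard
  have hc0 : 0 ≤ c := Nat.cast_nonneg _
  set A : ℝ := c * (C + 20) + 26 with hA
  have hA0 : 26 ≤ A := by
    have : 0 ≤ c * (C + 20) := by positivity
    rw [hA]; linarith
  -- the analytic remainder
  have hrem : ∀ᶠ n : ℕ in atTop,
      (1 + 1 / 1000) * (8 * (n : ℝ) + 1) + 2 * K * (4 * n + 1) + 20 * n * Real.log (5 * n + 1) +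
        A * n * Real.log (5 * n + 1) + A * n +
        (Real.sqrt (5 * n + 1) + 1) * (3 * (4 * (n : ℝ) + 1) * Real.log (5 * n + 1)) ≤ 0.19 * (n : ℝ) ^ 2 := by
    have hε : (0 : ℝ) < 1 / (10000 * A) := by positivity
    have h1 := (isLittleO_log_rpow_atTop (r := 1 / 2) (by norm_num)).def hε
    have h2 : Tendsto (fun n : ℕ => (5 * (n : ℝ) + 1)) atTop atTop :=
      tendsto_atTop_add_const_right _ _ ((tendsto_natCast_atTop_atTop).const_mul_atTop (by norm_num))
    have h3 := h2.eventually h1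
    filter_upwards [h3, eventually_ge_atTop 1, eventually_ge_atTop (⌈2000 * (K + 1)⌉₊),
      eventually_ge_atTop (⌈100 * A⌉₊)] with n hn hn1 hnK hnA
    have hn1' : (1 : ℝ) ≤ n := by exact_mod_cast hn1
    have hnK' : 2000 * (K + 1) ≤ (n : ℝ) := (Nat.le_ceil _).trans (by exact_mod_cast hnK)
    have hnA' : 100 * A ≤ (n : ℝ) := (Nat.le_ceil _).trans (by exact_mod_cast hnA)
    rw [← Real.sqrt_eq_rpow] at hn
    set L := Real.log (5 * (n : ℝ) + 1) with hL
    have hL0 : 0 ≤ L := Real.log_nonneg (by linarith)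
    have hs0 : 0 ≤ Real.sqrt (5 * (n : ℝ) + 1) := Real.sqrt_nonneg _
    rw [Real.norm_of_nonneg hL0, Real.norm_of_nonneg hs0] at hn
    set r := Real.sqrt (n : ℝ) with hr
    have hr2 : r ^ 2 = n := Real.sq_sqrt (by linarith)
    have hr0 : 0 ≤ r := Real.sqrt_nonneg _
    have hr1 : 1 ≤ r := by
      rw [hr]
      exact Real.one_le_sqrt.2 hn1'
    have hsr : Real.sqrt (5 * (n : ℝ) + 1) ≤ 3 * r := by
      rw [show 3 * r = Real.sqrt ((3 * r) ^ 2) from (Real.sqrt_sq (by positivity)).symm]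
      refine Real.sqrt_le_sqrt ?_
      rw [mul_pow, hr2]
      linarith
    have hLr : L * A ≤ 3 / 10000 * r := by
      have h4 : L ≤ 1 / (10000 * A) * (3 * r) :=
        hn.trans (mul_le_mul_of_nonneg_left hsr hε.le)
      calc L * A ≤ 1 / (10000 * A) * (3 * r) * A :=
            mul_le_mul_of_nonneg_right h4 (by positivity)
        _ = 3 / 10000 * r := by field_simp
    have hL26 : L * 26 ≤ 3 / 10000 * r := by nlinarith
    have hrn : r ≤ n := by nlinarith
    have t1 : (1 + 1 / 1000) * (8 * (n : ℝ) + 1) + 2 * K * (4 * n + 1) ≤ 0.01 * (n : ℝ) ^ 2 := by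
      nlinarith
    have t2 : 20 * (n : ℝ) * L ≤ 0.01 * (n : ℝ) ^ 2 := by nlinarith
    have t3 : A * n ≤ 0.01 * (n : ℝ) ^ 2 := by nlinarith
    have t5 : A * n * L ≤ 0.01 * (n : ℝ) ^ 2 := by nlinarith
    have t6 : (Real.sqrt (5 * (n : ℝ) + 1) + 1) * (3 * (4 * (n : ℝ) + 1) * L) ≤ 0.1 * (n : ℝ) ^ 2 := by
      have a1 : Real.sqrt (5 * (n : ℝ) + 1) + 1 ≤ 4 * r := by linarith
      have a2 : 3 * (4 * (n : ℝ) + 1) * L ≤ 15 * n * L := by nlinarith
      calc _ ≤ 4 * r * (15 * n * L) := mul_le_mul a1 a2 (by positivity) (by positivity)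
        _ = 60 * n * (r * L) := by ring
        _ ≤ 60 * n * (r * (3 / 260000 * r)) := by
            refine mul_le_mul_of_nonneg_left (mul_le_mul_of_nonneg_left ?_ hr0) (by positivity)
            linarith
        _ = 60 * 3 / 260000 * n * r ^ 2 := by ring
        _ ≤ 0.1 * (n : ℝ) ^ 2 := by
            rw [hr2]
            nlinarith
    have hnn2 : (0 : ℝ) ≤ (n : ℝ) ^ 2 := by positivity
    linarith
  filter_upwards [hrem, eventually_ge_atTop 2, eventually_ge_atTop (Q * (Q - 1)).natAbs,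
    eventually_ge_atTop (Q - 1).natAbs, eventually_ge_atTop Q.natAbs]
    with n hn hn2 hnQ hnQ1 hnQ0 m hm1 hm2 α β γ hD
  set D := DD Q n (5 * n) m α β γ with hDdef
  set S := (Finset.range (5 * n + 1)).filter Nat.Prime with hS
  have hn1 : 1 ≤ n := by omega
  have hn0 : (1 : ℝ) ≤ n := by exact_mod_cast hn1
  have hL0 : 0 ≤ Real.log (5 * (n : ℝ) + 1) := Real.log_nonneg (by linarith)
  have hlnn : 0 ≤ Real.log n := Real.log_natCast_nonneg n
  have hlnL : Real.log n ≤ Real.log (5 * (n : ℝ) + 1) := Real.log_le_log (by linarith) (by linarith)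
  -- error terms
  set E1 : ℕ → ℝ := fun p => if p ^ 2 ≤ 5 * n + 1 then 3 * (4 * (n : ℝ) + 1) * Real.log (5 * n + 1) else 0 with hE1
  set E2 : ℕ → ℝ := fun p => if p ∈ P then (C + 20) * n * Real.log (5 * n + 1) else 0 with hE2
  have hE1n : ∀ p, 0 ≤ E1 p := by
    intro p; rw [hE1]; simp only; split_ifs <;> positivity
  have hE2n : ∀ p, 0 ≤ E2 p := by
    intro p; rw [hE2]; simp only; split_ifs <;> positivity
  -- single primes
  have hsingle : ∀ p ∈ S, Real.log ((padicNorm p D : ℚ) : ℝ) ≤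
      ((∑ l ∈ range (4 * n + 1), wl n p l : ℕ) : ℝ) * Real.log p +
        4 * ((padicValNat p (5 * n).factorial : ℝ) * Real.log p) -
        (padicValNat p (dB n) : ℝ) * Real.log p +
        (-5 * (padicValInt p Q * Real.log p) + 25 / 4 * (padicValInt p (Q - 1) * Real.log p)) * (n : ℝ) ^ 2 +
        (E1 p + E2 p) := by
    intro p hp
    rw [hS, mem_filter] at hp
    have hpp := hp.2
    have : Fact p.Prime := ⟨hpp⟩
    have hlp : 0 ≤ Real.log p := Real.log_natCast_nonneg p
    have hne : padicNorm p D ≠ 0 := padicNorm.nonzero hD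
    have hW : 0 ≤ ((∑ l ∈ range (4 * n + 1), wl n p l : ℕ) : ℝ) * Real.log p := by positivity
    have hV : 0 ≤ (padicValNat p (5 * n).factorial : ℝ) * Real.log p := by positivity
    by_cases hpP : p ∈ P
    · have h3 := hCs p hpP n hn2 m hm1 hm2 α β γ hD
      rw [← hDdef] at h3
      have hE : E2 p = (C + 20) * n * Real.log (5 * n + 1) := by rw [hE2]; simp only; rw [if_pos hpP]
      have hp1 : (1 : ℝ) < p := by exact_mod_cast hpp.one_lt
      have hv := val_dB hpp n
      have hlog5 : (Nat.log p (5 * n) : ℝ) * Real.log p ≤ Real.log (5 * n + 1) := by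
        have h6 : p ^ Nat.log p (5 * n) ≤ 5 * n := Nat.pow_log_le_self p (by omega)
        have h7 : (p : ℝ) ^ Nat.log p (5 * n) ≤ 5 * (n : ℝ) + 1 := by
          have : (p : ℝ) ^ Nat.log p (5 * n) ≤ 5 * (n : ℝ) := by exact_mod_cast h6
          linarith
        have h8 := Real.log_le_log (by have := hpp.pos; positivity) h7
        rwa [Real.log_pow] at h8
      -- `v_p(dB) log p ≤ 4 n^2 log p / (p - 1) + ...`
      have hlam : Real.log p / ((p : ℝ) - 1) ≤ 1 := by
        rw [div_le_one (by linarith)]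
        have := Real.log_le_sub_one_of_pos (show (0 : ℝ) < p by linarith)
        linarith
      have hlam0 : 0 ≤ Real.log p / ((p : ℝ) - 1) := div_nonneg hlp (by linarith)
      have hv2 : (padicValNat p (dB n) : ℝ) * Real.log p ≤
          4 / ((p : ℝ) - 1) * Real.log p * (n : ℝ) ^ 2 + n + (4 * n + 1) * Real.log (5 * n + 1) := by
        have e1 : (padicValNat p (dB n) : ℝ) * Real.log p =
            (((p : ℝ) - 1) * padicValNat p (dB n)) * (Real.log p / ((p : ℝ) - 1)) := by
          have : (p : ℝ) - 1 ≠ 0 := by linarith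
          field_simp
        rw [e1]
        refine (mul_le_mul_of_nonneg_right hv hlam0).trans ?_
        have e2 : (4 * (n : ℝ) + 1) * (n + ((p : ℝ) - 1) * Nat.log p (5 * n)) * (Real.log p / ((p : ℝ) - 1)) =
            4 / ((p : ℝ) - 1) * Real.log p * (n : ℝ) ^ 2 + n * (Real.log p / ((p : ℝ) - 1)) +
              (4 * n + 1) * (Nat.log p (5 * n) * Real.log p) := by
          have : (p : ℝ) - 1 ≠ 0 := by linarith
          field_simp <;> ring
        rw [e2]
        have h9 := mul_le_mul_of_nonneg_left hlam (by linarith : (0 : ℝ) ≤ n)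
        have h10 := mul_le_mul_of_nonneg_left hlog5 (by positivity : (0 : ℝ) ≤ 4 * n + 1)
        linarith
      have hE1p := hE1n p
      rw [hE]
      have h11 : C * n * Real.log n ≤ C * n * Real.log (5 * n + 1) := mul_le_mul_of_nonneg_left hlnL (by positivity)
      have hL1 : 1 ≤ Real.log (5 * (n : ℝ) + 1) := by
        rw [Real.le_log_iff_exp_le (by linarith)]
        linarith [Real.exp_one_lt_d9]
      have h12 : (n : ℝ) + (4 * n + 1) * Real.log (5 * n + 1) ≤ 20 * n * Real.log (5 * n + 1) := by nlinarith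
      nlinarith
    · have hnd : ¬ (p : ℤ) ∣ Q * (Q - 1) := fun h => hpP ((hPmem p).2 ⟨hpp, h⟩)
      have hk1 : padicValInt p Q = 0 := kap_zero fun h => hnd (h.mul_right _)
      have hk2 : padicValInt p (Q - 1) = 0 := kap_zero fun h => hnd (h.mul_left _)
      rw [hk1, hk2]
      have hE0 : E2 p = 0 := by rw [hE2]; simp only; rw [if_neg hpP]
      rw [hE0]
      by_cases h3 : p ^ 2 ≤ 5 * n + 1
      · have hE : E1 p = 3 * (4 * (n : ℝ) + 1) * Real.log (5 * n + 1) := by rw [hE1]; simp only; rw [if_pos h3]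
        rw [hE]
        have h4 := log_zpow_bound hpp hne (hsmall Q hQ hQ1 n p m hpp hn1 hnd hm1 hm2 α β γ)
          (padicNorm.nonneg _)
        have h5 : (Nat.log p (5 * n + 1) : ℝ) * Real.log p ≤ Real.log (5 * n + 1) := by
          have h6 : p ^ Nat.log p (5 * n + 1) ≤ 5 * n + 1 := Nat.pow_log_le_self p (by omega)
          have h7 : ((p : ℝ)) ^ Nat.log p (5 * n + 1) ≤ 5 * (n : ℝ) + 1 := by exact_mod_cast h6
          have h8 := Real.log_le_log (by have := hpp.pos; positivity) h7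
          rwa [Real.log_pow] at h8
        have h6 := mul_le_mul_of_nonneg_left h5 (show (0 : ℝ) ≤ 3 * (4 * (n : ℝ) + 1) by positivity)
        rw [Int.cast_sub, Int.cast_add, Int.cast_mul, Int.cast_natCast, Int.cast_natCast, Int.cast_natCast] at h4
        have e3 : ((3 * Nat.log p (5 * n + 1) * (4 * n + 1) : ℕ) : ℝ) =
            3 * (4 * (n : ℝ) + 1) * Nat.log p (5 * n + 1) := by
          rw [Nat.cast_mul, Nat.cast_mul, Nat.cast_add, Nat.cast_mul]
          norm_num
          ring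
        have e4 : ((4 : ℤ) : ℝ) = 4 := by norm_num
        rw [e3, e4] at h4
        push_cast at hW ⊢
        linarith
      · have hE : E1 p = 0 := by rw [hE1]; simp only; rw [if_neg h3]
        rw [hE]
        have h4 := log_zpow_bound hpp hne (hlarge Q hQ hQ1 n p m hpp hn1 hnd (by omega) hm1 hm2 α β γ)
          (padicNorm.nonneg _)
        rw [Int.cast_sub, Int.cast_add, Int.cast_mul, Int.cast_natCast, Int.cast_natCast, Int.cast_natCast] at h4
        have e4 : ((4 : ℤ) : ℝ) = 4 := by norm_num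
        rw [e4] at h4
        push_cast
        push_cast at h4
        linarith
  refine (sum_le_sum hsingle).trans ?_
  rw [sum_add_distrib, sum_add_distrib, sum_sub_distrib, sum_add_distrib, ← mul_sum, ← sum_mul, sum_add_distrib,
    ← mul_sum, ← mul_sum, sum_add_distrib]
  rw [← log_eq_sum_val (Nat.factorial_ne_zero (5 * n)) (fun p hp h => (hp.dvd_factorial).1 h),
    ← log_eq_sum_val (Pool.Agent.LP.PM.dB_ne_zero n) (fun p hp h => dB_primes hp h),
    sum_kap hQ (fun p hp h => by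
      have := Nat.le_of_dvd (by omega) (Int.natCast_dvd.1 h)
      omega),
    sum_kap hQ1' (fun p hp h => by
      have := Nat.le_of_dvd (by omega) (Int.natCast_dvd.1 h)
      omega)]
  have hw := hKs n
  have hdB := (GG_value hn1).trans (log_dB n)
  have hfac : Real.log ((5 * n).factorial : ℝ) ≤ 5 * n * Real.log (5 * n + 1) := by
    have h1 : ((5 * n).factorial : ℝ) ≤ (5 * (n : ℝ) + 1) ^ (5 * n) := by
      have h2 : (5 * n).factorial ≤ (5 * n + 1) ^ (5 * n) :=
        (Nat.factorial_le_pow (5 * n)).trans (Nat.pow_le_pow_left (by omega) _)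
      exact_mod_cast h2
    have h3 := Real.log_le_log (by positivity) h1
    rw [Real.log_pow] at h3
    push_cast at h3
    exact h3
  have hEE1 : ∑ p ∈ S, E1 p ≤
      (Real.sqrt (5 * n + 1) + 1) * (3 * (4 * (n : ℝ) + 1) * Real.log (5 * n + 1)) := by
    rw [hE1]
    simp only
    rw [← sum_filter, sum_const, nsmul_eq_mul]
    refine mul_le_mul_of_nonneg_right ?_ (by positivity)
    have h1 : (S.filter fun p => p ^ 2 ≤ 5 * n + 1) ⊆ range (Nat.sqrt (5 * n + 1) + 1) := by
      intro p hp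
      rw [mem_filter] at hp
      rw [mem_range]
      exact Nat.lt_succ_of_le (Nat.le_sqrt'.2 hp.2)
    have h2 := card_le_card h1
    rw [card_range] at h2
    have h3 : ((Nat.sqrt (5 * n + 1) : ℕ) : ℝ) ≤ Real.sqrt (5 * n + 1) := by
      have := Real.nat_sqrt_le_real_sqrt (a := 5 * n + 1)
      push_cast at this
      exact this
    have h4 : (((S.filter fun p => p ^ 2 ≤ 5 * n + 1).card : ℕ) : ℝ) ≤ ((Nat.sqrt (5 * n + 1) + 1 : ℕ) : ℝ) := by
      exact_mod_cast h2
    push_cast at h4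
    linarith
  have hEE2 : ∑ p ∈ S, E2 p ≤ c * (C + 20) * n * Real.log (5 * n + 1) := by
    rw [hE2]
    simp only
    rw [← sum_filter, sum_const, nsmul_eq_mul]
    have h1 : (S.filter fun p => p ∈ P) ⊆ P := by
      intro p hp
      exact (mem_filter.1 hp).2
    have h2 : (((S.filter fun p => p ∈ P).card : ℕ) : ℝ) ≤ c := by
      rw [hcard]
      exact_mod_cast card_le_card h1
    have h3 : 0 ≤ (C + 20) * n * Real.log (5 * (n : ℝ) + 1) := by positivity
    have := mul_le_mul_of_nonneg_right h2 h3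
    linarith
  have hnn : (0 : ℝ) ≤ (n : ℝ) ^ 2 := by positivity
  have hA1 : c * (C + 20) * n * Real.log (5 * n + 1) ≤ A * n * Real.log (5 * n + 1) := by
    have : c * (C + 20) ≤ A := by rw [hA]; linarith
    have h3 : 0 ≤ (n : ℝ) * Real.log (5 * (n : ℝ) + 1) := by positivity
    nlinarith
  have hA2 : 0 ≤ A * n := by positivity
  linarith

end

end Pool.Agent.TH50.DQ.PM
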