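import Pool.Agent.TH50.DQ.Defs
import Pool.Agent.H422R2.LP.DefsP

/-!
# Hankel determinants of linear forms in `1, Li₁(1/Q), Li₂(1/Q)`: statements of the parts
-/

open Polynomial

namespace Pool.Agent.TH50.DQ

open Pool.Agent.LP

/-! ## The tasks -/

/-- non-vanishing -/
def S_nv : Prop := ∀ (Q : ℤ), Q ≠ 0 → Q ≠ 1 → ∀ n : ℕ, 1 ≤ n → ∀ α β γ : ℚ, (α ≠ 0 ∨ β ≠ 0) →
  ∃ m, 4 * n - 1 ≤ m ∧ m ≤ 4 * n + 1 ∧ DD Q n (5 * n) m α β γ ≠ 0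

/-- primes larger than `5 n`, not dividing `Q (Q - 1)` -/
def S_big : Prop := ∀ (Q : ℤ), Q ≠ 0 → Q ≠ 1 → ∀ (n p m : ℕ), p.Prime → 1 ≤ n → ¬ (p : ℤ) ∣ Q * (Q - 1) →
  5 * n < p → m ≤ 4 * n + 1 → ∀ α β γ : ℤ, padicNorm p (DD Q n (5 * n) m α β γ) ≤ 1

/-- small primes not dividing `Q (Q - 1)` -/
def S_small : Prop := ∀ (Q : ℤ), Q ≠ 0 → Q ≠ 1 → ∀ (n p m : ℕ), p.Prime → 1 ≤ n → ¬ (p : ℤ) ∣ Q * (Q - 1) →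
  4 * n - 1 ≤ m → m ≤ 4 * n + 1 → ∀ α β γ : ℤ,
  padicNorm p (DD Q n (5 * n) m α β γ) ≤
    (p : ℚ) ^ (((3 * Nat.log p (5 * n + 1) * (4 * n + 1) : ℕ) : ℤ) + 4 * padicValNat p (5 * n).factorial -
      padicValNat p (dB n))

/-- large primes not dividing `Q (Q - 1)` -/
def S_large : Prop := ∀ (Q : ℤ), Q ≠ 0 → Q ≠ 1 → ∀ (n p m : ℕ), p.Prime → 1 ≤ n → ¬ (p : ℤ) ∣ Q * (Q - 1) →
  5 * n + 1 < p ^ 2 → 4 * n - 1 ≤ m → m ≤ 4 * n + 1 → ∀ α β γ : ℤ,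
  padicNorm p (DD Q n (5 * n) m α β γ) ≤
    (p : ℚ) ^ (((∑ l ∈ Finset.range (4 * n + 1), wl n p l : ℕ) : ℤ) + 4 * padicValNat p (5 * n).factorial -
      padicValNat p (dB n))

/-- primes dividing `Q` -/
def S_div : Prop := ∀ (Q : ℤ), Q ≠ 0 → Q ≠ 1 → ∀ p : ℕ, p.Prime → (p : ℤ) ∣ Q →
  ∃ C : ℝ, 0 < C ∧ ∀ n : ℕ, 2 ≤ n → ∀ m : ℕ, 4 * n - 1 ≤ m → m ≤ 4 * n + 1 → ∀ α β γ : ℤ,
  DD Q n (5 * n) m α β γ ≠ 0 →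
  Real.log ((padicNorm p (DD Q n (5 * n) m α β γ) : ℚ) : ℝ) ≤
    -(4 / ((p : ℝ) - 1) + 5 * padicValInt p Q) * Real.log p * (n : ℝ) ^ 2 + C * n * Real.log n

/-- primes dividing `Q - 1` -/
def S_one : Prop := ∀ (Q : ℤ), Q ≠ 0 → Q ≠ 1 → ∀ p : ℕ, p.Prime → (p : ℤ) ∣ Q - 1 →
  ∃ C : ℝ, 0 < C ∧ ∀ n : ℕ, 2 ≤ n → ∀ m : ℕ, 4 * n - 1 ≤ m → m ≤ 4 * n + 1 → ∀ α β γ : ℤ,
  DD Q n (5 * n) m α β γ ≠ 0 →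
  Real.log ((padicNorm p (DD Q n (5 * n) m α β γ) : ℚ) : ℝ) ≤
    (-(4 / ((p : ℝ) - 1)) + 25 / 4 * padicValInt p (Q - 1)) * Real.log p * (n : ℝ) ^ 2 + C * n * Real.log n

end Pool.Agent.TH50.DQ
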